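import Pool.Agent.Run7.h877.TX.Desc

/-!
# Products of forms: the forms in two variables from the forms in four variables
-/

set_option autoImplicit false
set_option linter.unusedSectionVars false

namespace Run7.h877.TX

open Module Matrix
open Run7.h877.MT

variable {ι : Type} [Fintype ι] [DecidableEq ι] {K : Type} [Field K] {m n : ℕ}

/-- The product of two forms. -/
def ten (a : (Fin m → ι) → K) (b : (Fin n → ι) → K) : (Fin (m + n) → ι) → K :=
  fun i => a (fun s => i (Fin.castAdd n s)) * b (fun s => i (Fin.natAdd m s))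

lemma ev_ten (a : (Fin m → ι) → K) (b : (Fin n → ι) → K) (v : Fin (m + n) → ι → K) :
    ev (ten a b) v = ev a (fun s => v (Fin.castAdd n s)) * ev b (fun s => v (Fin.natAdd m s)) := by
  have h1 : ev a (fun s => v (Fin.castAdd n s)) * ev b (fun s => v (Fin.natAdd m s)) =
      ∑ p : (Fin m → ι) × (Fin n → ι), (a p.1 * ∏ j, v (Fin.castAdd n j) (p.1 j)) *
        (b p.2 * ∏ j, v (Fin.natAdd m j) (p.2 j)) := by
    rw [Fintype.sum_prod_type, ev, ev, Finset.sum_mul_sum]
  rw [h1, ev]
  refine (Fintype.sum_equiv (Fin.appendEquiv m n) _ _ fun p => ?_).symm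
  have h2 : ∀ s : Fin m, (Fin.appendEquiv m n p) (Fin.castAdd n s) = p.1 s :=
    fun s => Fin.append_left _ _ s
  have h3 : ∀ s : Fin n, (Fin.appendEquiv m n p) (Fin.natAdd m s) = p.2 s :=
    fun s => Fin.append_right _ _ s
  rw [Fin.prod_univ_add, ten]
  simp only [h2, h3]
  ring

lemma cst_ten {F : Type} [Field F] [CharZero F] (a : (Fin m → ι) → ℚ) (b : (Fin n → ι) → ℚ) :
    cst F (ten a b) = ten (cst F a) (cst F b) := by
  funext i
  simp [cst, ten]

lemma fn_ten {F : Type} [Field F] [CharZero F] (φ : F →ₗ[ℚ] ℚ) (a : (Fin m → ι) → F)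
    (b : (Fin n → ι) → ℚ) : fn φ (ten a (cst F b)) = ten (fn φ a) b := by
  funext i
  rw [fn, ten, ten, cst, phi_mul_cast, mul_comm]
  rfl

/-- If the product with the form of the polarization is a Hodge form, the form is a Hodge form. -/
lemma hodge_of_ten {H : PolHS ι} {l : ℕ} {a : (Fin (m + 1) → ι) → ℚ}
    (h : IsHodge H (l + H.w) (ten a (bil H.β 1))) : IsHodge H l a := by
  intro q v hv hq
  by_contra hne
  have h0 : v 0 ≠ 0 := by
    intro h0
    refine hne ?_
    have h1 := ev_update_zero (cst ℂ a) v 0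
    rwa [← h0, Function.update_eq_self] at h1
  obtain ⟨t, ht, h1⟩ := H.pos (q 0) (v 0) (hv 0) h0
  have h2 : (v 0) ⬝ᵥ (cM ℂ H.β *ᵥ star (v 0)) ≠ 0 := by
    intro h2
    rw [h2, mul_zero] at h1
    exact ht.ne (by exact_mod_cast h1)
  have h3 := h (Fin.append q ![q 0, (H.w : ℤ) - q 0]) (Fin.append v ![v 0, star (v 0)]) ?_ ?_
  · rw [cst_ten, ev_ten] at h3
    have h4 : (fun s : Fin (m + 1) => Fin.append v ![v 0, star (v 0)] (Fin.castAdd 2 s)) = v := by
      funext s
      exact Fin.append_left _ _ s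
    have h5 : (fun s : Fin 2 => Fin.append v ![v 0, star (v 0)] (Fin.natAdd (m + 1) s)) =
        ![v 0, star (v 0)] := by
      funext s
      exact Fin.append_right _ _ s
    rw [h4, h5, cst_bil, cM_one, ev_bil, Matrix.one_mulVec] at h3
    exact (mul_ne_zero hne h2) h3
  · intro j
    refine Fin.addCases (fun s => ?_) (fun s => ?_) j
    · rw [Fin.append_left, Fin.append_left]
      exact hv s
    · rw [Fin.append_right, Fin.append_right]
      fin_cases s
      · exact hv 0
      · exact H.conj _ _ (hv 0)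
  · rw [Fin.sum_univ_add]
    simp only [Fin.append_left, Fin.append_right, Fin.sum_univ_two, Matrix.cons_val_zero,
      Matrix.cons_val_one]
    intro h6
    apply hq
    push_cast at h6
    omega

/-- Forms in two variables from forms in four variables. -/
lemma span_of_ten {H : PolHS ι} {l : ℕ} {F : Type} [Field F] [CharZero F]
    {t : (Fin (m + 1) → ι) → F}
    (h : ten t (cst F (bil H.β 1)) ∈ Submodule.span F (cst F ''
      {a : (Fin (m + 1 + 2) → ι) → ℚ | IsHodge H (l + H.w) a})) :
    t ∈ Submodule.span F (cst F '' {a : (Fin (m + 1) → ι) → ℚ | IsHodge H l a}) := by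
  have h1 : ten t (cst F (bil H.β 1)) ∈ spF F (HF H (l + H.w) (m + 1 + 2)) := by
    have h2 := span_cst_le _ h
    have h3 : Submodule.span ℚ {a : (Fin (m + 1 + 2) → ι) → ℚ | IsHodge H (l + H.w) a} =
        HF H (l + H.w) (m + 1 + 2) := Submodule.span_eq (HF H (l + H.w) (m + 1 + 2))
    rwa [h3] at h2
  have h2 : t ∈ spF F (HF H l (m + 1)) := mem_of_fn fun φ => by
    have h3 := fn_mem h1 φ
    rw [fn_ten] at h3
    exact hodge_of_ten h3
  have h4 := spF_le {a : (Fin (m + 1) → ι) → ℚ | IsHodge H l a} (F := F)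
  rw [show Submodule.span ℚ {a : (Fin (m + 1) → ι) → ℚ | IsHodge H l a} =
        HF H l (m + 1) from Submodule.span_eq (HF H l (m + 1))] at h4
  exact h4 h2

end Run7.h877.TX
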