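import Pool.Agent.Run7.h877.TX.CenT
import Pool.Agent.Run7.h877.TX.Two

/-!
# Tate classes of codimension two on the fourth power decide the Mumford-Tate conjecture
-/

set_option autoImplicit false
set_option linter.unusedSectionVars false

open CategoryTheory AlgebraicGeometry TensorProduct

universe u

namespace Run7.h877.TX

open Module Matrix
open Pool.Agent.H914 hiding ev
open Pool.Agent.H914.VarClass Pool.Agent.H914.VarClass.Obj
  Pool.Agent.H914.WeilCohomology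
open Pool.Agent.Y133.Half (pw prj)
open Pool.Agent.Y121.AH hiding IsHodge
open Pool.Agent.N996.BP (IsPHS)
open Pool.Agent.N996.BP.Geo (tauT Fx lop cc)
open Pool.Agent.N996.FP.Geo (End1 Cen1)
open Run7.h877.MT
open Pool.Agent.Results.MP_b8862a_ag.TwoQuarticClasses (Realizations Forms IsMotivatedSystem
  Motivated MotivatedL DegreeTwo)

variable {k : Type u} [Field k] {𝒱 : VarClass k} {ops : CycleOps 𝒱}

variable {T : Pool.Agent.Y121.AH.HodgeTheory ops} {X : 𝒱.Obj} {ℓ : ℕ} [Fact ℓ.Prime]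
  [Algebra T.W.K ℚ_[ℓ]] {Γ : Type} [Group Γ] [TopologicalSpace Γ] [IsTopologicalGroup Γ]
  [CompactSpace Γ] (G : GAct T X ℓ Γ) {ι : Type} [Fintype ι] [DecidableEq ι]

lemma nontrivial_pw' {W : WeilCohomology.{u, 0} ops} {X : 𝒱.Obj} [Nontrivial (W.H X)] (n : ℕ) :
    Nontrivial (W.H (pw X n)) := by
  apply Module.nontrivial_of_finrank_pos (R := W.K)
  rw [Pool.Agent.Y133.Half.finrank_pw]
  exact pow_pos Module.finrank_pos _

lemma finiteIndex_of_open {U : Subgroup Γ} (hU : IsOpen (U : Set Γ)) : U.FiniteIndex := by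
  have h2 : Finite (Γ ⧸ U) := U.quotient_finite_of_isOpen hU
  exact Subgroup.finiteIndex_of_finite_quotient

lemma finiteIndex_map {U : Subgroup Γ} (hU : IsOpen (U : Set Γ)) {Δ : Subgroup U}
    (hΔ : Δ.FiniteIndex) : (Δ.map U.subtype).FiniteIndex := by
  have h1 := finiteIndex_of_open hU
  refine ⟨?_⟩
  rw [Subgroup.index_map_subtype]
  exact mul_ne_zero hΔ.index_ne_zero h1.index_ne_zero

lemma finiteIndex_comap {U V : Subgroup Γ} (hV : IsOpen (V : Set Γ)) :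
    (V.subgroupOf U).FiniteIndex := by
  have h1 := finiteIndex_of_open hV
  exact inferInstance

lemma compact_sub {U : Subgroup Γ} (hU : IsOpen (U : Set Γ)) : CompactSpace U :=
  isCompact_iff_compactSpace.1 ((Subgroup.isClosed_of_isOpen U hU).isCompact)

section Main

variable {e f x : ι → T.W.H X} {D : X.Cycles} {ψ : LinearMap.BilinForm T.W.K (T.W.H X)} {d : ℕ}
  (hP : IsPHS (tauT T) (Fx T X) ψ d)
  (hf : ∀ a b, T.W.tr X (e a * f b) = if a = b then 1 else 0)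
  (he1 : ∀ a, e a ∈ T.W.gr X 1) (hspan : ∀ z ∈ T.W.gr X 1, ∃ v, vec e v = z)
  (hG : G.HT) (hnt : ∀ n, Nontrivial (T.W.H (pw X n)))
  (h0 : 0 < X.dim) (hD : X.IsCyc 1 D)
  (hd : IsDual T.W X x (fun a => lam T.W X D (e a)) (2 * (X.dim - 1) + 1))
  (hxs : ∀ z ∈ T.W.gr X 1, ∃ v, vec x v = z)

/-- similitudes from the Tate form -/
lemma simil_of_form {β g : Matrix ι ι ℚ_[ℓ]} {c : ℚ_[ℓ]}
    (h : ∀ v : Fin 2 → ι → ℚ_[ℓ], ev (bil β 1) (fun s => g *ᵥ v s) = c ^ 1 * ev (bil β 1) v) :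
    gᵀ * β * g = c ^ 1 • β := by
  rw [← sub_eq_zero]
  refine dot_mulVec_eq_zero fun x y => ?_
  have h1 := h fun s : Fin 2 => if s = 0 then x else y
  rw [ev_bil, ev_bil, Matrix.one_mulVec, Matrix.one_mulVec] at h1
  have h2 : (g *ᵥ x) ⬝ᵥ (β *ᵥ (g *ᵥ y)) = c ^ 1 * (x ⬝ᵥ (β *ᵥ y)) := h1
  rw [Matrix.sub_mulVec, dotProduct_sub, sub_eq_zero, Matrix.smul_mulVec, dotProduct_smul,
    smul_eq_mul, ← h2, dot_left, Matrix.mulVec_mulVec, Matrix.mulVec_mulVec, Matrix.mul_assoc]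

/-- The realizations of `H^1(X)`. -/
noncomputable def reaL {U : Subgroup Γ}
    (hsim : ∀ g ∈ U, (G.mat e f g)ᵀ * cM ℚ_[ℓ] (psiM T ψ e) * G.mat e f g =
      G.χ g ^ 1 • cM ℚ_[ℓ] (psiM T ψ e)) : Realizations ι ℓ U where
  H := HS hP hf he1 hspan
  ρ := (G.rep hf he1 hspan).comp U.subtype
  μ := G.χ.comp U.subtype
  continuous_rho := (G.continuous_rep hf he1 hspan).comp continuous_subtype_val
  continuous_mu := G.cχ.comp continuous_subtype_val
  similitude g := hsim g g.2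

variable {U : Subgroup Γ}
    (hsim : ∀ g ∈ U, (G.mat e f g)ᵀ * cM ℚ_[ℓ] (psiM T ψ e) * G.mat e f g =
      G.χ g ^ 1 • cM ℚ_[ℓ] (psiM T ψ e))

lemma isTate_of_opn {m n : ℕ} {t : (Fin n → ι) → ℚ_[ℓ]} (h : G.Opn e f m t) :
    IsTate (reaL G hP hf he1 hspan hsim).ρ (reaL G hP hf he1 hspan hsim).μ m t := by
  obtain ⟨V, hV, h⟩ := h
  exact ⟨V.subgroupOf U, finiteIndex_comap hV, fun g hg v => h g (Subgroup.mem_subgroupOf.1 hg) v⟩

lemma of_isTate (hU : IsOpen (U : Set Γ)) {m n : ℕ} {t : (Fin n → ι) → ℚ_[ℓ]}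
    (h : IsTate (reaL G hP hf he1 hspan hsim).ρ (reaL G hP hf he1 hspan hsim).μ m t) :
    ∃ Δ : Subgroup Γ, Δ.FiniteIndex ∧ ∀ g ∈ Δ, ∀ v : Fin n → ι → ℚ_[ℓ],
      ev t (fun s => G.mat e f g *ᵥ v s) = G.χ g ^ m * ev t v := by
  obtain ⟨Δ, hΔ, h⟩ := h
  refine ⟨Δ.map U.subtype, finiteIndex_map hU hΔ, ?_⟩
  rintro _ ⟨g, hg, rfl⟩ v
  exact h g hg v

/-- semisimplicity in coordinates -/
lemma semi_of (hU : IsOpen (U : Set Γ)) (hS : G.Semi) :
    SemisimpleRep (reaL G hP hf he1 hspan hsim).ρ := by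
  intro W hW
  let V : Submodule (baseW T.W ℚ_[ℓ]).K ((baseW T.W ℚ_[ℓ]).H X) :=
    { carrier := {z | ∃ w ∈ W, vecL ℓ e w = z}
      add_mem' := by
        rintro _ _ ⟨v, hv, rfl⟩ ⟨w, hw, rfl⟩
        exact ⟨v + w, W.add_mem hv hw, vec_add (W := baseW T.W ℚ_[ℓ]) _ v w⟩
      zero_mem' := ⟨0, W.zero_mem, vec_zero (W := baseW T.W ℚ_[ℓ]) _⟩
      smul_mem' := by
        rintro c _ ⟨v, hv, rfl⟩
        exact ⟨(show ℚ_[ℓ] from c) • v, W.smul_mem _ hv, vec_smul (W := baseW T.W ℚ_[ℓ]) _ c v⟩ }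
  obtain ⟨V', hV'1, hdis, hcod, hV'⟩ := hS U hU V (by
      rintro _ ⟨w, -, rfl⟩
      exact vec_mem (W := baseW T.W ℚ_[ℓ]) (fun a => em_gr (he1 a)) w) (by
      rintro g hg _ ⟨w, hw, rfl⟩
      exact ⟨G.mat e f g *ᵥ w, hW ⟨g, hg⟩ w hw, (G.mat_eq hf he1 hspan g w).symm⟩)
  let W' : Submodule ℚ_[ℓ] (ι → ℚ_[ℓ]) :=
    { carrier := {w | vecL ℓ e w ∈ V'}
      add_mem' := by
        intro v w hv hw
        have h1 : vecL ℓ e (v + w) = vecL ℓ e v + vecL ℓ e w :=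
          vec_add (W := baseW T.W ℚ_[ℓ]) _ v w
        change vecL ℓ e (v + w) ∈ V'
        rw [h1]
        exact V'.add_mem hv hw
      zero_mem' := by
        have h1 : vecL ℓ e (0 : ι → ℚ_[ℓ]) = 0 := vec_zero (W := baseW T.W ℚ_[ℓ]) _
        change vecL ℓ e 0 ∈ V'
        rw [h1]
        exact V'.zero_mem
      smul_mem' := by
        intro c v hv
        have h1 : vecL ℓ e (c • v) = (show (baseW T.W ℚ_[ℓ]).K from c) • vecL ℓ e v :=
          vec_smul (W := baseW T.W ℚ_[ℓ]) _ c v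
        change vecL ℓ e (c • v) ∈ V'
        rw [h1]
        exact V'.smul_mem _ hv }
  refine ⟨W', fun g w hw => ?_, ?_⟩
  · have h1 := hV' g.1 g.2 _ hw
    rw [G.mat_eq hf he1 hspan] at h1
    exact h1
  · refine IsCompl.of_le ?_ ?_
    · rintro w ⟨hw, hw'⟩
      have h1 : vecL ℓ e w ∈ V ⊓ V' := ⟨⟨w, hw, rfl⟩, hw'⟩
      rw [hdis] at h1
      have h2 : vecL ℓ e w = vecL ℓ e (0 : ι → ℚ_[ℓ]) :=
        ((Submodule.mem_bot _).1 h1).trans (vec_zero (W := baseW T.W ℚ_[ℓ]) _).symm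
      rw [Submodule.mem_bot]
      exact vecL_inj hf h2
    · intro u _
      have h1 : vecL ℓ e u ∈ V ⊔ V' :=
        hcod (vec_mem (W := baseW T.W ℚ_[ℓ]) (fun a => em_gr (he1 a)) u)
      obtain ⟨_, ⟨w, hw, rfl⟩, v', hv', h2⟩ := Submodule.mem_sup.1 h1
      obtain ⟨w', hw'⟩ : ∃ w' : ι → ℚ_[ℓ], vecL ℓ e w' = v' :=
        span_base (L := ℚ_[ℓ]) hspan v' (hV'1 hv')
      have h3 : vecL ℓ e (w + w') = vecL ℓ e u := by
        rw [← h2, ← hw']
        exact vec_add (W := baseW T.W ℚ_[ℓ]) _ w w'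
      rw [← vecL_inj hf h3]
      refine Submodule.add_mem_sup hw ?_
      change vecL ℓ e w' ∈ V'
      rw [hw']
      exact hv'

include hP hf he1 hspan hG hnt h0 hD hd hxs in
/-- the open subgroup -/
lemma exists_sim : ∃ U : Subgroup Γ, IsOpen (U : Set Γ) ∧ ∀ g ∈ U,
    (G.mat e f g)ᵀ * cM ℚ_[ℓ] (psiM T ψ e) * G.mat e f g =
      G.χ g ^ 1 • cM ℚ_[ℓ] (psiM T ψ e) := by
  obtain ⟨U, hU, h⟩ := hodge_opn G hP hf he1 hspan hG hnt h0 hD hd hxs (n := 1) (m := 1) rfl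
    (beta_hodge (HS hP hf he1 hspan))
  refine ⟨U, hU, fun g hg => simil_of_form fun v => ?_⟩
  have h1 := h g hg v
  rw [cst_bil, cM_one] at h1
  exact h1

include hG hnt h0 hD hd hxs hsim in
/-- **The theorem in coordinates.** -/
theorem conj_of (hU : IsOpen (U : Set Γ)) (hS : G.Semi) (hT2 : G.TH 3 2)
    (hcen : ∀ z : Matrix ι ι ℚ, IsHodge (HS hP hf he1 hspan) 1 (bil (psiM T ψ e) z) →
      (∀ ε : Matrix ι ι ℚ, IsHodge (HS hP hf he1 hspan) 1 (bil (psiM T ψ e) ε) →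
        z * ε = ε * z) → KH' hP hf he1 hspan z → ∀ (n m : ℕ), n + 1 = 2 * m →
      ∀ (t : (Fin (n + 1) → ι) → ℚ_[ℓ]) (Δ : Subgroup Γ), Δ.FiniteIndex →
        (∀ g ∈ Δ, ∀ v : Fin (n + 1) → ι → ℚ_[ℓ],
          ev t (fun s => G.mat e f g *ᵥ v s) = G.χ g ^ m * ev t v) →
        Kills (cM ℚ_[ℓ] z) t) (n m : ℕ) (hm : 2 * m = n * 1)
    {t : (Fin n → ι) → ℚ_[ℓ]} (ht : G.Opn e f m t) :
    t ∈ Submodule.span ℚ_[ℓ] (cst ℚ_[ℓ] '' {a | IsHodge (HS hP hf he1 hspan) m a}) := by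
  have hcs := compact_sub hU
  obtain ⟨a, t0, ha, ht0, hall⟩ := Pool.Agent.Results.MP_b8862a_ag.TwoQuarticClasses.result
    (reaL G hP hf he1 hspan hsim) (semi_of G hP hf he1 hspan hsim hU hS)
  let A : Forms ι := fun n => {a | ∀ m : ℕ, 2 * m = n * 1 →
    IsHodge (HS hP hf he1 hspan) m a ∧
      IsTate (reaL G hP hf he1 hspan hsim).ρ (reaL G hP hf he1 hspan hsim).μ m (cst ℚ_[ℓ] a)}
  have hA : ∀ {n m : ℕ}, n + 1 = 2 * m → ∀ a : (Fin (n + 1) → ι) → ℚ,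
      IsHodge (HS hP hf he1 hspan) m a → a ∈ A (n + 1) := by
    intro n m hnm a ha m' hm'
    have h1 : m' = m := by omega
    subst h1
    exact ⟨ha, isTate_of_opn G hP hf he1 hspan hsim
      (hodge_opn G hP hf he1 hspan hG hnt h0 hD hd hxs hnm ha)⟩
  have hspanA : ∀ {n m : ℕ}, n + 1 = 2 * m → G.TH n m → ∀ t : (Fin (n + 1) → ι) → ℚ_[ℓ],
      IsTate (reaL G hP hf he1 hspan hsim).ρ (reaL G hP hf he1 hspan hsim).μ m t →
      MotivatedL A t := by
    intro n m hnm hT t ht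
    obtain ⟨Δ, hΔ, h1⟩ := of_isTate G hP hf he1 hspan hsim hU ht
    have h2 := form_span G hP hf he1 hspan hG hnt h0 hD hd hxs hnm hT hΔ h1
    refine Submodule.span_mono ?_ h2
    rintro _ ⟨a, ha, rfl⟩
    exact ⟨a, hA hnm a ha.1, rfl⟩
  have hmot : IsMotivatedSystem (reaL G hP hf he1 hspan hsim) A :=
    { polarization := hA (n := 1) (m := 1) rfl _ (beta_hodge (HS hP hf he1 hspan))
      hodge := fun n m hm a ha => (ha m hm).1
      tate := fun n m hm a ha => (ha m hm).2 }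
  have h2 : DegreeTwo (reaL G hP hf he1 hspan hsim) A := by
    refine ⟨fun a ha => Submodule.subset_span (hA (n := 1) (m := 1) rfl a ha), fun t ht => ?_⟩
    have h6 : IsTate (reaL G hP hf he1 hspan hsim).ρ (reaL G hP hf he1 hspan hsim).μ 2
        (ten t (cst ℚ_[ℓ] (bil (HS hP hf he1 hspan).β 1))) := by
      obtain ⟨Δ, hΔ, h7⟩ := ht
      refine ⟨Δ, hΔ, fun g hg v => ?_⟩
      have h8 : ∀ v : Fin 2 → ι → ℚ_[ℓ],
          ev (cst ℚ_[ℓ] (bil (HS hP hf he1 hspan).β 1))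
            (fun j => (reaL G hP hf he1 hspan hsim).ρ g *ᵥ v j) =
          (reaL G hP hf he1 hspan hsim).μ g ^ 1 *
            ev (cst ℚ_[ℓ] (bil (HS hP hf he1 hspan).β 1)) v := by
        intro v
        have h10 : ((reaL G hP hf he1 hspan hsim).ρ g)ᵀ * cM ℚ_[ℓ] (HS hP hf he1 hspan).β *
            (reaL G hP hf he1 hspan hsim).ρ g = (reaL G hP hf he1 hspan hsim).μ g ^ 1 •
              cM ℚ_[ℓ] (HS hP hf he1 hspan).β := hsim g g.2
        rw [cst_bil, cM_one, ev_bil, ev_bil, Matrix.one_mulVec, Matrix.one_mulVec, dot_left,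
          Matrix.mulVec_mulVec, Matrix.mulVec_mulVec, h10, Matrix.smul_mulVec, dotProduct_smul,
          smul_eq_mul]
      rw [ev_ten, ev_ten, h8, h7 g hg]
      change _ ^ 1 * _ * _ = _
      ring
    have h9 : ten t (cst ℚ_[ℓ] (bil (HS hP hf he1 hspan).β 1)) ∈ Submodule.span ℚ_[ℓ]
        (cst ℚ_[ℓ] '' {a : (Fin 4 → ι) → ℚ | IsHodge (HS hP hf he1 hspan) 2 a}) := by
      refine Submodule.span_mono ?_ (hspanA (n := 3) (m := 2) rfl hT2 _ h6)
      rintro _ ⟨a, ha, rfl⟩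
      exact ⟨a, (ha 2 rfl).1, rfl⟩
    have h10 := span_of_ten (m := 1) (l := 1) (H := HS hP hf he1 hspan) h9
    refine Submodule.span_mono ?_ h10
    rintro _ ⟨a, ha, rfl⟩
    exact ⟨a, hA (n := 1) (m := 1) rfl a ha, rfl⟩
  have h3 := (hall A hmot (Submodule.subset_span (hA (n := 3) (m := 2) rfl a ha))
    (hspanA (n := 3) (m := 2) rfl hT2 t0 ht0) h2).2 (Or.inl fun z hz hzk => by
      have hAS : Submodule.span ℚ (A 2) ≤ HF (HS hP hf he1 hspan) 1 2 := by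
        rw [Submodule.span_le]
        intro a ha
        exact (ha 1 rfl).1
      have hzk' : ∀ (m l : ℕ) (a : (Fin m → ι) → ℚ), 2 * l = m * 1 →
          IsHodge (HS hP hf he1 hspan) l a → Kills z a := by
        intro m l a hl ha
        rcases m with _ | m
        · intro v
          exact Finset.sum_eq_zero fun s _ => s.elim0
        · exact hzk (m + 1) l hl a (hA (n := m) (m := l) (by omega) a ha)
      refine ⟨fun n m a hm ha => hzk' n m a hm ha, fun n m a hm ha => ?_⟩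
      rcases n with _ | n
      · intro v
        exact Finset.sum_eq_zero fun s _ => s.elim0
      · obtain ⟨Δ, hΔ, h1⟩ := of_isTate G hP hf he1 hspan hsim hU ha
        exact hcen z (hAS hz.1) (fun ε hε => hz.2 ε
          (Submodule.subset_span (hA (n := 1) (m := 1) rfl _ hε))) hzk' n m
          (show n + 1 = 2 * m by
            have h5 : 2 * m = (n + 1) * 1 := hm
            omega) a Δ hΔ h1)
  exact ((h3.2.2 n m hm).2 t).1 (isTate_of_opn G hP hf he1 hspan hsim ht)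

end Main

/-- **Tate classes are Hodge classes.** -/
theorem tate_hodge {ψ : LinearMap.BilinForm T.W.K (T.W.H X)} {d : ℕ}
    (hP : IsPHS (tauT T) (Fx T X) ψ d)
    (hgen : Algebra.adjoin T.W.K (T.W.gr X 1 : Set (T.W.H X)) = ⊤)
    (hself : (∀ φ : T.W.H X →ₗ[T.W.K] T.W.H X, Cen1 T X φ →
      ∀ c ∈ T.W.gr X 1, ∀ d ∈ T.W.gr X 1, ψ (φ c) d = ψ c (φ d)) ∨ G.CC)
    (h0 : 0 < X.dim) (hG : G.HT) (hS : G.Semi) (hT2 : G.TH 3 2) (n j : ℕ) :
    G.TH n j := by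
  intro c hc
  by_cases hnt0 : Nontrivial (T.W.H X)
  · have hnt : ∀ n, Nontrivial (T.W.H (pw X n)) := fun n => nontrivial_pw' n
    obtain ⟨r, e, he, he1, hspan⟩ := exists_bas T.W X 1
    obtain ⟨f, hf⟩ := exists_co T.W he
    obtain ⟨D, hD, hL, -⟩ := T.dec.polar X
    obtain ⟨x, hd, hxs⟩ := exists_dual hD hL h0 he he1 hspan
    obtain ⟨U, hU, hsim⟩ := exists_sim G hP hf he1 hspan hG hnt h0 hD hd hxs
    refine mem_HSp hP hf he1 hspan hgen hc.1 fun m l hm hl i => ?_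
    obtain ⟨V, hV, hVt⟩ := G.frm_tate hf he1 hspan hG (hnt n) hc
    refine conj_of G hP hf he1 hspan hG hnt h0 hD hd hxs hsim hU hS hT2
      (fun z hz hc hk n m hm t Δ hΔ ht => ?_) m l hl
      ⟨V, hV, fun g hg v => hVt g hg m l (by omega) i v⟩
    rcases hself with hself | hC
    · have h2 := selfAdjoint_of hP hf he1 hspan hself hz hc
      have h3 : Skew (psiM T ψ e) z := kills_bil_one.1 (hk 2 1 _ rfl
        (beta_hodge (HS hP hf he1 hspan)))
      have h4 : z = 0 := eq_zero_of_selfAdjoint (beta_unit (HS hP hf he1 hspan)) h2 h3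
      subst h4
      rw [cM_zero]
      exact Kills.zero
    · exact kills_tate G hP hf he1 hspan hG hnt h0 hD hd hxs hC hgen hz hc hk hm hΔ ht
  · have h1 : (1 : T.W.H X) = 0 := by
      have := not_nontrivial_iff_subsingleton.1 hnt0
      exact Subsingleton.elim _ _
    have h2 : (1 : (baseW T.W ℚ_[ℓ]).H (pw X n)) = 0 := by
      have h3 : (baseW T.W ℚ_[ℓ]).map (prj X n 0) (em T.W ℚ_[ℓ] (1 : T.W.H X)) =
          em T.W ℚ_[ℓ] (T.W.map (prj X n 0) 1) := em_map _ _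
      rw [h1, map_zero, em_zero, map_zero] at h3
      have h4 : em T.W ℚ_[ℓ] (T.W.map (prj X n 0) (1 : T.W.H X)) =
          (1 : (baseW T.W ℚ_[ℓ]).H (pw X n)) := by rw [map_one]; rfl
      rw [← h4, h1, map_zero, em_zero]
    have h5 : c = 0 := by
      rw [← mul_one c, h2, mul_zero]
    rw [h5]
    exact Submodule.zero_mem _

end Run7.h877.TX
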