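import Pool.Agent.Run7.h877.TX.SDefs
import Pool.Agent.Run7.h877.TX.Fin2
import Pool.Agent.N996.FP.FinS

/-!
# The final theorems
-/

set_option autoImplicit false
set_option linter.unusedSectionVars false

open CategoryTheory AlgebraicGeometry TensorProduct

universe u

namespace Run7.h877.SD

open Module
open Pool.Agent.H914 Pool.Agent.H914.VarClass Pool.Agent.H914.VarClass.Obj
  Pool.Agent.H914.WeilCohomology
open Pool.Agent.Y121.AHS
open Pool.Agent.Y133.Half (pw prj prj_zero ClassPred Sys)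
open Pool.Agent.Y121.AH (hodgePred em em_gr)
open Pool.Agent.N996 Pool.Agent.N996.FP Pool.Agent.N996.BP.Geo Pool.Agent.N996.FP.Geo
open Run7.h226 Run7.h877.TX

variable {k : Type u} [Field k] {𝒱 : VarClass k} {ops : CycleOps 𝒱} {T : HodgeTheory ops}
  {E : PrimeNumber T} {X Y Z : 𝒱.Obj} {Γ : Type} [Group Γ] [TopologicalSpace Γ]

lemma isCd_prj (n : ℕ) (i : Fin (n + 1)) : IsCd (n := 0) (m := n) (prj X n i) := fun j => ⟨i, by
  rw [prj_zero]
  exact Category.comp_id _⟩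

lemma pr_prj (n : ℕ) {i : ℕ} (hi : i ≤ n) : pr X n i = prj X n ⟨i, by omega⟩ := by
  rw [pr_BP]
  exact BP.pr_eq X n ⟨i, by omega⟩

/-- The conversion of the actions. -/
noncomputable def toG (R : GaloisAction E X Γ) : GAct (toH T) X E.ℓ Γ where
  χ := R.c.χ
  cχ := R.c.cont
  ρ n g := (R.r n).ρ g
  one' n x := by
    have h := LinearMap.congr_fun (map_one (R.r n).ρ) x
    exact h
  mul' n g h x := by
    have h := LinearMap.congr_fun (map_mul (R.r n).ρ g h) x
    exact h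
  cρ n x φ := (R.r n).cont x φ
  mul := R.mul
  comp n i g a := R.map 0 n (prj X n i) (isCoordinateMap_iff.2 (BP.isCoordinateMap_iff.2
    (isCd_prj n i))) g a
  deg := R.deg

lemma isAlgebraic_eq {Y : 𝒱.Obj} {j : ℕ} : (IsAlgebraic j : E.H Y → Prop) = IsAlg j := by
  funext a
  refine propext ⟨?_, ?_⟩
  · rintro ⟨_, ⟨z, hz, rfl⟩, rfl⟩
    exact ⟨z, hz, rfl⟩
  · rintro ⟨z, hz, rfl⟩
    exact ⟨_, ⟨z, hz, rfl⟩, rfl⟩

lemma ht_of {R : GaloisAction E X Γ} (hD : HodgeIsTate R) : (toG R).HT :=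
  fun n j c hc => hD n j (E.em c) ⟨c, hc, rfl⟩

lemma th_of {R : GaloisAction E X Γ} {n j : ℕ} (h : TateIsHodgeIn R n j) : (toG R).TH n j :=
  fun c hc => h c hc

lemma of_th {R : GaloisAction E X Γ} {n j : ℕ} (h : (toG R).TH n j) : TateIsHodgeIn R n j :=
  fun c hc => h c hc

lemma semi_of {R : GaloisAction E X Γ} (h : ContRep.Semisimple (R.r 0)) : (toG R).Semi := by
  intro U hU V hV hVs
  obtain ⟨W', hc, hs⟩ := h U hU V hVs
  refine ⟨(Pool.Agent.H914.baseW (toH T).W ℚ_[E.ℓ]).gr X 1 ⊓ W', inf_le_left, ?_, ?_, ?_⟩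
  · rw [eq_bot_iff]
    refine le_trans ?_ (hc.disjoint.le_bot)
    exact inf_le_inf le_rfl inf_le_right
  · intro z hz
    have h5 := hc.sup_eq_top
    have h6 : (show E.H (pw X 0) from z) ∈ (⊤ : Submodule ℚ_[E.ℓ] (E.H (pw X 0))) := trivial
    rw [← h5] at h6
    have h1 : z ∈ V ⊔ W' := h6
    obtain ⟨v, hv, w, hw, h2⟩ := Submodule.mem_sup.1 h1
    refine Submodule.mem_sup.2 ⟨v, hv, w, ⟨?_, hw⟩, h2⟩
    have h3 : w = z - v := by rw [← h2]; abel
    rw [h3]
    exact Submodule.sub_mem _ hz (hV hv)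
  · rintro g hg v ⟨hv1, hv2⟩
    exact ⟨(toG R).ρ0_deg g hv1, hs g hg v hv2⟩

lemma ext_zero {K L A B : Type} [Field K] [Field L] [Algebra K L] [Ring A] [Algebra K A]
    [Ring B] [Algebra K B] {d : A →ₗ[K] B} {a : A} (h : d a = 0) :
    extMap K L d ((1 : L) ⊗ₜ[K] a) = 0 := by
  have h5 : extMap K L d ((1 : L) ⊗ₜ[K] a) = (1 : L) ⊗ₜ[K] (d a) := LinearMap.baseChange_tmul _ _ _
  rw [h5, h]
  exact TensorProduct.tmul_zero _ _

lemma cc_of {R : GaloisAction E X Γ} (h : CentreKillsTateClasses R) : (toG R).CC := by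
  intro δ h1 h2 h3 h4 n j c hc
  refine h δ (fun n => ⟨h1 n, fun i hi b => ?_⟩) (isCentral_iff.2 h3) (fun n j => ?_) n j c hc
  · have h5 := h2 n ⟨i, by omega⟩ b
    rw [← pr_prj n hi] at h5
    exact h5
  · rintro _ ⟨a, ha, rfl⟩
    exact ext_zero (h4 n j a ha)

/-- Varieties of dimension zero. -/
lemma tateIsHodge_zero (R : GaloisAction E X Γ) (h0 : X.dim = 0) (n j : ℕ) :
    TateIsHodgeIn R n j := by
  refine of_th fun c hc => ?_
  have hdim : (pw X n).dim = 0 := by rw [dim_pw, h0, mul_zero]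
  rcases Nat.eq_zero_or_pos j with rfl | hj
  · have h1 : c ∈ (Pool.Agent.H914.baseW (toH T).W ℚ_[E.ℓ]).gr (pw X n) 0 := hc.1
    rw [(Pool.Agent.H914.baseW (toH T).W ℚ_[E.ℓ]).gr_zero] at h1
    obtain ⟨s, rfl⟩ := Submodule.mem_span_singleton.1 h1
    refine Submodule.smul_mem _ _ (Submodule.subset_span ⟨1, isHodge_one, rfl⟩)
  · have h1 : c = 0 := by
      refine (Pool.Agent.H914.baseW (toH T).W ℚ_[E.ℓ]).nondeg _ fun y => ?_
      refine gr_induction ((Pool.Agent.H914.baseW (toH T).W ℚ_[E.ℓ]).isInternal (pw X n))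
        (p := fun y => (Pool.Agent.H914.baseW (toH T).W ℚ_[E.ℓ]).tr (pw X n) (c * y) = 0)
        ?_ ?_ y
      · intro i y hy
        exact (Pool.Agent.H914.baseW (toH T).W ℚ_[E.ℓ]).tr_eq_zero
          ((Pool.Agent.H914.baseW (toH T).W ℚ_[E.ℓ]).mul_mem hc.1 hy) (by omega)
      · intro a b ha hb
        rw [mul_add, map_add, ha, hb, add_zero]
    rw [h1]
    exact Submodule.zero_mem _

/-- **Tate classes are combinations of Hodge classes.** -/
theorem tateIsHodge [IsTopologicalGroup Γ] [CompactSpace Γ] {ψ : RForm T.W X}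
    (hψ : IsPolarisation T X ψ) (hX : OfAbelianType T X) {R : GaloisAction E X Γ}
    (hF : ContRep.Semisimple (R.r 0)) (hD : HodgeIsTate R)
    (hC : SelfAdjointCentre T X ψ ∨ CentreKillsTateClasses R)
    (h2 : TateIsHodgeIn R 3 2) (n j : ℕ) : TateIsHodgeIn R n j := by
  rcases Nat.eq_zero_or_pos X.dim with h0 | h0
  · exact tateIsHodge_zero R h0 n j
  · refine of_th (tate_hodge (toG R) hψ.toBP.isPHS hX.1 ?_ h0 (ht_of hD) (semi_of hF)
      (th_of h2) n j)
    rcases hC with hC | hC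
    · exact Or.inl fun φ hφ c hc d hd => hC φ (isCentral_iff.2 hφ) c hc d hd
    · exact Or.inr (cc_of hC)

/-! ### Small powers -/

lemma hsp_map {f : Y ⟶ Z} {j : ℕ}
    {x : (Pool.Agent.H914.baseW (toH T).W ℚ_[E.ℓ]).H Z} (hx : x ∈ HSp (toH T) ℚ_[E.ℓ] Z j) :
    (Pool.Agent.H914.baseW (toH T).W ℚ_[E.ℓ]).map f x ∈ HSp (toH T) ℚ_[E.ℓ] Y j := by
  rw [HSp] at hx
  induction hx using Submodule.span_induction with
  | mem x hx =>
    obtain ⟨c, hc, rfl⟩ := hx
    rw [Pool.Agent.Y121.AH.em_map]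
    exact Submodule.subset_span ⟨_, hc.map f, rfl⟩
  | zero => rw [map_zero]; exact Submodule.zero_mem _
  | add x y _ _ hx hy => rw [map_add]; exact Submodule.add_mem _ hx hy
  | smul c x _ hx => rw [map_smul]; exact Submodule.smul_mem _ _ hx

/-- Smaller powers. -/
lemma tateIsHodge_small {R : GaloisAction E X Γ} {n N j : ℕ} (hn : n ≤ N)
    (h : TateIsHodgeIn R N j) : TateIsHodgeIn R n j := by
  refine of_th fun c hc => ?_
  have h1 : (toG R).IsT N j
      ((Pool.Agent.H914.baseW (toH T).W ℚ_[E.ℓ]).map (BP.Geo.down X hn) c) := by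
    obtain ⟨h2, U, hU, h3⟩ := hc
    refine ⟨(Pool.Agent.H914.baseW (toH T).W ℚ_[E.ℓ]).map_mem _ h2, U, hU, fun g hg => ?_⟩
    have h4 : (toG R).ρ N g ((Pool.Agent.H914.baseW (toH T).W ℚ_[E.ℓ]).map (BP.Geo.down X hn) c) =
        (Pool.Agent.H914.baseW (toH T).W ℚ_[E.ℓ]).map (BP.Geo.down X hn) ((toG R).ρ n g c) :=
      R.map n N (BP.Geo.down X hn) (isCoordinateMap_iff.2 (BP.isCoordinateMap_iff.2
        (isCd_down hn))) g c
    rw [h4, h3 g hg, map_smul]
  have h5 := hsp_map (E := E) (f := BP.Geo.up X n N) (th_of h _ h1)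
  have h6 : (Pool.Agent.H914.baseW (toH T).W ℚ_[E.ℓ]).map (BP.Geo.up X n N)
      ((Pool.Agent.H914.baseW (toH T).W ℚ_[E.ℓ]).map (BP.Geo.down X hn) c) = c := by
    rw [← WeilCohomology.map_comp, BP.Geo.up_down, WeilCohomology.map_id]
  rwa [h6] at h5

/-- Classes of cycles are Hodge classes. -/
lemma tateIsHodge_of_conj {R : GaloisAction E X Γ} {n j : ℕ} (h : TateConjectureIn R n j) :
    TateIsHodgeIn R n j := by
  intro a ha
  refine (Submodule.span_mono ?_ : Submodule.span ℚ_[E.ℓ] {w : E.H (pw X n) | IsAlg j w} ≤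
    Submodule.span ℚ_[E.ℓ] {w : E.H (pw X n) | IsHdg j w}) (h a ha)
  rintro _ ⟨z, hz, rfl⟩
  exact ⟨_, Pool.Agent.Y121.AH.IsHodge.cl (T := toH T) hz, rfl⟩

/-! ### Descent -/

/-- Descent of membership. -/
lemma desc {K L B : Type} [Field K] [Field L] [Algebra K L] [AddCommGroup B] [Module K B]
    {S : Submodule K B} {c : B} (h : (1 : L) ⊗ₜ[K] c ∈ S.baseChange L) : c ∈ S := by
  by_contra hc
  obtain ⟨f, hf, hS⟩ := Submodule.exists_le_ker_of_notMem hc
  have key : ∀ x ∈ S.baseChange L, f.baseChange L x = 0 := by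
    intro x hx
    rw [Submodule.baseChange_eq_span] at hx
    induction hx using Submodule.span_induction with
    | mem x hx =>
      obtain ⟨c, hc, rfl⟩ := hx
      change f.baseChange L ((1 : L) ⊗ₜ[K] c) = 0
      rw [LinearMap.baseChange_tmul, LinearMap.mem_ker.1 (hS hc), TensorProduct.tmul_zero]
    | zero => rw [map_zero]
    | add x y _ _ hx hy => rw [map_add, hx, hy, add_zero]
    | smul c x _ hx => rw [map_smul, hx, smul_zero]
  have h1 := key _ h
  rw [LinearMap.baseChange_tmul] at h1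
  have h2 := congrArg (TensorProduct.AlgebraTensorModule.rid K L L) h1
  rw [TensorProduct.AlgebraTensorModule.rid_tmul, map_zero, Algebra.smul_def, mul_one] at h2
  exact hf ((map_eq_zero_iff _ (algebraMap K L).injective).1 h2)

/-- Descent of algebraicity. -/
lemma desc_alg {j : ℕ} {c : T.W.H Y}
    (h : (E.em c : E.H Y) ∈ Submodule.span ℚ_[E.ℓ] {w : E.H Y | IsAlg j w}) :
    c ∈ Pool.Agent.H281R3.HT.algSpan T.W Y := by
  refine desc (K := T.W.K) (L := ℚ_[E.ℓ]) (B := T.W.H Y)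
    (S := Pool.Agent.H281R3.HT.algSpan T.W Y) ?_
  have h1 : Submodule.span ℚ_[E.ℓ] {w : E.H Y | IsAlg j w} ≤
      (show Submodule ℚ_[E.ℓ] (E.H Y) from
        (Pool.Agent.H281R3.HT.algSpan T.W Y).baseChange ℚ_[E.ℓ]) := by
    rw [Submodule.span_le]
    rintro y ⟨z, hz, rfl⟩
    exact Submodule.tmul_mem_baseChange_of_mem _
      (Submodule.subset_span (Set.mem_iUnion.2 ⟨j, z, hz, rfl⟩))
  exact h1 h

/-- The Tate conjecture implies the Hodge conjecture. -/
lemma hodge_of_tate_one {R : GaloisAction E X Γ} (hD : HodgeIsTate R) {N : ℕ}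
    (hT : ∀ j, TateConjectureIn R N j) : HodgeConjecture T (pw X N) := by
  refine hodgeConjecture_BP.2 (BP.hodgeConjecture_iff.2 fun c hc => ?_)
  refine ClassPred.sp_ind (Q := hodgePred (toH T)) (q := fun c =>
    c ∈ (Pool.Agent.Y133.Half.algSys T.W).C (pw X N)) ?_ ?_ ?_ hc
  · intro j x hx
    exact desc_alg (E := E) (j := j) (hT j _ (hD N j (E.em x) ⟨x, hx, rfl⟩))
  · exact Submodule.zero_mem _
  · intro a b ha hb; exact Submodule.add_mem _ ha hb

/-- **The Hodge conjecture for the powers.** -/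
theorem hodge_of_tate {ψ : RForm T.W X} (hψ : IsPolarisation T X ψ) (hX : OfAbelianType T X)
    {R : GaloisAction E X Γ} (hD : HodgeIsTate R) {N : ℕ}
    (hN : (SelfAdjointCentre T X ψ ∧ N = 2) ∨ N = max 4 (2 * X.dim ^ (2 * X.dim)))
    (hT : ∀ j, TateConjectureIn R (N - 1) j) (n : ℕ) : HodgeConjecture T (pw X n) :=
  hodge_admS hψ hX (hN.imp id Or.inr) (hodge_of_tate_one hD hT) n

/-- **The Hodge conjecture for the powers.** -/
theorem hdg_alg {ψ : RForm T.W X} (hψ : IsPolarisation T X ψ) (hX : OfAbelianType T X)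
    {R : GaloisAction E X Γ} (hD : HodgeIsTate R) {N : ℕ}
    (hN : (SelfAdjointCentre T X ψ ∧ N = 2) ∨ N = max 4 (2 * X.dim ^ (2 * X.dim)))
    (hT : ∀ j, TateConjectureIn R (N - 1) j) (n j : ℕ) (a : E.H (pw X n)) (ha : IsHdg j a) :
    IsAlg j a := by
  obtain ⟨c, hc, rfl⟩ := ha
  obtain ⟨z, hz, h6⟩ := hodge_of_tate hψ hX hD hN hT n j c hc
  exact ⟨z, hz, by rw [h6]⟩

/-- **The Tate conjecture for the powers.** -/
theorem tate_of_tate [IsTopologicalGroup Γ] [CompactSpace Γ] {ψ : RForm T.W X}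
    (hψ : IsPolarisation T X ψ) (hX : OfAbelianType T X) {R : GaloisAction E X Γ}
    (hF : ContRep.Semisimple (R.r 0)) (hD : HodgeIsTate R)
    (hC : SelfAdjointCentre T X ψ ∨ CentreKillsTateClasses R) {N : ℕ}
    (hN : (SelfAdjointCentre T X ψ ∧ N = 2) ∨ N = max 4 (2 * X.dim ^ (2 * X.dim)))
    (hT : ∀ j, TateConjectureIn R (N - 1) j)
    (h2 : N = 2 → TateIsHodgeIn R 3 2) (n j : ℕ) : TateConjectureIn R n j := by
  have hN2 : N = 2 ∨ 4 ≤ N := by
    rcases hN with ⟨-, h⟩ | h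
    · exact Or.inl h
    · rw [h]; exact Or.inr (le_max_left 4 _)
  have h4 : TateIsHodgeIn R 3 2 := by
    rcases hN2 with h | h
    · exact h2 h
    · exact tateIsHodge_small (N := N - 1) (by omega) (tateIsHodge_of_conj (hT 2))
  intro a ha
  have h5 := tateIsHodge hψ hX hF hD hC h4 n j a ha
  refine (Submodule.span_le.2 ?_ : Submodule.span ℚ_[E.ℓ] {w | IsHdg j w} ≤
    Submodule.span ℚ_[E.ℓ] {w : E.H (pw X n) | IsAlg j w}) h5
  exact fun c hc => Submodule.subset_span (hdg_alg hψ hX hD hN hT n j c hc)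

end Run7.h877.SD
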