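import Pool.Agent.Run7.h877.TX.Mon
import Pool.Agent.Run7.h877.MT.Ar

/-!
# Multilinear forms given by classes on the powers, and natural operators
-/

set_option autoImplicit false
set_option linter.unusedSectionVars false

open CategoryTheory AlgebraicGeometry

universe u

namespace Run7.h877.TX

open Module Matrix
open Pool.Agent.H914 hiding ev
open Pool.Agent.H914.VarClass Pool.Agent.H914.VarClass.Obj
  Pool.Agent.H914.WeilCohomology
open Pool.Agent.Y133.Half (pw prj pfst psnd prj_zero prj_last prj_castSucc)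
open Run7.h877.MT

variable {k : Type u} [Field k] {𝒱 : VarClass k} {ops : CycleOps 𝒱}

section

variable {W : WeilCohomology.{u, 0} ops} {X : 𝒱.Obj} {ι : Type} [Fintype ι] [DecidableEq ι]

/-- The combination of the classes `e a`. -/
noncomputable def vec (e : ι → W.H X) (v : ι → W.K) : W.H X := ∑ a, v a • e a

lemma vec_single (e : ι → W.H X) (a : ι) : vec e (Pi.single a 1) = e a := by
  rw [vec, Finset.sum_eq_single a]
  · rw [Pi.single_eq_same, one_smul]
  · intro b _ hb
    rw [Pi.single_eq_of_ne hb, zero_smul]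
  · intro h
    exact absurd (Finset.mem_univ a) h

lemma vec_mem {e : ι → W.H X} {d : ℕ} (he : ∀ a, e a ∈ W.gr X d) (v : ι → W.K) :
    vec e v ∈ W.gr X d := Submodule.sum_mem _ fun a _ => Submodule.smul_mem _ _ (he a)

lemma vec_add (e : ι → W.H X) (v w : ι → W.K) : vec e (v + w) = vec e v + vec e w := by
  rw [vec, vec, vec, ← Finset.sum_add_distrib]
  refine Finset.sum_congr rfl fun a _ => ?_
  rw [Pi.add_apply, add_smul]

lemma vec_smul (e : ι → W.H X) (c : W.K) (v : ι → W.K) : vec e (c • v) = c • vec e v := by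
  rw [vec, vec, Finset.smul_sum]
  refine Finset.sum_congr rfl fun a _ => ?_
  rw [Pi.smul_apply, smul_assoc]

lemma vec_zero (e : ι → W.H X) : vec e (0 : ι → W.K) = 0 := by
  rw [vec]
  exact Finset.sum_eq_zero fun a _ => by rw [Pi.zero_apply, zero_smul]

lemma vec_co {e f : ι → W.H X} (h : ∀ a b, W.tr X (e a * f b) = if a = b then 1 else 0)
    (v : ι → W.K) (b : ι) : W.tr X (vec e v * f b) = v b := by
  rw [vec, Finset.sum_mul, map_sum, Finset.sum_eq_single b]
  · rw [smul_mul_assoc, map_smul, h, if_pos rfl, smul_eq_mul, mul_one]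
  · intro a _ ha
    rw [smul_mul_assoc, map_smul, h, if_neg ha, smul_zero]
  · intro hb
    exact absurd (Finset.mem_univ b) hb

lemma vec_inj {e f : ι → W.H X} (h : ∀ a b, W.tr X (e a * f b) = if a = b then 1 else 0)
    {v w : ι → W.K} (hvw : vec e v = vec e w) : v = w := by
  funext b
  rw [← vec_co h v b, hvw, vec_co h w b]

/-- The form `(v s) ↦ tr (c ∏ pr_(i s)^* (v s))` of the class `c`. -/
noncomputable def frm (e : ι → W.H X) (n : ℕ) {m : ℕ} (i : Fin m → Fin (n + 1))
    (c : W.H (pw X n)) : (Fin m → ι) → W.K :=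
  fun b => W.tr (pw X n) (c * mon W n i fun s => e (b s))

lemma mon_vec (e : ι → W.H X) (n : ℕ) {m : ℕ} (i : Fin m → Fin (n + 1)) (v : Fin m → ι → W.K) :
    mon W n i (fun s => vec e (v s)) =
      ∑ b : Fin m → ι, (∏ s, v s (b s)) • mon W n i fun s => e (b s) := by
  unfold vec
  rw [MultilinearMap.map_sum]
  refine Finset.sum_congr rfl fun b _ => ?_
  exact MultilinearMap.map_smul_univ _ _ _

lemma ev_frm (e : ι → W.H X) (n : ℕ) {m : ℕ} (i : Fin m → Fin (n + 1)) (c : W.H (pw X n))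
    (v : Fin m → ι → W.K) :
    ev (frm e n i c) v = W.tr (pw X n) (c * mon W n i fun s => vec e (v s)) := by
  rw [mon_vec, Finset.mul_sum, map_sum, ev]
  refine Finset.sum_congr rfl fun b _ => ?_
  rw [mul_smul_comm, map_smul, smul_eq_mul, mul_comm]
  rfl

lemma frm_add (e : ι → W.H X) (n : ℕ) {m : ℕ} (i : Fin m → Fin (n + 1)) (c d : W.H (pw X n)) :
    frm e n i (c + d) = frm e n i c + frm e n i d := by
  funext b
  rw [Pi.add_apply, frm, frm, frm, add_mul, map_add]

lemma frm_smul (e : ι → W.H X) (n : ℕ) {m : ℕ} (i : Fin m → Fin (n + 1)) (r : W.K)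
    (c : W.H (pw X n)) : frm e n i (r • c) = r • frm e n i c := by
  funext b
  rw [Pi.smul_apply, frm, frm, smul_mul_assoc, map_smul]

lemma frm_zero (e : ι → W.H X) (n : ℕ) {m : ℕ} (i : Fin m → Fin (n + 1)) :
    frm e n i (0 : W.H (pw X n)) = 0 := by
  funext b
  rw [Pi.zero_apply, frm, zero_mul, map_zero]

/-- The class on `X ^ (n + 1)` with the coefficients `t`. -/
noncomputable def cls (x : ι → W.H X) (n : ℕ) (t : (Fin (n + 1) → ι) → W.K) : W.H (pw X n) :=
  ∑ w, t w • wd W n fun s => x (w s)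

lemma cls_mem {x : ι → W.H X} {d : ℕ} (hx : ∀ a, x a ∈ W.gr X d) (n : ℕ)
    (t : (Fin (n + 1) → ι) → W.K) : cls x n t ∈ W.gr (pw X n) ((n + 1) * d) :=
  Submodule.sum_mem _ fun _ _ => Submodule.smul_mem _ _ (wd_mem W n fun _ => hx _)

lemma cls_smul (x : ι → W.H X) (n : ℕ) (r : W.K) (t : (Fin (n + 1) → ι) → W.K) :
    cls x n (r • t) = r • cls x n t := by
  rw [cls, cls, Finset.smul_sum]
  refine Finset.sum_congr rfl fun w _ => ?_
  rw [Pi.smul_apply, smul_assoc]

/-- The families `x` and `y` are dual to each other. -/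
structure IsDual (W : WeilCohomology.{u, 0} ops) (X : 𝒱.Obj) (x y : ι → W.H X) (o : ℕ) : Prop where
  left : ∀ a, x a ∈ W.gr X 1
  right : ∀ a, y a ∈ W.gr X o
  dual : ∀ a b, W.tr X (x a * y b) = if a = b then 1 else 0

/-- **Forms and classes.** -/
lemma frm_cls {x y : ι → W.H X} {o : ℕ} (h : IsDual W X x y o) (n : ℕ)
    (t : (Fin (n + 1) → ι) → W.K) :
    frm y n (fun s : Fin (n + 1) => s) (cls x n t) = sgn W.K o n • t := by
  funext b
  rw [frm, cls, Finset.sum_mul, map_sum, Pi.smul_apply, smul_eq_mul]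
  have h1 : ∀ w : Fin (n + 1) → ι, W.tr (pw X n) ((t w • wd W n fun s => x (w s)) *
      mon W n (fun s : Fin (n + 1) => s) fun s => y (b s)) =
      if w = b then sgn W.K o n * t b else 0 := by
    intro w
    rw [smul_mul_assoc, map_smul, smul_eq_mul]
    have h2 := tr_wd W o n (x := fun s => x (w s)) (y := fun s => y (b s)) (fun s => h.left _)
      fun s => h.right _
    have h3 : (mon W n (fun s : Fin (n + 1) => s) fun s => y (b s)) = wd W n fun s => y (b s) := rfl
    rw [h3, h2]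
    simp only [h.dual]
    split_ifs with hw
    · subst hw
      simp [mul_comm]
    · obtain ⟨s, hs⟩ : ∃ s, w s ≠ b s := by
        by_contra hcon
        push Not at hcon
        exact hw (funext hcon)
      rw [Finset.prod_eq_zero (Finset.mem_univ s) (if_neg hs), mul_zero, mul_zero]
  rw [Finset.sum_congr rfl fun w _ => h1 w, Finset.sum_ite_eq' Finset.univ b, if_pos (Finset.mem_univ b)]

/-! ### Operators -/

variable (W X) in
/-- A natural operator on the cohomology of `X` and `X ^ (n + 1)` which multiplies the traces by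
powers of `χ`. -/
structure Op (n : ℕ) (χ : W.K) where
  φ0 : W.H X →ₗ[W.K] W.H X
  φ : W.H (pw X n) →ₗ[W.K] W.H (pw X n)
  one : φ 1 = 1
  mul : ∀ a b, φ (a * b) = φ a * φ b
  comp : ∀ i a, φ (W.map (prj X n i) a) = W.map (prj X n i) (φ0 a)
  tr : ∀ c, W.tr (pw X n) (φ c) = χ ^ (pw X n).dim * W.tr (pw X n) c

variable {n : ℕ} {χ : W.K} (F : Op W X n χ)

lemma Op.mon_eq {m : ℕ} (i : Fin m → Fin (n + 1)) (v : Fin m → W.H X) :
    F.φ (mon W n i v) = mon W n i fun s => F.φ0 (v s) := by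
  rw [mon_apply, mon_apply]
  induction m with
  | zero => rw [List.ofFn_zero, List.ofFn_zero, List.prod_nil, F.one]
  | succ m ih =>
    rw [List.ofFn_succ, List.ofFn_succ, List.prod_cons, List.prod_cons, F.mul, F.comp,
      ih (fun s => i s.succ) fun s => v s.succ]

/-- **The form of the transformed class.** -/
lemma Op.ev_eq {e : ι → W.H X} {g : Matrix ι ι W.K} {r : W.K}
    (he : ∀ v, F.φ0 (vec e v) = r • vec e (g *ᵥ v)) {m : ℕ} (i : Fin m → Fin (n + 1))
    (c : W.H (pw X n)) (v : Fin m → ι → W.K) :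
    r ^ m * ev (frm e n i (F.φ c)) (fun s => g *ᵥ v s) =
      χ ^ (pw X n).dim * ev (frm e n i c) v := by
  rw [ev_frm, ev_frm, ← F.tr, F.mul, F.mon_eq]
  simp only [he]
  rw [MultilinearMap.map_smul_univ, Finset.prod_const, Finset.card_univ, Fintype.card_fin,
    mul_smul_comm, map_smul, smul_eq_mul]

/-- The transformed class. -/
lemma Op.cls_eq {x : ι → W.H X} {p : Matrix ι ι W.K}
    (hx : ∀ v, F.φ0 (vec x v) = vec x (p *ᵥ v)) (t : (Fin (n + 1) → ι) → W.K) :
    ∃ s, F.φ (cls x n t) = cls x n s := by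
  refine ⟨fun w' => ∑ w, t w * ∏ s, p (w' s) (w s), ?_⟩
  rw [cls, map_sum, cls]
  have h1 : ∀ w : Fin (n + 1) → ι, F.φ (t w • wd W n fun s => x (w s)) =
      ∑ w' : Fin (n + 1) → ι, (t w * ∏ s, p (w' s) (w s)) • wd W n fun s => x (w' s) := by
    intro w
    rw [map_smul, wd, F.mon_eq]
    have h2 : ∀ s, F.φ0 (x (w s)) = vec x (fun a => p a (w s)) := by
      intro s
      rw [← vec_single x (w s), hx]
      congr 1
      funext a
      rw [Matrix.mulVec_single_one]
      rfl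
    simp only [h2]
    rw [mon_vec, Finset.smul_sum]
    refine Finset.sum_congr rfl fun w' _ => ?_
    rw [smul_smul]
    rfl
  rw [Finset.sum_congr rfl fun w _ => h1 w, Finset.sum_comm]
  refine Finset.sum_congr rfl fun w' _ => ?_
  rw [Finset.sum_smul]

/-- **Eigenforms give eigenclasses.** -/
lemma Op.cls_eigen {x y : ι → W.H X} {o : ℕ} (h : IsDual W X x y o) {g g' p : Matrix ι ι W.K}
    (hgg : g * g' = 1) {r : W.K} (hy : ∀ v, F.φ0 (vec y v) = r • vec y (g *ᵥ v))
    (hx : ∀ v, F.φ0 (vec x v) = vec x (p *ᵥ v)) (hχ : χ ≠ 0)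
    (hr : r ^ (n + 1) * χ ^ (n + 1) = χ ^ (pw X n).dim) {m : ℕ} (hm : n + 1 = 2 * m)
    {t : (Fin (n + 1) → ι) → W.K}
    (ht : ∀ v : Fin (n + 1) → ι → W.K, ev t (fun s => g *ᵥ v s) = χ ^ m * ev t v) :
    F.φ (cls x n t) = χ ^ m • cls x n t := by
  obtain ⟨s, hs⟩ := F.cls_eq hx t
  have hr0 : r ^ (n + 1) ≠ 0 := by
    intro h0
    rw [h0, zero_mul] at hr
    exact pow_ne_zero _ hχ hr.symm
  have h1 : ∀ v : Fin (n + 1) → ι → W.K, ev s (fun s => g *ᵥ v s) =
      ev (χ ^ m • t) (fun s => g *ᵥ v s) := by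
    intro v
    have h2 := F.ev_eq hy (fun s : Fin (n + 1) => s) (cls x n t) v
    rw [hs, frm_cls h, frm_cls h, ev_smul_left, ev_smul_left, ← hr] at h2
    have h3 : r ^ (n + 1) * sgn W.K o n * ev s (fun s => g *ᵥ v s) =
        r ^ (n + 1) * sgn W.K o n * (χ ^ m * (χ ^ m * ev t v)) := by
      have h4 : χ ^ (n + 1) = χ ^ m * χ ^ m := by rw [hm, two_mul, pow_add]
      rw [h4] at h2
      linear_combination h2
    have h5 := mul_left_cancel₀ (mul_ne_zero hr0 (sgn_ne W.K o n)) h3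
    rw [ev_smul_left, h5, ht]
  have h6 : s = χ ^ m • t := by
    refine ev_inj fun v => ?_
    have h7 := h1 fun s => g' *ᵥ v s
    simpa only [Matrix.mulVec_mulVec, hgg, Matrix.one_mulVec] using h7
  rw [hs, h6, cls_smul]

/-- **Eigenclasses give eigenforms.** -/
lemma Op.frm_eigen {e : ι → W.H X} {g : Matrix ι ι W.K} {r : W.K}
    (he : ∀ v, F.φ0 (vec e v) = r • vec e (g *ᵥ v)) (hχ : χ ≠ 0) {m j l : ℕ}
    (i : Fin m → Fin (n + 1)) {c : W.H (pw X n)} (hc : F.φ c = χ ^ j • c)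
    (hr : r ^ m * (χ ^ j * χ ^ l) = χ ^ (pw X n).dim) (v : Fin m → ι → W.K) :
    ev (frm e n i c) (fun s => g *ᵥ v s) = χ ^ l * ev (frm e n i c) v := by
  have h1 := F.ev_eq he i c v
  rw [hc, frm_smul, ev_smul_left, ← hr] at h1
  have h2 : r ^ m * χ ^ j ≠ 0 := by
    intro h0
    rw [← mul_assoc, h0, zero_mul] at hr
    exact pow_ne_zero _ hχ hr.symm
  refine mul_left_cancel₀ h2 ?_
  linear_combination h1

/-- **The forms of a class decide whether it is an eigenclass.** -/
lemma Op.eigen_of_frm {e : ι → W.H X} {g g' : Matrix ι ι W.K} (hgg : g * g' = 1)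
    (he : ∀ v, F.φ0 (vec e v) = vec e (g *ᵥ v)) (he1 : ∀ a, e a ∈ W.gr X 1)
    (hspan : ∀ x ∈ W.gr X 1, ∃ v, vec e v = x)
    (hgen : Algebra.adjoin W.K (W.gr X 1 : Set (W.H X)) = ⊤) {j : ℕ} {c : W.H (pw X n)}
    (hc : c ∈ W.gr (pw X n) (2 * j))
    (hf : ∀ (m : ℕ), 2 * j + m = 2 * (pw X n).dim → ∀ (i : Fin m → Fin (n + 1))
      (v : Fin m → ι → W.K), χ ^ j * ev (frm e n i c) (fun s => g *ᵥ v s) =
        χ ^ (pw X n).dim * ev (frm e n i c) v) : F.φ c = χ ^ j • c := by
  rw [← sub_eq_zero]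
  refine W.nondeg _ fun z => ?_
  refine mon_induction W hgen n (P := fun z => W.tr (pw X n) ((F.φ c - χ ^ j • c) * z) = 0)
    ?_ ?_ ?_ ?_ z
  · rw [mul_zero, map_zero]
  · intro a b ha hb; rw [mul_add, map_add, ha, hb, add_zero]
  · intro r a ha; rw [mul_smul_comm, map_smul, ha, smul_zero]
  · intro m i v hv
    choose u hu using fun s => hspan (v s) (hv s)
    have h1 : v = fun s => vec e (g *ᵥ (g' *ᵥ u s)) := by
      funext s
      rw [Matrix.mulVec_mulVec, hgg, Matrix.one_mulVec, hu]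
    have h2 : W.tr (pw X n) (F.φ c * mon W n i v) =
        χ ^ (pw X n).dim * W.tr (pw X n) (c * mon W n i fun s => vec e (g' *ᵥ u s)) := by
      rw [← F.tr, F.mul, F.mon_eq, h1]
      simp only [he]
    rw [sub_mul, map_sub, h2, smul_mul_assoc, map_smul, smul_eq_mul, sub_eq_zero]
    by_cases hm : 2 * j + m = 2 * (pw X n).dim
    · have h3 := hf m hm i fun s => g' *ᵥ u s
      rw [ev_frm, ev_frm, ← h1] at h3
      exact h3.symm
    · have h4 : ∀ w : Fin m → W.H X, (∀ s, w s ∈ W.gr X 1) →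
          W.tr (pw X n) (c * mon W n i w) = 0 := by
        intro w hw
        have h5 := W.mul_mem hc (mon_mem W n i hw)
        rw [mul_one] at h5
        exact W.tr_eq_zero h5 hm
      rw [h4 _ hv, h4 _ fun s => vec_mem he1 _, mul_zero, mul_zero]

end

end Run7.h877.TX
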