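import Pool.Agent.Run7.h877.TX.HForm
import Pool.Agent.N996.FP.Geo2

/-!
# Endomorphisms of the Hodge structure and Hodge forms in two variables
-/

set_option autoImplicit false
set_option linter.unusedSectionVars false

open CategoryTheory AlgebraicGeometry TensorProduct

universe u

namespace Run7.h877.TX

open Module Matrix
open Pool.Agent.H914 hiding ev
open Pool.Agent.H914.VarClass Pool.Agent.H914.VarClass.Obj
  Pool.Agent.H914.WeilCohomology
open Pool.Agent.Y133.Half (pw)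
open Pool.Agent.Y121.AH hiding IsHodge
open Pool.Agent.N996.BP (IsPHS)
open Pool.Agent.N996.BP.Geo (tauT Fx lop cc)
open Pool.Agent.N996.FP.Geo (End1 Cen1)
open Run7.h877.MT

section PHS

variable {ι : Type} [Fintype ι] [DecidableEq ι]

/-- Hodge forms in two variables give endomorphisms. -/
lemma stab_of_hodge (H : PolHS ι) {z : Matrix ι ι ℚ} (hz : IsHodge H H.w (bil H.β z)) {q : ℤ}
    {x : ι → ℂ} (hx : x ∈ H.V q) : cM ℂ z *ᵥ x ∈ H.V q := by
  classical
  obtain ⟨S, g, hg, hsum⟩ := exists_parts (H := H) (cM ℂ z *ᵥ x)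
  have h0 : ∀ s ∈ S, s ≠ q → g s = 0 := by
    intro s hs hsq
    by_contra hne
    obtain ⟨t, ht, h1⟩ := H.pos s _ (hg s) hne
    have h2 : (cM ℂ z *ᵥ x) ⬝ᵥ (cM ℂ H.β *ᵥ star (g s)) =
        g s ⬝ᵥ (cM ℂ H.β *ᵥ star (g s)) := by
      rw [hsum, sum_dotProduct, Finset.sum_eq_single s]
      · intro r _ hr
        refine H.orth r (H.w - s) (fun h => hr (by omega)) _ (hg r) _ (H.conj s _ (hg s))
      · intro h
        exact absurd hs h
    have h3 := hz (fun j : Fin 2 => if j = 0 then q else H.w - s)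
      (fun j : Fin 2 => if j = 0 then x else star (g s)) (by
        intro j
        fin_cases j
        · exact hx
        · exact H.conj s _ (hg s)) (by
        rw [Fin.sum_univ_two]
        change q + (H.w - s) ≠ H.w
        omega)
    rw [cst_bil, ev_bil] at h3
    have h4 : (cM ℂ z *ᵥ x) ⬝ᵥ (cM ℂ H.β *ᵥ star (g s)) = 0 := h3
    rw [← h2, h4, mul_zero] at h1
    exact ht.ne' (by exact_mod_cast h1.symm)
  rw [hsum]
  refine Submodule.sum_mem _ fun s hs => ?_
  by_cases hsq : s = q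
  · rw [← hsq]; exact hg s
  · rw [h0 s hs hsq]; exact Submodule.zero_mem _

/-- Endomorphisms give Hodge forms in two variables. -/
lemma hodge_of_stab (H : PolHS ι) {z : Matrix ι ι ℚ}
    (hz : ∀ q, ∀ x ∈ H.V q, cM ℂ z *ᵥ x ∈ H.V q) : IsHodge H H.w (bil H.β z) := by
  intro q v hv hq
  rw [cst_bil, ev_bil]
  refine H.orth (q 0) (q 1) ?_ _ (hz _ _ (hv _)) _ (hv _)
  rw [Fin.sum_univ_two] at hq
  exact hq

end PHS

variable {k : Type u} [Field k] {𝒱 : VarClass k} {ops : CycleOps 𝒱}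

variable {T : Pool.Agent.Y121.AH.HodgeTheory ops} {X : 𝒱.Obj} {ι : Type} [Fintype ι]
  [DecidableEq ι] {e f : ι → T.W.H X} {ψ : LinearMap.BilinForm T.W.K (T.W.H X)} {d : ℕ}
  (hP : IsPHS (tauT T) (Fx T X) ψ d)
  (hf : ∀ a b, T.W.tr X (e a * f b) = if a = b then 1 else 0)
  (he1 : ∀ a, e a ∈ T.W.gr X 1) (hspan : ∀ z ∈ T.W.gr X 1, ∃ v, vec e v = z)

/-- the rational matrix with coefficients in the field -/
noncomputable def mK (T : Pool.Agent.Y121.AH.HodgeTheory ops) (z : Matrix ι ι ℚ) :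
    Matrix ι ι T.W.K := z.map fun q : ℚ => (q : T.W.K)

/-- The operator on `H(X)` given by a matrix. -/
noncomputable def Fz (T : Pool.Agent.Y121.AH.HodgeTheory ops) {X : 𝒱.Obj} (e f : ι → T.W.H X)
    (z : Matrix ι ι ℚ) : T.W.H X →ₗ[T.W.K] T.W.H X where
  toFun h := vec e (mK T z *ᵥ fun a => T.W.tr X (h * f a))
  map_add' h h' := by
    rw [← vec_add, ← Matrix.mulVec_add]
    congr 2
    funext a
    rw [Pi.add_apply, add_mul, map_add]
  map_smul' r h := by
    rw [RingHom.id_apply, ← vec_smul, ← Matrix.mulVec_smul]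
    congr 2
    funext a
    rw [Pi.smul_apply, smul_mul_assoc, map_smul]

include hf in
lemma Fz_vec (z : Matrix ι ι ℚ) (v : ι → T.W.K) :
    Fz T e f z (vec e v) = vec e (mK T z *ᵥ v) := by
  change vec e (mK T z *ᵥ fun a => T.W.tr X (vec e v * f a)) = _
  congr 2
  funext a
  exact vec_co hf v a

/-- the extension of an operator to complex coefficients in coordinates -/
lemma baseChange_vecC {φ : T.W.H X →ₗ[T.W.K] T.W.H X} {z : Matrix ι ι ℚ}
    (hφ : ∀ v, φ (vec e v) = vec e (mK T z *ᵥ v)) (v : ι → ℂ) :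
    φ.baseChange ℂ (vecC e v) = vecC e (cM ℂ z *ᵥ v) := by
  have h0 : ∀ u : ι → ℂ, vecC e u = ∑ a, ((u a) ⊗ₜ[T.W.K] (e a) : ℂ ⊗[T.W.K] T.W.H X) := by
    intro u
    rw [vecC, vec]
    have h : ∀ s : Finset ι, (∑ a ∈ s, (show (CW T).K from u a) • em T.W ℂ (e a) : (CW T).H X) =
        ∑ a ∈ s, ((u a) ⊗ₜ[T.W.K] (e a) : ℂ ⊗[T.W.K] T.W.H X) := by
      intro s
      induction s using Finset.induction_on with
      | empty => rw [Finset.sum_empty, Finset.sum_empty]; rfl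
      | insert i s hi ih =>
        rw [Finset.sum_insert hi, Finset.sum_insert hi, ih, ← tmul_eq]
        rfl
    exact h _
  rw [h0, h0, map_sum]
  have h1 : ∀ a, φ (e a) = ∑ b, ((z b a : ℚ) : T.W.K) • e b := by
    intro a
    have h2 := hφ (Pi.single a 1)
    rw [vec_single] at h2
    rw [h2, vec]
    refine Finset.sum_congr rfl fun b _ => ?_
    rw [Matrix.mulVec_single_one]
    rfl
  have h3 : ∀ a, φ.baseChange ℂ ((v a) ⊗ₜ[T.W.K] (e a)) =
      ∑ b, ((((z b a : ℚ) : ℂ) * v a) ⊗ₜ[T.W.K] (e b) : ℂ ⊗[T.W.K] T.W.H X) := by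
    intro a
    rw [LinearMap.baseChange_tmul, h1, TensorProduct.tmul_sum]
    refine Finset.sum_congr rfl fun b _ => ?_
    rw [TensorProduct.tmul_smul, TensorProduct.smul_tmul', Algebra.smul_def, map_ratCast]
  rw [Finset.sum_congr rfl fun a _ => h3 a, Finset.sum_comm]
  refine Finset.sum_congr rfl fun b _ => ?_
  rw [← TensorProduct.sum_tmul]
  rfl

include hspan in
lemma exists_vecC {p q : ℤ} (hpq : p + q = 1) {x : (CW T).H X} (hx : x ∈ T.pq X p q) :
    ∃ u : ι → ℂ, vecC e u = x :=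
  span_base (L := ℂ) hspan x (T.dec.le X (i := 1) hpq hx)

include hf hspan in
/-- operators which preserve the spaces in coordinates are endomorphisms -/
lemma end1_of_stab {φ : T.W.H X →ₗ[T.W.K] T.W.H X} {z : Matrix ι ι ℚ}
    (he1 : ∀ a, e a ∈ T.W.gr X 1)
    (hφ : ∀ v, φ (vec e v) = vec e (mK T z *ᵥ v))
    (hz : ∀ q, ∀ x ∈ VH T e q, cM ℂ z *ᵥ x ∈ VH T e q) : End1 T X φ := by
  refine ⟨fun c hc => ?_, fun p q hpq x hx => ?_⟩
  · obtain ⟨v, rfl⟩ := hspan c hc
    rw [hφ]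
    exact vec_mem he1 _
  · obtain ⟨u, hu'⟩ := exists_vecC hspan hpq hx
    have hq : q = 1 - p := by omega
    subst hq
    have h1 : u ∈ VH T e p := by rw [mem_VH, hu']; exact hx
    have h2 := hz p u h1
    rw [mem_VH, ← baseChange_vecC hφ, hu'] at h2
    exact h2

include hf hspan in
/-- endomorphisms preserve the spaces in coordinates -/
lemma stab_of_end1 {φ : T.W.H X →ₗ[T.W.K] T.W.H X} {z : Matrix ι ι ℚ}
    (hφ : ∀ v, φ (vec e v) = vec e (mK T z *ᵥ v)) (h : End1 T X φ) :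
    ∀ q, ∀ x ∈ VH T e q, cM ℂ z *ᵥ x ∈ VH T e q := by
  intro q x hx
  rw [mem_VH] at hx ⊢
  rw [← baseChange_vecC hφ]
  exact h.2 q (1 - q) (by ring) _ hx

include hspan in
/-- the matrix of an endomorphism -/
lemma exists_mat_end {φ : T.W.H X →ₗ[T.W.K] T.W.H X} (he1 : ∀ a, e a ∈ T.W.gr X 1)
    (h : End1 T X φ) : ∃ z : Matrix ι ι ℚ, ∀ v, φ (vec e v) = vec e (mK T z *ᵥ v) := by
  obtain ⟨p, hp⟩ := exists_mat (W := T.W) hspan he1 (φ := φ) fun z hz => h.1 z hz
  refine ⟨p.map (toQ T.rat), fun v => ?_⟩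
  rw [hp]
  congr 2
  ext i j
  rw [mK, Matrix.map_apply, Matrix.map_apply, toQ_spec]

/-- **Centre.** -/
lemma selfAdjoint_of (hself : ∀ φ : T.W.H X →ₗ[T.W.K] T.W.H X, Cen1 T X φ →
      ∀ c ∈ T.W.gr X 1, ∀ d ∈ T.W.gr X 1, ψ (φ c) d = ψ c (φ d))
    {z : Matrix ι ι ℚ} (hz : IsHodge (HS hP hf he1 hspan) 1 (bil (psiM T ψ e) z))
    (hc : ∀ ε : Matrix ι ι ℚ, IsHodge (HS hP hf he1 hspan) 1 (bil (psiM T ψ e) ε) →
      z * ε = ε * z) : zᵀ * psiM T ψ e = psiM T ψ e * z := by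
  have h1 : End1 T X (Fz T e f z) := end1_of_stab hf hspan he1 (Fz_vec hf z) fun q x hx =>
    stab_of_hodge (HS hP hf he1 hspan) hz hx
  have h2 : Cen1 T X (Fz T e f z) := by
    refine ⟨h1, fun g hg c hc' => ?_⟩
    obtain ⟨ε, hε⟩ := exists_mat_end hspan he1 hg
    obtain ⟨v, rfl⟩ := hspan c hc'
    have h3 := hc ε (hodge_of_stab (HS hP hf he1 hspan) (stab_of_end1 hf hspan hε hg))
    rw [hε, Fz_vec hf, Fz_vec hf, hε, Matrix.mulVec_mulVec, Matrix.mulVec_mulVec]
    congr 2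
    have h4 : ∀ a b : Matrix ι ι ℚ, mK T a * mK T b = mK T (a * b) := by
      intro a b
      ext i j
      rw [mK, mK, mK, Matrix.mul_apply, Matrix.map_apply, Matrix.mul_apply, Rat.cast_sum]
      refine Finset.sum_congr rfl fun l _ => ?_
      rw [Matrix.map_apply, Matrix.map_apply, Rat.cast_mul]
    rw [h4, h4, h3]
  have h5 : ∀ v w, ψ (vec e v) (vec e w) = v ⬝ᵥ (mK T (psiM T ψ e) *ᵥ w) := by
    intro v w
    rw [vec, vec, map_sum]
    simp only [map_sum, LinearMap.sum_apply]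
    rw [Finset.sum_comm, dotProduct]
    refine Finset.sum_congr rfl fun a _ => ?_
    rw [Matrix.mulVec, dotProduct, Finset.mul_sum]
    refine Finset.sum_congr rfl fun b _ => ?_
    rw [map_smul, map_smul, LinearMap.smul_apply, smul_eq_mul, smul_eq_mul, mK, Matrix.map_apply,
      psiM, Matrix.of_apply, toQ_spec]
    ring
  have h6 : ∀ v w : ι → T.W.K, v ⬝ᵥ (((mK T z)ᵀ * mK T (psiM T ψ e) -
      mK T (psiM T ψ e) * mK T z) *ᵥ w) = 0 := by
    intro v w
    have h7 := hself _ h2 (vec e v) (vec_mem he1 v) (vec e w) (vec_mem he1 w)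
    rw [Fz_vec hf, Fz_vec hf, h5, h5, dot_left] at h7
    rw [Matrix.sub_mulVec, dotProduct_sub, sub_eq_zero, ← Matrix.mulVec_mulVec,
      ← Matrix.mulVec_mulVec]
    exact h7
  have h7 := dot_mulVec_eq_zero h6
  ext i j
  have h8 := congrFun (congrFun (sub_eq_zero.1 h7) i) j
  rw [Matrix.mul_apply, Matrix.mul_apply] at h8 ⊢
  simp only [mK, Matrix.map_apply, Matrix.transpose_apply] at h8 ⊢
  exact_mod_cast h8

end Run7.h877.TX
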