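import Pool.Agent.Run7.h877.TX.Desc
import Pool.Agent.Run7.h877.TX.Cen
import Pool.Agent.Results.MP_b8862a_ag.TwoQuarticClasses
import Pool.Agent.Y129.Idx

/-!
# Tate classes of codimension two on the fourth power decide the Mumford-Tate conjecture
-/

set_option autoImplicit false
set_option linter.unusedSectionVars false

open CategoryTheory AlgebraicGeometry TensorProduct

universe u

namespace Run7.h877.TX

open Module Matrix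
open Pool.Agent.H914 hiding ev
open Pool.Agent.H914.VarClass Pool.Agent.H914.VarClass.Obj
  Pool.Agent.H914.WeilCohomology
open Pool.Agent.Y133.Half (pw prj)
open Pool.Agent.Y121.AH hiding IsHodge
open Pool.Agent.N996.BP (IsPHS)
open Pool.Agent.N996.BP.Geo (tauT Fx lop cc)
open Pool.Agent.N996.FP.Geo (End1 Cen1)
open Run7.h877.MT
open Pool.Agent.Results.MP_b8862a_ag.TwoQuarticClasses (Realizations Forms IsMotivatedSystem
  Motivated MotivatedL DegreeTwo)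

variable {k : Type u} [Field k] {𝒱 : VarClass k} {ops : CycleOps 𝒱}

variable {T : Pool.Agent.Y121.AH.HodgeTheory ops} {X : 𝒱.Obj} {ℓ : ℕ} [Fact ℓ.Prime]
  [Algebra T.W.K ℚ_[ℓ]] {Γ : Type} [Group Γ] [TopologicalSpace Γ] [IsTopologicalGroup Γ]
  [CompactSpace Γ] (G : GAct T X ℓ Γ) {ι : Type} [Fintype ι] [DecidableEq ι]

/-- The representation on `H^1(X, ℚ_ℓ)` is semisimple, for all open subgroups. -/
def GAct.Semi (G : GAct T X ℓ Γ) : Prop :=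
  ∀ U : Subgroup Γ, IsOpen (U : Set Γ) →
    ∀ V : Submodule (baseW T.W ℚ_[ℓ]).K ((baseW T.W ℚ_[ℓ]).H X),
      V ≤ (baseW T.W ℚ_[ℓ]).gr X 1 → (∀ g ∈ U, ∀ v ∈ V, G.ρ0 g v ∈ V) →
      ∃ V' : Submodule (baseW T.W ℚ_[ℓ]).K ((baseW T.W ℚ_[ℓ]).H X),
        V' ≤ (baseW T.W ℚ_[ℓ]).gr X 1 ∧ V ⊓ V' = ⊥ ∧ (baseW T.W ℚ_[ℓ]).gr X 1 ≤ V ⊔ V' ∧
          ∀ g ∈ U, ∀ v ∈ V', G.ρ0 g v ∈ V'

/-- Tate classes are combinations of Hodge classes. -/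
def GAct.TH (G : GAct T X ℓ Γ) (n j : ℕ) : Prop := ∀ c, G.IsT n j c → c ∈ HSp T ℚ_[ℓ] (pw X n) j

section Main

variable {e f x : ι → T.W.H X} {D : X.Cycles} {ψ : LinearMap.BilinForm T.W.K (T.W.H X)} {d : ℕ}
  (hP : IsPHS (tauT T) (Fx T X) ψ d)
  (hf : ∀ a b, T.W.tr X (e a * f b) = if a = b then 1 else 0)
  (he1 : ∀ a, e a ∈ T.W.gr X 1) (hspan : ∀ z ∈ T.W.gr X 1, ∃ v, vec e v = z)
  (hG : G.HT) (hnt : ∀ n, Nontrivial (T.W.H (pw X n)))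
  (h0 : 0 < X.dim) (hD : X.IsCyc 1 D)
  (hd : IsDual T.W X x (fun a => lam T.W X D (e a)) (2 * (X.dim - 1) + 1))
  (hxs : ∀ z ∈ T.W.gr X 1, ∃ v, vec x v = z)

include hd in
lemma frmL_clsL (n : ℕ) (t : (Fin (n + 1) → ι) → ℚ_[ℓ]) :
    frmL ℓ (fun a => lam T.W X D (e a)) n (fun s : Fin (n + 1) => s) (clsL ℓ x n t) =
      sgn ℚ_[ℓ] (2 * (X.dim - 1) + 1) n • t :=
  frm_cls (W := baseW T.W ℚ_[ℓ]) (dual_base hd) n t

lemma frmL_em (y : ι → T.W.H X) {n m : ℕ} (i : Fin m → Fin (n + 1)) (c : T.W.H (pw X n)) :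
    frmL ℓ y n i (em T.W ℚ_[ℓ] c) = cst ℚ_[ℓ] (frmQ T y n i c) := (cst_frmQ y i c).symm

lemma frmL_add (y : ι → T.W.H X) {n m : ℕ} (i : Fin m → Fin (n + 1))
    (c d : (baseW T.W ℚ_[ℓ]).H (pw X n)) :
    frmL ℓ y n i (c + d) = frmL ℓ y n i c + frmL ℓ y n i d :=
  frm_add (W := baseW T.W ℚ_[ℓ]) _ n i c d

lemma frmL_smul (y : ι → T.W.H X) {n m : ℕ} (i : Fin m → Fin (n + 1))
    (r : (baseW T.W ℚ_[ℓ]).K) (c : (baseW T.W ℚ_[ℓ]).H (pw X n)) :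
    frmL ℓ y n i (r • c) = (show ℚ_[ℓ] from r) • frmL ℓ y n i c :=
  frm_smul (W := baseW T.W ℚ_[ℓ]) _ n i r c

lemma frmL_zero (y : ι → T.W.H X) {n m : ℕ} (i : Fin m → Fin (n + 1)) :
    frmL ℓ y n i (0 : (baseW T.W ℚ_[ℓ]).H (pw X n)) = 0 :=
  frm_zero (W := baseW T.W ℚ_[ℓ]) _ n i

/-- The form is multiplied by the power of the character on an open subgroup. -/
def GAct.Opn (G : GAct T X ℓ Γ) (e f : ι → T.W.H X) (m : ℕ) {n : ℕ}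
    (t : (Fin n → ι) → ℚ_[ℓ]) : Prop :=
  ∃ U : Subgroup Γ, IsOpen (U : Set Γ) ∧ ∀ g ∈ U, ∀ v : Fin n → ι → ℚ_[ℓ],
    ev t (fun s => G.mat e f g *ᵥ v s) = G.χ g ^ m * ev t v

lemma GAct.Opn.smul {G : GAct T X ℓ Γ} {e f : ι → T.W.H X} {m n : ℕ}
    {t : (Fin n → ι) → ℚ_[ℓ]} (h : G.Opn e f m t) (c : ℚ_[ℓ]) : G.Opn e f m (c • t) := by
  obtain ⟨U, hU, h⟩ := h
  refine ⟨U, hU, fun g hg v => ?_⟩
  rw [ev_smul_left, ev_smul_left, h g hg]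
  ring

include hP hf he1 hspan hG hnt h0 hD hd hxs

/-- Hodge forms are Tate forms on an open subgroup. -/
lemma hodge_opn {n m : ℕ} (hm : n + 1 = 2 * m) {a : (Fin (n + 1) → ι) → ℚ}
    (ha : IsHodge (HS hP hf he1 hspan) m a) : G.Opn e f m (cst ℚ_[ℓ] a) := by
  have h1 := isHodge_clsQ hP hf he1 hspan hD hd hxs hm ha
  have h2 : G.Opn e f m (frmL ℓ (fun a => lam T.W X D (e a)) n (fun s : Fin (n + 1) => s)
      (em T.W ℚ_[ℓ] (clsQ T x n a))) :=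
    G.frm_lam_tate hf he1 hspan hG (hnt n) h0 hD hm (hG n m _ h1)
  rw [frmL_em, frmQ_clsQ hd] at h2
  have h3 := h2.smul (((sgn ℚ (2 * (X.dim - 1) + 1) n : ℚ) : ℚ_[ℓ])⁻¹)
  have h4 : (((sgn ℚ (2 * (X.dim - 1) + 1) n : ℚ) : ℚ_[ℓ])⁻¹) •
      cst ℚ_[ℓ] (sgn ℚ (2 * (X.dim - 1) + 1) n • a) = cst ℚ_[ℓ] a := by
    funext i
    rw [Pi.smul_apply, cst, cst, Pi.smul_apply, smul_eq_mul, smul_eq_mul, Rat.cast_mul,
      ← mul_assoc, inv_mul_cancel₀, one_mul]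
    exact_mod_cast sgn_ne ℚ _ n
  rwa [h4] at h3

/-- The forms of Hodge classes. -/
lemma frmQ_opn {n m : ℕ} (hm : n + 1 = 2 * m) {c : T.W.H (pw X n)}
    (hc : Pool.Agent.Y121.AH.IsHodge T (pw X n) m c) :
    IsHodge (HS hP hf he1 hspan) m
      (frmQ T (fun a => lam T.W X D (e a)) n (fun s : Fin (n + 1) => s) c) ∧
    G.Opn e f m (cst ℚ_[ℓ]
      (frmQ T (fun a => lam T.W X D (e a)) n (fun s : Fin (n + 1) => s) c)) := by
  refine ⟨isHodge_frmQ_lam hP hf he1 hspan hD (fun s : Fin (n + 1) => s) (by omega) hc, ?_⟩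
  rw [← frmL_em]
  exact G.frm_lam_tate hf he1 hspan hG (hnt n) h0 hD hm (hG n m _ hc)

/-- **Tate forms in two and four variables are combinations of Hodge forms.** -/
lemma form_span {n m : ℕ} (hm : n + 1 = 2 * m) (hT : G.TH n m) {t : (Fin (n + 1) → ι) → ℚ_[ℓ]}
    {Δ : Subgroup Γ} (hΔ : Δ.FiniteIndex)
    (ht : ∀ g ∈ Δ, ∀ v : Fin (n + 1) → ι → ℚ_[ℓ],
      ev t (fun s => G.mat e f g *ᵥ v s) = G.χ g ^ m * ev t v) :
    t ∈ Submodule.span ℚ_[ℓ] (cst ℚ_[ℓ] '' {a : (Fin (n + 1) → ι) → ℚ |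
      IsHodge (HS hP hf he1 hspan) m a ∧ G.Opn e f m (cst ℚ_[ℓ] a)}) := by
  have h1 := hT _ (G.cls_tate hf he1 hspan hG (hnt n) h0 hD hd hxs hm hΔ ht)
  have h2 : ∀ c ∈ HSp T ℚ_[ℓ] (pw X n) m,
      frmL ℓ (fun a => lam T.W X D (e a)) n (fun s : Fin (n + 1) => s) c ∈
      Submodule.span ℚ_[ℓ] (cst ℚ_[ℓ] '' {a : (Fin (n + 1) → ι) → ℚ |
        IsHodge (HS hP hf he1 hspan) m a ∧ G.Opn e f m (cst ℚ_[ℓ] a)}) := by
    intro c hc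
    rw [HSp] at hc
    induction hc using Submodule.span_induction with
    | mem w hw =>
      obtain ⟨c, hc, rfl⟩ := hw
      rw [frmL_em]
      exact Submodule.subset_span ⟨_, frmQ_opn G hP hf he1 hspan hG hnt h0 hD hd hxs hm hc, rfl⟩
    | zero => rw [frmL_zero]; exact Submodule.zero_mem _
    | add x y _ _ hx hy => rw [frmL_add]; exact Submodule.add_mem _ hx hy
    | smul r x _ hx => rw [frmL_smul]; exact Submodule.smul_mem _ _ hx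
  have h3 := h2 _ h1
  rw [frmL_clsL hd] at h3
  have h4 := Submodule.smul_mem _ ((sgn ℚ_[ℓ] (2 * (X.dim - 1) + 1) n)⁻¹) h3
  rwa [smul_smul, inv_mul_cancel₀ (sgn_ne _ _ _), one_smul] at h4

end Main

end Run7.h877.TX
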