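import Pool.Agent.Run7.h877.TX.DOp
import Pool.Agent.Run7.h877.TX.Fin

/-!
# The centre
-/

set_option autoImplicit false
set_option linter.unusedSectionVars false

open CategoryTheory AlgebraicGeometry TensorProduct

universe u

namespace Run7.h877.TX

open Module Matrix
open Pool.Agent.H914 hiding ev
open Pool.Agent.H914.VarClass Pool.Agent.H914.VarClass.Obj
  Pool.Agent.H914.WeilCohomology
open Pool.Agent.Y133.Half (pw prj pfst psnd prj_zero prj_last prj_castSucc)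
open Pool.Agent.Y121.AH hiding IsHodge
open Pool.Agent.N996.BP (IsPHS)
open Pool.Agent.N996.BP.Geo (tauT Fx lop cc)
open Pool.Agent.N996.FP.Geo (End1 Cen1)
open Run7.h877.MT

variable {k : Type u} [Field k] {𝒱 : VarClass k} {ops : CycleOps 𝒱}

variable {T : Pool.Agent.Y121.AH.HodgeTheory ops} {X : 𝒱.Obj} {ι : Type} [Fintype ι]
  [DecidableEq ι]

/-- the extension of an operator in coordinates -/
lemma baseChange_vecF {L : Type} [Field L] [Algebra T.W.K L] {e : ι → T.W.H X}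
    {φ : T.W.H X →ₗ[T.W.K] T.W.H X} {z : Matrix ι ι ℚ}
    (hφ : ∀ v, φ (vec e v) = vec e (mK T z *ᵥ v)) (v : ι → L) :
    φ.baseChange L (vecF L e v) = vecF L e (cM L z *ᵥ v) := by
  have h0 : ∀ u : ι → L, vecF L e u = ∑ a, ((u a) ⊗ₜ[T.W.K] (e a) : L ⊗[T.W.K] T.W.H X) := by
    intro u
    rw [vecF, vec]
    have h : ∀ s : Finset ι, (∑ a ∈ s, (show (baseW T.W L).K from u a) • em T.W L (e a) :
        (baseW T.W L).H X) = ∑ a ∈ s, ((u a) ⊗ₜ[T.W.K] (e a) : L ⊗[T.W.K] T.W.H X) := by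
      intro s
      induction s using Finset.induction_on with
      | empty => rw [Finset.sum_empty, Finset.sum_empty]; rfl
      | insert i s hi ih =>
        rw [Finset.sum_insert hi, Finset.sum_insert hi, ih, ← tmul_eq]
        rfl
    exact h _
  rw [h0, h0, map_sum]
  have h1 : ∀ a, φ (e a) = ∑ b, ((z b a : ℚ) : T.W.K) • e b := by
    intro a
    have h2 := hφ (Pi.single a 1)
    rw [vec_single] at h2
    rw [h2, vec]
    refine Finset.sum_congr rfl fun b _ => ?_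
    rw [Matrix.mulVec_single_one]
    rfl
  have h3 : ∀ a, φ.baseChange L ((v a) ⊗ₜ[T.W.K] (e a)) =
      ∑ b, ((((z b a : ℚ) : L) * v a) ⊗ₜ[T.W.K] (e b) : L ⊗[T.W.K] T.W.H X) := by
    intro a
    rw [LinearMap.baseChange_tmul, h1, TensorProduct.tmul_sum]
    refine Finset.sum_congr rfl fun b _ => ?_
    rw [TensorProduct.tmul_smul, TensorProduct.smul_tmul', Algebra.smul_def, map_ratCast]
  rw [Finset.sum_congr rfl fun a _ => h3 a, Finset.sum_comm]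
  refine Finset.sum_congr rfl fun b _ => ?_
  rw [← TensorProduct.sum_tmul]
  rfl

section

variable {e f x : ι → T.W.H X} {ψ : LinearMap.BilinForm T.W.K (T.W.H X)} {d : ℕ}
  (hP : IsPHS (tauT T) (Fx T X) ψ d)
  (hf : ∀ a b, T.W.tr X (e a * f b) = if a = b then 1 else 0)
  (he1 : ∀ a, e a ∈ T.W.gr X 1) (hspan : ∀ z ∈ T.W.gr X 1, ∃ v, vec e v = z)

include hspan in
/-- words in coordinates -/
lemma exists_coord {n : ℕ} (w : Wd T.W X n) : ∃ (m : ℕ) (i : Fin m → Fin (n + 1))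
    (v : Fin m → ι → T.W.K), w.1 = List.ofFn fun s => (i s, vec e (v s)) := by
  have h1 := fun s : Fin w.1.length => hspan (w.1.get s).2 (w.2 _ (List.get_mem _ _))
  choose v hv using h1
  refine ⟨w.1.length, fun s => (w.1.get s).1, v, ?_⟩
  have h2 : (fun s : Fin w.1.length => ((w.1.get s).1, vec e (v s))) = w.1.get := by
    funext s
    rw [hv]
  rw [h2, List.ofFn_get]

/-- The matrix kills all Hodge forms. -/
def KH' (z : Matrix ι ι ℚ) : Prop := ∀ (m l : ℕ) (a : (Fin m → ι) → ℚ), 2 * l = m * 1 →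
  IsHodge (HS hP hf he1 hspan) l a → Kills z a

variable {z : Matrix ι ι ℚ} (hk : KH' hP hf he1 hspan z)

include hk in
lemma tr_dw_zero {n j : ℕ} {c : T.W.H (pw X n)}
    (hc : Pool.Agent.Y121.AH.IsHodge T (pw X n) j c) (w : Wd T.W X n) :
    T.W.tr (pw X n) (c * dw T.W (Fz T e f z) n w.1) = 0 := by
  obtain ⟨m, i, v, hw⟩ := exists_coord hspan w
  rw [hw, dw_mon]
  rw [← sum_ev (W := T.W) (y := e) (Z := mK T z) (g := Fz T e f z) (Fz_vec hf z) i c v]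
  by_cases hm : 2 * j + m = 2 * (pw X n).dim
  · have h1 := isHodge_frmQ hP hf he1 hspan i (l := (pw X n).dim - j) (by omega) hc
    have h2 := (kills_cst_iff (F := T.W.K)).2 (hk m _ _ (by omega) h1)
    have h3 : cst T.W.K (frmQ T e n i c) = frm (W := T.W) e n i c := by
      funext b
      exact frmQ_cast e i c b
    rw [h3] at h2
    exact h2 v
  · refine Finset.sum_eq_zero fun s _ => ?_
    rw [ev_frm]
    have h5 := T.W.mul_mem hc.1 (mon_mem T.W n i (d := 1) (v := fun r => vec e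
      (Function.update v s (mK T z *ᵥ v s) r)) fun r => vec_mem he1 _)
    rw [mul_one] at h5
    exact T.W.tr_eq_zero h5 hm

include hk in
/-- **The system of derivations.** -/
lemma exists_sys (hgen : Algebra.adjoin T.W.K (T.W.gr X 1 : Set (T.W.H X)) = ⊤) :
    ∃ δ : ∀ n, T.W.H (pw X n) →ₗ[T.W.K] T.W.H (pw X n),
      (∀ n a b, δ n (a * b) = δ n a * b + a * δ n b) ∧
      (∀ n (i : Fin (n + 1)) (a : T.W.H X), δ n (T.W.map (prj X n i) a) =
        T.W.map (prj X n i) (δ 0 a)) ∧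
      (∀ n c, T.W.tr (pw X n) (δ n c) = 0) ∧
      (∀ n j c, Pool.Agent.Y121.AH.IsHodge T (pw X n) j c → δ n c = 0) ∧
      ∀ v : ι → T.W.K, δ 0 (vec e v) = vec e (mK T z *ᵥ v) := by
  have h1 : ∀ (n : ℕ) (w : Wd T.W X n), T.W.tr (pw X n) (dw T.W (Fz T e f z) n w.1) = 0 := by
    intro n w
    have h2 := tr_dw_zero hP hf he1 hspan hk
      (Pool.Agent.N996.BP.Geo.isHodge_one (T := T) (X := pw X n)) w
    rwa [one_mul] at h2
  choose δ hδ using fun n => exists_der T.W (n := n) hgen (h1 n)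
  refine ⟨δ, fun n a b => der_mul T.W hgen (hδ n) a b, fun n i a =>
    der_map T.W hgen (hδ 0) (hδ n) i a, fun n c => ?_, fun n j c hc => ?_, fun v => ?_⟩
  · refine wd_ind T.W hgen (P := fun a => T.W.tr (pw X n) (δ n a) = 0) ?_ ?_ ?_ ?_ c
    · rw [map_zero, map_zero]
    · intro a b ha hb; rw [map_add, map_add, ha, hb, add_zero]
    · intro r a ha; rw [map_smul, map_smul, ha, smul_zero]
    · intro w; rw [hδ, h1]
  · exact der_kill T.W hgen (hδ n) (h1 n) fun w => tr_dw_zero hP hf he1 hspan hk hc w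
  · have h2 := der_one T.W (hδ 0) 0 (vec_mem he1 v)
    have h3 : ∀ c : T.W.H X, T.W.map (prj X 0 0) c = c := fun c => T.W.map_id X c
    rw [h3, h3, Fz_vec hf] at h2
    exact h2

/-- The maps which agree with the matrix are central. -/
lemma cen1_of {φ : T.W.H X →ₗ[T.W.K] T.W.H X} (hφ : ∀ v, φ (vec e v) = vec e (mK T z *ᵥ v))
    (hz : IsHodge (HS hP hf he1 hspan) 1 (bil (psiM T ψ e) z))
    (hc : ∀ ε : Matrix ι ι ℚ, IsHodge (HS hP hf he1 hspan) 1 (bil (psiM T ψ e) ε) →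
      z * ε = ε * z) : Cen1 T X φ := by
  have h1 : End1 T X φ := end1_of_stab hf hspan he1 hφ fun q x hx =>
    stab_of_hodge (HS hP hf he1 hspan) hz hx
  refine ⟨h1, fun g hg c hc' => ?_⟩
  obtain ⟨ε, hε⟩ := exists_mat_end hspan he1 hg
  obtain ⟨v, rfl⟩ := hspan c hc'
  have h3 := hc ε (hodge_of_stab (HS hP hf he1 hspan) (stab_of_end1 hf hspan hε hg))
  rw [hε, hφ, hφ, hε, Matrix.mulVec_mulVec, Matrix.mulVec_mulVec]
  congr 2
  have h4 : ∀ a b : Matrix ι ι ℚ, mK T a * mK T b = mK T (a * b) := by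
    intro a b
    ext i j
    rw [mK, mK, mK, Matrix.mul_apply, Matrix.map_apply, Matrix.mul_apply, Rat.cast_sum]
    refine Finset.sum_congr rfl fun l _ => ?_
    rw [Matrix.map_apply, Matrix.map_apply, Rat.cast_mul]
  rw [h4, h4, h3]

end

section Tate

variable {ℓ : ℕ} [Fact ℓ.Prime] [Algebra T.W.K ℚ_[ℓ]] {Γ : Type} [Group Γ]
  [TopologicalSpace Γ] [IsTopologicalGroup Γ] [CompactSpace Γ] (G : GAct T X ℓ Γ)

/-- Central derivations which kill the Hodge classes kill the Tate classes. -/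
def GAct.CC (G : GAct T X ℓ Γ) : Prop :=
  ∀ δ : ∀ n, T.W.H (pw X n) →ₗ[T.W.K] T.W.H (pw X n),
    (∀ n a b, δ n (a * b) = δ n a * b + a * δ n b) →
    (∀ n (i : Fin (n + 1)) (a : T.W.H X), δ n (T.W.map (prj X n i) a) =
      T.W.map (prj X n i) (δ 0 a)) →
    Cen1 T X (δ 0) → (∀ n j c, Pool.Agent.Y121.AH.IsHodge T (pw X n) j c → δ n c = 0) →
    ∀ n j c, G.IsT n j c → (δ n).baseChange ℚ_[ℓ] c = 0

variable {e f x : ι → T.W.H X} {D : X.Cycles} {ψ : LinearMap.BilinForm T.W.K (T.W.H X)} {d : ℕ}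
  (hP : IsPHS (tauT T) (Fx T X) ψ d)
  (hf : ∀ a b, T.W.tr X (e a * f b) = if a = b then 1 else 0)
  (he1 : ∀ a, e a ∈ T.W.gr X 1) (hspan : ∀ z ∈ T.W.gr X 1, ∃ v, vec e v = z)
  (hG : G.HT) (hnt : ∀ n, Nontrivial (T.W.H (pw X n)))
  (h0 : 0 < X.dim) (hD : X.IsCyc 1 D)
  (hd : IsDual T.W X x (fun a => lam T.W X D (e a)) (2 * (X.dim - 1) + 1))
  (hxs : ∀ z ∈ T.W.gr X 1, ∃ v, vec x v = z)

include hG hnt h0 hD hd hxs in
/-- **Central matrices which kill the Hodge forms kill the Tate forms.** -/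
lemma kills_tate (hC : G.CC) (hgen : Algebra.adjoin T.W.K (T.W.gr X 1 : Set (T.W.H X)) = ⊤)
    {z : Matrix ι ι ℚ} (hz : IsHodge (HS hP hf he1 hspan) 1 (bil (psiM T ψ e) z))
    (hc : ∀ ε : Matrix ι ι ℚ, IsHodge (HS hP hf he1 hspan) 1 (bil (psiM T ψ e) ε) →
      z * ε = ε * z) (hk : KH' hP hf he1 hspan z) {n m : ℕ} (hm : n + 1 = 2 * m)
    {t : (Fin (n + 1) → ι) → ℚ_[ℓ]} {Δ : Subgroup Γ} (hΔ : Δ.FiniteIndex)
    (ht : ∀ g ∈ Δ, ∀ v : Fin (n + 1) → ι → ℚ_[ℓ],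
      ev t (fun s => G.mat e f g *ᵥ v s) = G.χ g ^ m * ev t v) :
    Kills (cM ℚ_[ℓ] z) t := by
  obtain ⟨δ, h1, h2, h3, h4, h5⟩ := exists_sys hP hf he1 hspan hk hgen
  have h6 := hC δ h1 h2 (cen1_of hP hf he1 hspan h5 hz hc) h4 n m _
    (G.cls_tate hf he1 hspan hG (hnt n) h0 hD hd hxs hm hΔ ht)
  let F0 : DOp T.W X 0 := ⟨δ 0, δ 0, h1 0, h2 0, h3 0⟩
  let F : DOp T.W X n := ⟨δ 0, δ n, h1 n, h2 n, h3 n⟩
  have hL : (F0.base ℚ_[ℓ]).φ0 ((baseW T.W ℚ_[ℓ]).cl X D) = 0 := by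
    have h7 : (F0.base ℚ_[ℓ]).φ0 (em T.W ℚ_[ℓ] (T.W.cl X D)) = em T.W ℚ_[ℓ] (δ 0 (T.W.cl X D)) :=
      F0.base_em0 ℚ_[ℓ] (T.W.cl X D)
    have h8 : δ 0 (T.W.cl X D) = 0 := h4 0 1 _ (IsHodge.cl hD)
    rw [h8, em_zero] at h7
    exact h7
  have hy : ∀ v, (F.base ℚ_[ℓ]).φ0 (vec (W := baseW T.W ℚ_[ℓ])
      (fun a => em T.W ℚ_[ℓ] (lam T.W X D (e a))) v) = vec (W := baseW T.W ℚ_[ℓ])
      (fun a => em T.W ℚ_[ℓ] (lam T.W X D (e a))) (cM ℚ_[ℓ] z *ᵥ v) := by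
    intro v
    rw [vec_lam, vec_lam]
    have h9 : (F0.base ℚ_[ℓ]).φ0 ((baseW T.W ℚ_[ℓ]).cl X D ^ (X.dim - 1) * vecL ℓ e v) =
        (baseW T.W ℚ_[ℓ]).cl X D ^ (X.dim - 1) * (F0.base ℚ_[ℓ]).φ0 (vecL ℓ e v) :=
      (F0.base ℚ_[ℓ]).pow_mul hL (F0.base ℚ_[ℓ]).mul _ _
    have h10 : (F0.base ℚ_[ℓ]).φ0 (vecL ℓ e v) = vecL ℓ e (cM ℚ_[ℓ] z *ᵥ v) :=
      baseChange_vecF (L := ℚ_[ℓ]) h5 v
    rw [h10] at h9
    exact h9
  have h11 := (F.base ℚ_[ℓ]).kills hy (fun s : Fin (n + 1) => s) (c := clsL ℓ x n t) h6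
  have h12 : frm (W := baseW T.W ℚ_[ℓ]) (fun a => em T.W ℚ_[ℓ] (lam T.W X D (e a))) n
      (fun s : Fin (n + 1) => s) (clsL ℓ x n t) = sgn ℚ_[ℓ] (2 * (X.dim - 1) + 1) n • t :=
    frm_cls (W := baseW T.W ℚ_[ℓ]) (dual_base hd) n t
  rw [h12] at h11
  intro v
  have h13 := h11 v
  have h14 : ∀ w : Fin (n + 1) → ι → ℚ_[ℓ], ev (sgn ℚ_[ℓ] (2 * (X.dim - 1) + 1) n • t) w =
      sgn ℚ_[ℓ] (2 * (X.dim - 1) + 1) n * ev t w := fun w => ev_smul_left _ _ _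
  have h15 : ∑ j, ev (sgn ℚ_[ℓ] (2 * (X.dim - 1) + 1) n • t)
      (Function.update v j (cM ℚ_[ℓ] z *ᵥ v j)) = 0 := h13
  rw [Finset.sum_congr rfl fun j _ => h14 _, ← Finset.mul_sum] at h15
  exact (mul_eq_zero.1 h15).resolve_left (sgn_ne _ _ _)

end Tate

end Run7.h877.TX
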