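import Pool.Agent.Run7.h877.TX.GForm
import Pool.Agent.Run7.h877.MT.Main

/-!
# Classes whose forms are combinations of Hodge forms
-/

set_option autoImplicit false
set_option linter.unusedSectionVars false

open CategoryTheory AlgebraicGeometry TensorProduct

universe u

namespace Run7.h877.TX

open Module Matrix
open Pool.Agent.H914 hiding ev
open Pool.Agent.H914.VarClass Pool.Agent.H914.VarClass.Obj
  Pool.Agent.H914.WeilCohomology
open Pool.Agent.Y133.Half (pw)
open Pool.Agent.Y121.AH hiding IsHodge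
open Pool.Agent.N996.BP (IsPHS)
open Pool.Agent.N996.BP.Geo (tauT Fx lop cc)
open Run7.h877.MT

variable {k : Type u} [Field k] {𝒱 : VarClass k} {ops : CycleOps 𝒱}

variable {T : Pool.Agent.Y121.AH.HodgeTheory ops} {X : 𝒱.Obj} {ι : Type} [Fintype ι]
  [DecidableEq ι] {κ : Type} [Fintype κ] [DecidableEq κ]

lemma frmQ_cast (e : ι → T.W.H X) {n m : ℕ} (i : Fin m → Fin (n + 1)) (c : T.W.H (pw X n))
    (b : Fin m → ι) : ((frmQ T e n i c b : ℚ) : T.W.K) = frm (W := T.W) e n i c b :=
  toQ_spec T.rat _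

lemma frmQ_add (e : ι → T.W.H X) {n m : ℕ} (i : Fin m → Fin (n + 1)) (c d : T.W.H (pw X n)) :
    frmQ T e n i (c + d) = frmQ T e n i c + frmQ T e n i d := by
  funext b
  refine Rat.cast_injective (α := T.W.K) ?_
  rw [Pi.add_apply, Rat.cast_add, frmQ_cast, frmQ_cast, frmQ_cast, frm_add, Pi.add_apply]

lemma frmQ_smul (e : ι → T.W.H X) {n m : ℕ} (i : Fin m → Fin (n + 1)) (q : ℚ)
    (c : T.W.H (pw X n)) : frmQ T e n i ((q : T.W.K) • c) = q • frmQ T e n i c := by
  funext b
  refine Rat.cast_injective (α := T.W.K) ?_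
  rw [Pi.smul_apply, smul_eq_mul, Rat.cast_mul, frmQ_cast, frmQ_cast, frm_smul, Pi.smul_apply,
    smul_eq_mul]

lemma frmQ_zero (e : ι → T.W.H X) {n m : ℕ} (i : Fin m → Fin (n + 1)) :
    frmQ T e n i (0 : T.W.H (pw X n)) = 0 := by
  funext b
  refine Rat.cast_injective (α := T.W.K) ?_
  rw [frmQ_cast, frm_zero, Pi.zero_apply, Pi.zero_apply, Rat.cast_zero]

lemma frmQ_vec (e : ι → T.W.H X) {n m : ℕ} (i : Fin m → Fin (n + 1)) (h : κ → T.W.H (pw X n))
    (q : κ → ℚ) (b : Fin m → ι) :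
    frmQ T e n i (vec (W := T.W) h fun j => ((q j : ℚ) : T.W.K)) b =
      ∑ j, q j * frmQ T e n i (h j) b := by
  have key : ∀ s : Finset κ, frmQ T e n i (∑ j ∈ s, ((q j : ℚ) : T.W.K) • h j) b =
      ∑ j ∈ s, q j * frmQ T e n i (h j) b := by
    intro s
    induction s using Finset.induction_on with
    | empty => rw [Finset.sum_empty, Finset.sum_empty, frmQ_zero, Pi.zero_apply]
    | insert j s hj ih =>
      rw [Finset.sum_insert hj, Finset.sum_insert hj, frmQ_add, frmQ_smul, Pi.add_apply, ih,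
        Pi.smul_apply, smul_eq_mul]
  exact key _

variable {L : Type} [Field L] [Algebra T.W.K L] [CharZero L]

/-- The vector with coefficients in `L`. -/
noncomputable def vecF (L : Type) [Field L] [Algebra T.W.K L] {Z : 𝒱.Obj} (h : κ → T.W.H Z)
    (z : κ → L) : (baseW T.W L).H Z :=
  vec (W := baseW T.W L) (fun a => em T.W L (h a)) z

lemma vecF_add {Z : 𝒱.Obj} (h : κ → T.W.H Z) (z w : κ → L) :
    vecF L h (z + w) = vecF L h z + vecF L h w := vec_add (W := baseW T.W L) _ z w

lemma vecF_smul {Z : 𝒱.Obj} (h : κ → T.W.H Z) (c : L) (z : κ → L) :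
    vecF L h (c • z) = (show (baseW T.W L).K from c) • vecF L h z :=
  vec_smul (W := baseW T.W L) _ c z

lemma vecF_zero {Z : 𝒱.Obj} (h : κ → T.W.H Z) : vecF L h (0 : κ → L) = 0 :=
  vec_zero (W := baseW T.W L) _

lemma vecF_cst {Z : 𝒱.Obj} (h : κ → T.W.H Z) (q : κ → ℚ) :
    vecF L h (cst L q) = em T.W L (vec (W := T.W) h fun j => ((q j : ℚ) : T.W.K)) := by
  rw [vec, em_finset_sum, vecF, vec]
  refine Finset.sum_congr rfl fun j _ => ?_
  rw [em_smul, ex_rat]
  rfl

/-- The form with coefficients in `L`. -/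
noncomputable def frmF (L : Type) [Field L] [Algebra T.W.K L] (e : ι → T.W.H X) (n : ℕ)
    {m : ℕ} (i : Fin m → Fin (n + 1)) (c : (baseW T.W L).H (pw X n)) : (Fin m → ι) → L :=
  frm (W := baseW T.W L) (fun a => em T.W L (e a)) n i c

lemma frmF_em (e : ι → T.W.H X) {n m : ℕ} (i : Fin m → Fin (n + 1)) (c : T.W.H (pw X n)) :
    frmF L e n i (em T.W L c) = cst L (frmQ T e n i c) := (cst_frmQ e i c).symm

lemma frmF_add (e : ι → T.W.H X) {n m : ℕ} (i : Fin m → Fin (n + 1))
    (c d : (baseW T.W L).H (pw X n)) :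
    frmF L e n i (c + d) = frmF L e n i c + frmF L e n i d :=
  frm_add (W := baseW T.W L) _ n i c d

lemma frmF_smul (e : ι → T.W.H X) {n m : ℕ} (i : Fin m → Fin (n + 1)) (r : (baseW T.W L).K)
    (c : (baseW T.W L).H (pw X n)) :
    frmF L e n i (r • c) = (show L from r) • frmF L e n i c :=
  frm_smul (W := baseW T.W L) _ n i r c

lemma frmF_zero (e : ι → T.W.H X) {n m : ℕ} (i : Fin m → Fin (n + 1)) :
    frmF L e n i (0 : (baseW T.W L).H (pw X n)) = 0 :=
  frm_zero (W := baseW T.W L) _ n i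

lemma frmF_vecF (e : ι → T.W.H X) {n m : ℕ} (i : Fin m → Fin (n + 1)) (h : κ → T.W.H (pw X n))
    (z : κ → L) (b : Fin m → ι) :
    frmF L e n i (vecF L h z) b = ∑ j, z j * ((frmQ T e n i (h j) b : ℚ) : L) := by
  have key : ∀ s : Finset κ, frmF L e n i
      (∑ j ∈ s, (show (baseW T.W L).K from z j) • em T.W L (h j)) b =
      ∑ j ∈ s, z j * ((frmQ T e n i (h j) b : ℚ) : L) := by
    intro s
    induction s using Finset.induction_on with
    | empty => rw [Finset.sum_empty, Finset.sum_empty, frmF_zero, Pi.zero_apply]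
    | insert j s hj ih =>
      rw [Finset.sum_insert hj, Finset.sum_insert hj, frmF_add, frmF_smul, Pi.add_apply, ih,
        Pi.smul_apply, smul_eq_mul, frmF_em]
      rfl
  exact key _

/-- The forms of the rational classes of the coordinates. -/
lemma fn_frmF (e : ι → T.W.H X) {n m : ℕ} (i : Fin m → Fin (n + 1)) (h : κ → T.W.H (pw X n))
    (z : κ → L) (φ : L →ₗ[ℚ] ℚ) :
    fn φ (frmF L e n i (vecF L h z)) =
      frmQ T e n i (vec (W := T.W) h fun j => ((fn φ z j : ℚ) : T.W.K)) := by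
  funext b
  rw [fn, frmF_vecF, frmQ_vec, map_sum]
  refine Finset.sum_congr rfl fun j _ => ?_
  rw [phi_mul_cast, mul_comm]
  rfl

/-- The span of the Hodge classes. -/
noncomputable def HSp (T : Pool.Agent.Y121.AH.HodgeTheory ops) (L : Type) [Field L] [Algebra T.W.K L]
    (Z : 𝒱.Obj) (j : ℕ) : Submodule (baseW T.W L).K ((baseW T.W L).H Z) :=
  Submodule.span (baseW T.W L).K {w | ∃ c, Pool.Agent.Y121.AH.IsHodge T Z j c ∧ w = em T.W L c}

section

variable {e f : ι → T.W.H X} {ψ : LinearMap.BilinForm T.W.K (T.W.H X)} {d : ℕ}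
  (hP : IsPHS (tauT T) (Fx T X) ψ d)
  (hf : ∀ a b, T.W.tr X (e a * f b) = if a = b then 1 else 0)
  (he1 : ∀ a, e a ∈ T.W.gr X 1) (hspan : ∀ z ∈ T.W.gr X 1, ∃ v, vec e v = z)

/-- A basis of a subspace. -/
lemma exists_bas (W : WeilCohomology.{u, 0} ops) (Z : 𝒱.Obj) (i : ℕ) :
    ∃ (r : ℕ) (e : Fin r → W.H Z), LinearIndependent W.K e ∧ (∀ a, e a ∈ W.gr Z i) ∧
      ∀ z ∈ W.gr Z i, ∃ v, vec e v = z := by
  let b := Module.finBasis W.K (W.gr Z i)
  refine ⟨_, fun a => (b a : W.H Z), b.linearIndependent.map' (W.gr Z i).subtype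
    (Submodule.ker_subtype _), fun a => (b a).2, fun z hz => ?_⟩
  refine ⟨fun a => b.repr ⟨z, hz⟩ a, ?_⟩
  have h1 := congrArg (W.gr Z i).subtype (b.sum_repr ⟨z, hz⟩)
  rw [map_sum] at h1
  exact h1

/-- the Hodge forms as a subspace -/
def HF (H : PolHS ι) (l m : ℕ) : Submodule ℚ ((Fin m → ι) → ℚ) where
  carrier := {a | IsHodge H l a}
  add_mem' {a b} ha hb := by
    intro q v hv hq
    have h1 : cst ℂ (a + b) = cst ℂ a + cst ℂ b := by funext i; simp [cst]
    rw [h1, ev_add_left, ha q v hv hq, hb q v hv hq, add_zero]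
  zero_mem' := by
    intro q v hv hq
    have h1 : cst ℂ (0 : (Fin m → ι) → ℚ) = 0 := by funext i; simp [cst]
    rw [h1, ev_zero_left]
  smul_mem' c a ha := by
    intro q v hv hq
    have h1 : cst ℂ (c • a) = (c : ℂ) • cst ℂ a := by funext i; simp [cst]
    rw [h1, ev_smul_left, ha q v hv hq, mul_zero]

/-- **A class whose forms are combinations of Hodge forms is a combination of Hodge classes.** -/
theorem mem_HSp (hgen : Algebra.adjoin T.W.K (T.W.gr X 1 : Set (T.W.H X)) = ⊤) {n j : ℕ}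
    {c : (baseW T.W L).H (pw X n)} (hc : c ∈ (baseW T.W L).gr (pw X n) (2 * j))
    (h : ∀ (m l : ℕ), 2 * j + m = 2 * (pw X n).dim → 2 * l = m * 1 → ∀ (i : Fin m → Fin (n + 1)),
      frmF L e n i c ∈ Submodule.span L
        (cst L '' {a | IsHodge (HS hP hf he1 hspan) l a})) : c ∈ HSp T L (pw X n) j := by
  classical
  obtain ⟨r, h0, -, hh1, hsp⟩ := exists_bas T.W (pw X n) (2 * j)
  obtain ⟨z, hz⟩ : ∃ z : Fin r → L, vecF L h0 z = c := span_base (L := L) hsp c hc
  let S : Submodule ℚ (Fin r → ℚ) :=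
    { carrier := {q | Pool.Agent.Y121.AH.IsHodge T (pw X n) j
        (vec (W := T.W) h0 fun a => ((q a : ℚ) : T.W.K))}
      add_mem' := by
        intro p q hp hq
        have h1 : (fun a => (((p + q) a : ℚ) : T.W.K)) =
            (fun a => ((p a : ℚ) : T.W.K)) + fun a => ((q a : ℚ) : T.W.K) := by
          funext a
          rw [Pi.add_apply, Pi.add_apply, Rat.cast_add]
        change Pool.Agent.Y121.AH.IsHodge T (pw X n) j _
        rw [h1, vec_add]
        exact Pool.Agent.Y121.AH.IsHodge.add hp hq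
      zero_mem' := by
        have h1 : (fun a => (((0 : Fin r → ℚ) a : ℚ) : T.W.K)) = 0 := by
          funext a
          rw [Pi.zero_apply, Pi.zero_apply, Rat.cast_zero]
        change Pool.Agent.Y121.AH.IsHodge T (pw X n) j _
        rw [h1, vec_zero]
        exact Pool.Agent.Y121.AH.IsHodge.zero
      smul_mem' := by
        intro s q hq
        have h1 : (fun a => (((s • q) a : ℚ) : T.W.K)) =
            (s : T.W.K) • fun a => ((q a : ℚ) : T.W.K) := by
          funext a
          rw [Pi.smul_apply, Pi.smul_apply, smul_eq_mul, smul_eq_mul, Rat.cast_mul]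
        change Pool.Agent.Y121.AH.IsHodge T (pw X n) j _
        rw [h1, vec_smul]
        exact Pool.Agent.Y121.AH.IsHodge.smul _ hq }
  have hS : z ∈ spF L S := by
    refine mem_of_fn fun φ => ?_
    change Pool.Agent.Y121.AH.IsHodge T (pw X n) j _
    refine isHodge_of_frmQ hP hf he1 hspan hgen (vec_mem (W := T.W) hh1 _) ?_
    intro m l hm hl i
    rw [← fn_frmF, hz]
    have h1 := h m l hm hl i
    have h2 : frmF L e n i c ∈ spF L (HF (HS hP hf he1 hspan) l m) := by
      have h3 := span_cst_le (F := L) {a : (Fin m → ι) → ℚ | IsHodge (HS hP hf he1 hspan) l a} h1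
      have h4 : Submodule.span ℚ {a : (Fin m → ι) → ℚ | IsHodge (HS hP hf he1 hspan) l a} =
          HF (HS hP hf he1 hspan) l m := Submodule.span_eq (HF (HS hP hf he1 hspan) l m)
      rw [h4] at h3
      exact h3
    exact fn_mem h2 φ
  rw [← hz]
  clear hz
  rw [spF] at hS
  induction hS using Submodule.span_induction with
  | mem w hw =>
    obtain ⟨q, hq, rfl⟩ := hw
    rw [vecF_cst]
    exact Submodule.subset_span ⟨_, hq, rfl⟩
  | zero => rw [vecF_zero]; exact Submodule.zero_mem _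
  | add x y _ _ hx hy => rw [vecF_add]; exact Submodule.add_mem _ hx hy
  | smul r x _ hx => rw [vecF_smul]; exact Submodule.smul_mem _ _ hx

end

end Run7.h877.TX
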