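import Pool.Agent.Run7.h877.TX.Der
import Pool.Agent.Run7.h877.TX.Cen
import Pool.Agent.Run7.h877.TX.Desc

/-!
# Natural derivations and forms
-/

set_option autoImplicit false
set_option linter.unusedSectionVars false

open CategoryTheory AlgebraicGeometry TensorProduct

universe u

namespace Run7.h877.TX

open Module Matrix
open Pool.Agent.H914 hiding ev
open Pool.Agent.H914.VarClass Pool.Agent.H914.VarClass.Obj
  Pool.Agent.H914.WeilCohomology
open Pool.Agent.Y133.Half (pw prj pfst psnd prj_zero prj_last prj_castSucc)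
open Pool.Agent.Y121.AH hiding IsHodge
open Pool.Agent.N996.BP (IsPHS)
open Pool.Agent.N996.BP.Geo (tauT Fx lop cc)
open Pool.Agent.N996.FP.Geo (End1 Cen1)
open Run7.h877.MT

variable {k : Type u} [Field k] {𝒱 : VarClass k} {ops : CycleOps 𝒱}

section

variable (W : WeilCohomology.{u, 0} ops) (X : 𝒱.Obj)

/-- A natural derivation of the cohomology of `X` and `X ^ (n + 1)` which kills the traces. -/
structure DOp (n : ℕ) where
  φ0 : W.H X →ₗ[W.K] W.H X
  φ : W.H (pw X n) →ₗ[W.K] W.H (pw X n)
  mul : ∀ a b, φ (a * b) = φ a * b + a * φ b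
  comp : ∀ i a, φ (W.map (prj X n i) a) = W.map (prj X n i) (φ0 a)
  tr : ∀ c, W.tr (pw X n) (φ c) = 0

variable {W X} {n : ℕ} (F : DOp W X n)

lemma DOp.one : F.φ 1 = 0 := by
  have h := F.mul 1 1
  rw [mul_one, mul_one, one_mul] at h
  exact left_eq_add.1 h

lemma DOp.lw_eq (w : List (Fin (n + 1) × W.H X)) : F.φ (lw W n w) = dw W F.φ0 n w := by
  induction w with
  | nil => rw [lw, dw, F.one]
  | cons p w ih => rw [lw, dw, F.mul, F.comp, ih]

lemma DOp.mon_eq {m : ℕ} (i : Fin m → Fin (n + 1)) (v : Fin m → W.H X) :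
    F.φ (mon W n i v) = ∑ s, mon W n i (Function.update v s (F.φ0 (v s))) := by
  rw [mon_lw, F.lw_eq, dw_mon]

variable {ι : Type} [Fintype ι] [DecidableEq ι]

/-- the sum over the updates in coordinates -/
lemma sum_ev {y : ι → W.H X} {Z : Matrix ι ι W.K} {g : W.H X → W.H X}
    (hy : ∀ v, g (vec y v) = vec y (Z *ᵥ v)) {m : ℕ} (i : Fin m → Fin (n + 1))
    (c : W.H (pw X n)) (v : Fin m → ι → W.K) :
    ∑ j, ev (frm y n i c) (Function.update v j (Z *ᵥ v j)) =
      W.tr (pw X n) (c * ∑ s, mon W n i (Function.update (fun s => vec y (v s)) s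
        (g (vec y (v s))))) := by
  rw [Finset.mul_sum, map_sum]
  refine Finset.sum_congr rfl fun s _ => ?_
  rw [ev_frm]
  congr 3
  funext r
  by_cases h : r = s
  · subst h
    rw [Function.update_self, Function.update_self, hy]
  · rw [Function.update_of_ne h, Function.update_of_ne h]

/-- **Killed classes have killed forms.** -/
lemma DOp.kills {y : ι → W.H X} {Z : Matrix ι ι W.K} (hy : ∀ v, F.φ0 (vec y v) = vec y (Z *ᵥ v))
    {m : ℕ} (i : Fin m → Fin (n + 1)) {c : W.H (pw X n)} (hc : F.φ c = 0) :
    Kills Z (frm y n i c) := by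
  intro v
  rw [sum_ev hy, ← F.mon_eq i fun s => vec y (v s)]
  have h1 := F.tr (c * mon W n i fun s => vec y (v s))
  rw [F.mul, hc, zero_mul, zero_add] at h1
  exact h1

/-- Multiplication by a killed class. -/
lemma DOp.pow_mul (F : DOp W X 0) {L : W.H X} (hL : F.φ0 L = 0)
    (hF : ∀ a b : W.H X, F.φ0 (a * b) = F.φ0 a * b + a * F.φ0 b) (r : ℕ) (z : W.H X) :
    F.φ0 (L ^ r * z) = L ^ r * F.φ0 z := by
  induction r with
  | zero => rw [pow_zero, one_mul, one_mul]
  | succ r ih => rw [pow_succ', mul_assoc, mul_assoc, hF, hL, zero_mul, zero_add, ih]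

/-- Extension of the coefficients. -/
noncomputable def DOp.base (F : DOp W X n) (L : Type) [Field L] [Algebra W.K L] :
    DOp (baseW W L) X n where
  φ0 := (F.φ0.baseChange L : L ⊗[W.K] W.H X →ₗ[L] L ⊗[W.K] W.H X)
  φ := (F.φ.baseChange L : L ⊗[W.K] W.H (pw X n) →ₗ[L] L ⊗[W.K] W.H (pw X n))
  mul a b := by
    have key : ∀ x y : L ⊗[W.K] W.H (pw X n), F.φ.baseChange L (x * y) =
        F.φ.baseChange L x * y + x * F.φ.baseChange L y := by
      intro x y
      induction x using TensorProduct.induction_on with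
      | zero => rw [zero_mul, map_zero, zero_mul, zero_mul, add_zero]
      | add x x' hx hx' =>
        rw [add_mul, map_add, hx, hx', map_add, add_mul, add_mul]
        abel
      | tmul l a =>
        induction y using TensorProduct.induction_on with
        | zero => rw [mul_zero, map_zero, mul_zero, mul_zero, add_zero]
        | add y y' hy hy' =>
          rw [mul_add, map_add, hy, hy', map_add, mul_add, mul_add]
          abel
        | tmul l' b =>
          rw [Algebra.TensorProduct.tmul_mul_tmul, LinearMap.baseChange_tmul,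
            LinearMap.baseChange_tmul, LinearMap.baseChange_tmul,
            Algebra.TensorProduct.tmul_mul_tmul, Algebra.TensorProduct.tmul_mul_tmul, F.mul,
            TensorProduct.tmul_add]
    exact key a b
  comp i a := by
    have key : ∀ x : L ⊗[W.K] W.H X, F.φ.baseChange L (mapBase L (W.map (prj X n i)) x) =
        mapBase L (W.map (prj X n i)) (F.φ0.baseChange L x) := by
      intro x
      induction x using TensorProduct.induction_on with
      | zero => rw [map_zero, map_zero, map_zero, map_zero]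
      | add x x' hx hx' => rw [map_add, map_add, hx, hx', map_add, map_add]
      | tmul l a =>
        have h1 : ∀ b, mapBase L (W.map (prj X n i)) (l ⊗ₜ[W.K] b) =
            l ⊗ₜ[W.K] (W.map (prj X n i) b) := fun b => Algebra.TensorProduct.map_tmul _ _ _ _
        rw [LinearMap.baseChange_tmul, h1, h1, LinearMap.baseChange_tmul, F.comp]
    exact key a
  tr c := by
    have key : ∀ x : L ⊗[W.K] W.H (pw X n), formBase L (W.tr (pw X n)) (F.φ.baseChange L x) = 0 := by
      intro x
      induction x using TensorProduct.induction_on with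
      | zero => rw [map_zero, map_zero]
      | add x x' hx hx' => rw [map_add, map_add, hx, hx', add_zero]
      | tmul l a => rw [LinearMap.baseChange_tmul, formBase_tmul, F.tr, map_zero, mul_zero]
    exact key c

lemma DOp.base_em0 (F : DOp W X n) (L : Type) [Field L] [Algebra W.K L] (a : W.H X) :
    (F.base L).φ0 (em W L a) = em W L (F.φ0 a) := by
  have h : F.φ0.baseChange L ((1 : L) ⊗ₜ[W.K] a) = (1 : L) ⊗ₜ[W.K] (F.φ0 a) :=
    LinearMap.baseChange_tmul _ _ _
  exact h

lemma DOp.base_em (F : DOp W X n) (L : Type) [Field L] [Algebra W.K L] (a : W.H (pw X n)) :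
    (F.base L).φ (em W L a) = em W L (F.φ a) := by
  have h : F.φ.baseChange L ((1 : L) ⊗ₜ[W.K] a) = (1 : L) ⊗ₜ[W.K] (F.φ a) :=
    LinearMap.baseChange_tmul _ _ _
  exact h

end

end Run7.h877.TX
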