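import Pool.Agent.Run7.h877.TX.Dual

/-!
# Derivations of the cohomology of the powers
-/

set_option autoImplicit false
set_option linter.unusedSectionVars false

open CategoryTheory AlgebraicGeometry

universe u

namespace Run7.h877.TX

open Module Matrix
open Pool.Agent.H914 hiding ev
open Pool.Agent.H914.VarClass Pool.Agent.H914.VarClass.Obj
  Pool.Agent.H914.WeilCohomology
open Pool.Agent.Y133.Half (pw prj pfst psnd prj_zero prj_last prj_castSucc)
open Run7.h877.MT

variable {k : Type u} [Field k] {𝒱 : VarClass k} {ops : CycleOps 𝒱}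

section

variable (W : WeilCohomology.{u, 0} ops) {X : 𝒱.Obj}

/-- The product of the pull-backs of the letters of a word. -/
noncomputable def lw (n : ℕ) : List (Fin (n + 1) × W.H X) → W.H (pw X n)
  | [] => 1
  | p :: w => W.map (prj X n p.1) p.2 * lw n w

/-- The derivation of the word. -/
noncomputable def dw (z : W.H X → W.H X) (n : ℕ) : List (Fin (n + 1) × W.H X) → W.H (pw X n)
  | [] => 0
  | p :: w => W.map (prj X n p.1) (z p.2) * lw W n w + W.map (prj X n p.1) p.2 * dw z n w

variable {z : W.H X → W.H X} {n : ℕ}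

lemma lw_append (w w' : List (Fin (n + 1) × W.H X)) :
    lw W n (w ++ w') = lw W n w * lw W n w' := by
  induction w with
  | nil => rw [List.nil_append, lw, one_mul]
  | cons p w ih => rw [List.cons_append, lw, lw, ih, mul_assoc]

lemma dw_append (w w' : List (Fin (n + 1) × W.H X)) :
    dw W z n (w ++ w') = dw W z n w * lw W n w' + lw W n w * dw W z n w' := by
  induction w with
  | nil => rw [List.nil_append, dw, lw, one_mul, zero_mul, zero_add]
  | cons p w ih =>
    rw [List.cons_append, dw, dw, lw, ih, lw_append]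
    simp only [mul_add, add_mul, mul_assoc, add_assoc]

lemma mon_lw {m : ℕ} (i : Fin m → Fin (n + 1)) (v : Fin m → W.H X) :
    mon W n i v = lw W n (List.ofFn fun s => (i s, v s)) := by
  rw [mon_apply]
  induction m with
  | zero => rw [List.ofFn_zero, List.ofFn_zero, List.prod_nil, lw]
  | succ m ih => rw [List.ofFn_succ, List.ofFn_succ, List.prod_cons, lw,
      ih (fun s => i s.succ) fun s => v s.succ]

lemma dw_mon {m : ℕ} (i : Fin m → Fin (n + 1)) (v : Fin m → W.H X) :
    dw W z n (List.ofFn fun s => (i s, v s)) =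
      ∑ s, mon W n i (Function.update v s (z (v s))) := by
  induction m with
  | zero => rw [List.ofFn_zero, dw, Fin.sum_univ_zero]
  | succ m ih =>
    have h1 : ∀ w : Fin (m + 1) → W.H X, mon W n i w = W.map (prj X n (i 0)) (w 0) *
        mon W n (fun s => i s.succ) fun s => w s.succ := by
      intro w
      rw [mon_apply, mon_apply, List.ofFn_succ, List.prod_cons]
    rw [List.ofFn_succ, dw, Fin.sum_univ_succ, ih (fun s => i s.succ) fun s => v s.succ,
      ← mon_lw W (fun s => i s.succ) fun s => v s.succ, h1]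
    have h2 : ∑ s : Fin m, mon W n i (Function.update v s.succ (z (v s.succ))) =
        W.map (prj X n (i 0)) (v 0) * ∑ s : Fin m, mon W n (fun s => i s.succ)
          (Function.update (fun s => v s.succ) s (z (v s.succ))) := by
      rw [Finset.mul_sum]
      refine Finset.sum_congr rfl fun s _ => ?_
      rw [h1, Function.update_of_ne (Fin.succ_ne_zero s).symm]
      congr 2
      funext r
      by_cases h : r = s
      · subst h
        rw [Function.update_self, Function.update_self]
      · rw [Function.update_of_ne h, Function.update_of_ne]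
        intro h'
        exact h (Fin.succ_injective _ h')
    rw [h2, Function.update_self]
    rfl

/-- words with letters of degree one -/
def Deg1 (w : List (Fin (n + 1) × W.H X)) : Prop := ∀ p ∈ w, p.2 ∈ W.gr X 1

lemma Deg1.append {w w' : List (Fin (n + 1) × W.H X)} (h : Deg1 W w) (h' : Deg1 W w') :
    Deg1 W (w ++ w') := by
  intro p hp
  rcases List.mem_append.1 hp with h1 | h1
  · exact h p h1
  · exact h' p h1

lemma deg1_ofFn {m : ℕ} {i : Fin m → Fin (n + 1)} {v : Fin m → W.H X}
    (hv : ∀ s, v s ∈ W.gr X 1) : Deg1 W (List.ofFn fun s => (i s, v s)) := by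
  intro p hp
  obtain ⟨s, rfl⟩ := (List.mem_ofFn' _ _).1 hp
  exact hv s

/-- the words as a type -/
abbrev Wd (W : WeilCohomology.{u, 0} ops) (X : 𝒱.Obj) (n : ℕ) : Type :=
  {w : List (Fin (n + 1) × W.H X) // Deg1 W w}

lemma span_wd (hgen : Algebra.adjoin W.K (W.gr X 1 : Set (W.H X)) = ⊤) (n : ℕ) :
    Submodule.span W.K (Set.range fun w : Wd W X n => lw W n w.1) = ⊤ := by
  refine top_le_iff.1 fun c _ => ?_
  refine mon_induction W hgen n (P := fun c => c ∈ Submodule.span W.K
    (Set.range fun w : Wd W X n => lw W n w.1)) (Submodule.zero_mem _)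
    (fun a b ha hb => Submodule.add_mem _ ha hb) (fun r a ha => Submodule.smul_mem _ r ha) ?_ c
  intro m i v hv
  rw [mon_lw]
  exact Submodule.subset_span ⟨⟨_, deg1_ofFn W hv⟩, rfl⟩

/-- **Existence of the derivation.** -/
lemma exists_der (hgen : Algebra.adjoin W.K (W.gr X 1 : Set (W.H X)) = ⊤)
    (hk : ∀ w : Wd W X n, W.tr (pw X n) (dw W z n w.1) = 0) :
    ∃ δ : W.H (pw X n) →ₗ[W.K] W.H (pw X n), ∀ w : Wd W X n, δ (lw W n w.1) = dw W z n w.1 := by
  let LM : (Wd W X n →₀ W.K) →ₗ[W.K] W.H (pw X n) :=
    Finsupp.linearCombination W.K fun w : Wd W X n => lw W n w.1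
  let DL : (Wd W X n →₀ W.K) →ₗ[W.K] W.H (pw X n) :=
    Finsupp.linearCombination W.K fun w : Wd W X n => dw W z n w.1
  have hsur : LinearMap.range LM = ⊤ := by
    rw [Finsupp.range_linearCombination]
    exact span_wd W hgen n
  have hker : ∀ f, LM f = 0 → DL f = 0 := by
    intro f hf
    refine W.nondeg _ fun y => ?_
    have hy : y ∈ Submodule.span W.K (Set.range fun w : Wd W X n => lw W n w.1) := by
      rw [span_wd W hgen]; trivial
    induction hy using Submodule.span_induction with
    | mem y hy =>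
      obtain ⟨w', rfl⟩ := hy
      have h1 : ∀ f : Wd W X n →₀ W.K, W.tr (pw X n) (DL f * lw W n w'.1) =
          - W.tr (pw X n) (LM f * dw W z n w'.1) := by
        intro f
        induction f using Finsupp.induction_linear with
        | zero => rw [map_zero, map_zero, zero_mul, zero_mul, map_zero, neg_zero]
        | add f g hf hg =>
          rw [map_add, map_add, add_mul, add_mul, map_add, map_add, hf, hg, neg_add]
        | single w r =>
          have h2 : DL (Finsupp.single w r) = r • dw W z n w.1 :=
            Finsupp.linearCombination_single _ _ _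
          have h3 : LM (Finsupp.single w r) = r • lw W n w.1 :=
            Finsupp.linearCombination_single _ _ _
          have h4 := hk ⟨w.1 ++ w'.1, w.2.append W w'.2⟩
          rw [dw_append, map_add] at h4
          rw [h2, h3, smul_mul_assoc, smul_mul_assoc, map_smul, map_smul,
            eq_neg_of_add_eq_zero_left h4, smul_neg]
      rw [h1, hf, zero_mul, map_zero, neg_zero]
    | zero => rw [mul_zero, map_zero]
    | add a b _ _ ha hb => rw [mul_add, map_add, ha, hb, add_zero]
    | smul r a _ ha => rw [mul_smul_comm, map_smul, ha, smul_zero]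
  obtain ⟨g, hg⟩ := LM.exists_rightInverse_of_surjective hsur
  refine ⟨DL ∘ₗ g, fun w => ?_⟩
  have h1 : LM (g (lw W n w.1) - Finsupp.single w 1) = 0 := by
    rw [map_sub]
    have h2 : LM (g (lw W n w.1)) = lw W n w.1 := LinearMap.congr_fun hg _
    have h3 : LM (Finsupp.single w 1) = lw W n w.1 := by
      have h4 : LM (Finsupp.single w 1) = (1 : W.K) • lw W n w.1 :=
        Finsupp.linearCombination_single _ _ _
      rw [h4, one_smul]
    rw [h2, h3, sub_self]
  have h2 := hker _ h1
  rw [map_sub, sub_eq_zero] at h2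
  rw [LinearMap.comp_apply, h2]
  have h4 : DL (Finsupp.single w 1) = (1 : W.K) • dw W z n w.1 :=
    Finsupp.linearCombination_single _ _ _
  rw [h4, one_smul]

lemma wd_ind (hgen : Algebra.adjoin W.K (W.gr X 1 : Set (W.H X)) = ⊤) {n : ℕ}
    {P : W.H (pw X n) → Prop} (h0 : P 0) (hadd : ∀ a b, P a → P b → P (a + b))
    (hsmul : ∀ (c : W.K) a, P a → P (c • a)) (hw : ∀ w : Wd W X n, P (lw W n w.1))
    (c : W.H (pw X n)) : P c := by
  have hc : c ∈ Submodule.span W.K (Set.range fun w : Wd W X n => lw W n w.1) := by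
    rw [span_wd W hgen]; trivial
  induction hc using Submodule.span_induction with
  | mem y hy => obtain ⟨w, rfl⟩ := hy; exact hw w
  | zero => exact h0
  | add a b _ _ ha hb => exact hadd a b ha hb
  | smul r a _ ha => exact hsmul r a ha

/-- the Leibniz rule -/
lemma der_mul (hgen : Algebra.adjoin W.K (W.gr X 1 : Set (W.H X)) = ⊤)
    {δ : W.H (pw X n) →ₗ[W.K] W.H (pw X n)} (hδ : ∀ w : Wd W X n, δ (lw W n w.1) = dw W z n w.1)
    (a b : W.H (pw X n)) : δ (a * b) = δ a * b + a * δ b := by
  refine wd_ind W hgen (P := fun a => δ (a * b) = δ a * b + a * δ b) ?_ ?_ ?_ ?_ a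
  · rw [zero_mul, map_zero, zero_mul, zero_mul, add_zero]
  · intro a a' ha ha'
    rw [add_mul, map_add, ha, ha', map_add, add_mul, add_mul]
    abel
  · intro r a ha
    rw [smul_mul_assoc, map_smul, ha, map_smul, smul_mul_assoc, smul_mul_assoc, smul_add]
  · intro w
    refine wd_ind W hgen (P := fun b => δ (lw W n w.1 * b) = δ (lw W n w.1) * b +
      lw W n w.1 * δ b) ?_ ?_ ?_ ?_ b
    · rw [mul_zero, map_zero, mul_zero, mul_zero, add_zero]
    · intro b b' hb hb'
      rw [mul_add, map_add, hb, hb', map_add, mul_add, mul_add]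
      abel
    · intro r b hb
      rw [mul_smul_comm, map_smul, hb, map_smul, mul_smul_comm, mul_smul_comm, smul_add]
    · intro w'
      have h1 := hδ ⟨w.1 ++ w'.1, w.2.append W w'.2⟩
      rw [lw_append, dw_append] at h1
      rw [h1, hδ, hδ]

/-- the value on the classes of degree one -/
lemma der_one {δ : W.H (pw X n) →ₗ[W.K] W.H (pw X n)}
    (hδ : ∀ w : Wd W X n, δ (lw W n w.1) = dw W z n w.1) (i : Fin (n + 1)) {a : W.H X}
    (ha : a ∈ W.gr X 1) : δ (W.map (prj X n i) a) = W.map (prj X n i) (z a) := by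
  have h1 := hδ ⟨[(i, a)], fun p hp => by
    rw [List.mem_singleton] at hp
    rw [hp]
    exact ha⟩
  have h2 : lw W n [(i, a)] = W.map (prj X n i) a := by
    rw [lw, lw, mul_one]
  have h3 : dw W z n [(i, a)] = W.map (prj X n i) (z a) := by
    rw [dw, dw, lw, mul_one, mul_zero, add_zero]
  rwa [h2, h3] at h1

/-- compatibility with the pull-backs -/
lemma der_map (hgen : Algebra.adjoin W.K (W.gr X 1 : Set (W.H X)) = ⊤)
    {δ0 : W.H (pw X 0) →ₗ[W.K] W.H (pw X 0)}
    (hδ0 : ∀ w : Wd W X 0, δ0 (lw W 0 w.1) = dw W z 0 w.1)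
    {δ : W.H (pw X n) →ₗ[W.K] W.H (pw X n)}
    (hδ : ∀ w : Wd W X n, δ (lw W n w.1) = dw W z n w.1) (i : Fin (n + 1)) (a : W.H X) :
    δ (W.map (prj X n i) a) = W.map (prj X n i) (δ0 a) := by
  have hid : ∀ (j : Fin 1) (c : W.H X), W.map (prj X 0 j) c = c := fun j c => W.map_id X c
  refine wd_ind W hgen (n := 0) (P := fun a => δ (W.map (prj X n i) (show W.H X from a)) =
    W.map (prj X n i) (show W.H X from δ0 a)) ?_ ?_ ?_ ?_ a
  · have h1 : W.map (prj X n i) (0 : W.H X) = 0 := map_zero _
    have h2 : δ0 0 = 0 := map_zero _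
    have h3 : δ (W.map (prj X n i) (0 : W.H X)) = W.map (prj X n i) (0 : W.H X) := by
      rw [h1, map_zero]
    rw [h2]
    exact h3
  · intro a b ha hb
    have h1 : W.map (prj X n i) (show W.H X from (a + b)) =
        W.map (prj X n i) (show W.H X from a) + W.map (prj X n i) (show W.H X from b) :=
      map_add _ _ _
    have h2 : W.map (prj X n i) (show W.H X from δ0 (a + b)) =
        W.map (prj X n i) (show W.H X from δ0 a) + W.map (prj X n i) (show W.H X from δ0 b) := by
      rw [map_add]
      exact map_add _ _ _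
    rw [h1, h2, map_add, ha, hb]
  · intro r a ha
    have h1 : W.map (prj X n i) (show W.H X from (r • a)) =
        r • W.map (prj X n i) (show W.H X from a) := map_smul _ _ _
    have h2 : W.map (prj X n i) (show W.H X from δ0 (r • a)) =
        r • W.map (prj X n i) (show W.H X from δ0 a) := by
      rw [map_smul]
      exact map_smul _ _ _
    rw [h1, h2, map_smul, ha]
  · rintro ⟨w, hw⟩
    rw [hδ0]
    have key : ∀ w : List (Fin 1 × W.H X), W.map (prj X n i) (show W.H X from lw W 0 w) =
        lw W n (w.map fun p => (i, p.2)) ∧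
        W.map (prj X n i) (show W.H X from dw W z 0 w) =
        dw W z n (w.map fun p => (i, p.2)) := by
      intro w
      induction w with
      | nil => exact ⟨map_one _, map_zero _⟩
      | cons p w ih =>
        obtain ⟨h1, h2⟩ := ih
        have h3 : (show W.H X from lw W 0 (p :: w)) = p.2 * (show W.H X from lw W 0 w) :=
          congrArg (fun c => c * (show W.H X from lw W 0 w)) (hid p.1 p.2)
        have h4 : (show W.H X from dw W z 0 (p :: w)) = z p.2 * (show W.H X from lw W 0 w) +
            p.2 * (show W.H X from dw W z 0 w) := by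
          have h5 : dw W z 0 (p :: w) = W.map (prj X 0 p.1) (z p.2) * lw W 0 w +
            W.map (prj X 0 p.1) p.2 * dw W z 0 w := rfl
          rw [h5, hid, hid]
          rfl
        constructor
        · rw [h3, map_mul, h1, List.map_cons, lw]
        · rw [h4, map_add, map_mul, map_mul, h1, h2, List.map_cons, dw]
    rw [(key w).1, (key w).2]
    exact hδ ⟨w.map fun p => (i, p.2), fun p hp => by
      obtain ⟨q, hq, rfl⟩ := List.mem_map.1 hp
      exact hw q hq⟩

/-- **A derivation kills a class** if its forms are killed. -/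
lemma der_kill (hgen : Algebra.adjoin W.K (W.gr X 1 : Set (W.H X)) = ⊤)
    {δ : W.H (pw X n) →ₗ[W.K] W.H (pw X n)}
    (hδ : ∀ w : Wd W X n, δ (lw W n w.1) = dw W z n w.1)
    (hk : ∀ w : Wd W X n, W.tr (pw X n) (dw W z n w.1) = 0) {c : W.H (pw X n)}
    (hc : ∀ w : Wd W X n, W.tr (pw X n) (c * dw W z n w.1) = 0) : δ c = 0 := by
  have htr : ∀ a, W.tr (pw X n) (δ a) = 0 := by
    intro a
    refine wd_ind W hgen (P := fun a => W.tr (pw X n) (δ a) = 0) ?_ ?_ ?_ ?_ a
    · rw [map_zero, map_zero]
    · intro a b ha hb; rw [map_add, map_add, ha, hb, add_zero]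
    · intro r a ha; rw [map_smul, map_smul, ha, smul_zero]
    · intro w; rw [hδ, hk]
  refine W.nondeg _ fun y => ?_
  refine wd_ind W hgen (P := fun y => W.tr (pw X n) (δ c * y) = 0) ?_ ?_ ?_ ?_ y
  · rw [mul_zero, map_zero]
  · intro a b ha hb; rw [mul_add, map_add, ha, hb, add_zero]
  · intro r a ha; rw [mul_smul_comm, map_smul, ha, smul_zero]
  · intro w
    have h1 := htr (c * lw W n w.1)
    rw [der_mul W hgen hδ, map_add, hδ, hc, add_zero] at h1
    exact h1

end

end Run7.h877.TX
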