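import Pool.Agent.Run7.h877.TX.Frm
import Pool.Agent.Y121.AH.Alg2

/-!
# Dual families and extension of the coefficients
-/

set_option autoImplicit false
set_option linter.unusedSectionVars false

open CategoryTheory AlgebraicGeometry TensorProduct

universe u

namespace Run7.h877.TX

open Module Matrix
open Pool.Agent.H914 hiding ev
open Pool.Agent.H914.VarClass Pool.Agent.H914.VarClass.Obj
  Pool.Agent.H914.WeilCohomology
open Pool.Agent.Y133.Half (pw prj pfst psnd prj_zero prj_last prj_castSucc exists_dual_class)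
open Pool.Agent.Y121.AH (em em_add em_zero em_smul em_mul em_map em_gr em_tr ex tmul_eq)
open Run7.h877.MT

variable {k : Type u} [Field k] {𝒱 : VarClass k} {ops : CycleOps 𝒱}

lemma dim_pw (X : 𝒱.Obj) (n : ℕ) : (pw X n).dim = (n + 1) * X.dim := by
  induction n with
  | zero => rw [zero_add, one_mul]; rfl
  | succ n ih =>
    have h : (pw X (n + 1)).dim = (pw X n).dim + X.dim := rfl
    rw [h, ih]
    ring

section

variable (W : WeilCohomology.{u, 0} ops) {X : 𝒱.Obj} {ι : Type} [Fintype ι] [DecidableEq ι]

/-- dual classes of a linearly independent family -/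
lemma exists_co {e : ι → W.H X} (he : LinearIndependent W.K e) :
    ∃ f : ι → W.H X, ∀ a b, W.tr X (e a * f b) = if a = b then 1 else 0 := by
  have h1 : ∀ b, ∃ φ : Dual W.K (W.H X), ∀ a, φ (e a) = if a = b then 1 else 0 := by
    intro b
    obtain ⟨φ, hφ⟩ := LinearMap.exists_extend (p := Submodule.span W.K (Set.range e))
      ((Basis.span he).coord b)
    refine ⟨φ, fun a => ?_⟩
    have h2 := LinearMap.congr_fun hφ (Basis.span he a)
    have h3 : ((Basis.span he a : Submodule.span W.K (Set.range e)) : W.H X) = e a :=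
      congrArg Subtype.val (Basis.span_apply he a)
    rw [LinearMap.comp_apply, Submodule.subtype_apply, Basis.coord_apply, Basis.repr_self,
      Finsupp.single_apply, h3] at h2
    exact h2
  choose φ hφ using h1
  choose f hf using fun b => exists_dual_class W (φ b)
  exact ⟨f, fun a b => by rw [hf, hφ]⟩

variable {W}

/-- The operator of multiplication by a power of the class of the divisor. -/
noncomputable def lam (W : WeilCohomology.{u, 0} ops) (X : 𝒱.Obj) (D : X.Cycles) (z : W.H X) :
    W.H X := W.cl X D ^ (X.dim - 1) * z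

lemma lam_eq {D : X.Cycles} (z : W.H X) :
    (LinearMap.mulLeft W.K (W.cl X D) ^ (X.dim - 1)) z = lam W X D z := by
  rw [LinearMap.pow_mulLeft, LinearMap.mulLeft_apply]
  rfl

lemma cl_pow_mem {D : X.Cycles} (hD : X.IsCyc 1 D) (r : ℕ) :
    W.cl X D ^ r ∈ W.gr X (2 * r) := by
  induction r with
  | zero => rw [pow_zero, mul_zero]; exact W.one_mem X
  | succ r ih => rw [pow_succ, mul_add]; exact W.mul_mem ih (W.cl_mem hD)

lemma lam_mem {D : X.Cycles} (hD : X.IsCyc 1 D) {z : W.H X} (hz : z ∈ W.gr X 1) :
    lam W X D z ∈ W.gr X (2 * (X.dim - 1) + 1) := W.mul_mem (cl_pow_mem hD _) hz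

lemma lam_vec {D : X.Cycles} (e : ι → W.H X) (v : ι → W.K) :
    vec (fun a => lam W X D (e a)) v = lam W X D (vec e v) := by
  rw [vec, vec, lam, Finset.mul_sum]
  refine Finset.sum_congr rfl fun a _ => ?_
  rw [lam, mul_smul_comm]

/-- **Dual families** for the form `tr (x D ^ (g - 1) y)`. -/
lemma exists_dual {D : X.Cycles} (hD : X.IsCyc 1 D) (hL : HardLefschetz W X D)
    (h0 : 0 < X.dim) {e : ι → W.H X} (he : LinearIndependent W.K e)
    (he1 : ∀ a, e a ∈ W.gr X 1) (hspan : ∀ z ∈ W.gr X 1, ∃ v, vec e v = z) :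
    ∃ x : ι → W.H X, IsDual W X x (fun a => lam W X D (e a)) (2 * (X.dim - 1) + 1) ∧
      ∀ z ∈ W.gr X 1, ∃ v, vec x v = z := by
  have hL1 := hL 1 h0
  have hy : LinearIndependent W.K fun a => lam W X D (e a) := by
    rw [Fintype.linearIndependent_iff]
    intro c hc
    have h1 : lam W X D (vec e c) = 0 := by
      rw [← lam_vec]
      exact hc
    have h2 := hL1.1 (vec e c) (vec_mem he1 c) (by rw [lam_eq, h1])
    exact Fintype.linearIndependent_iff.1 he c h2
  obtain ⟨f, hf⟩ := exists_co W hy
  let x : ι → W.H X := fun a => (-1 : W.K) ^ (1 * (2 * (X.dim - 1) + 1)) •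
    proj (W.isInternal X) 1 (f a)
  have hx1 : ∀ a, x a ∈ W.gr X 1 := fun a => Submodule.smul_mem _ _ (proj_mem _ _ _)
  have hdual : ∀ a b, W.tr X (x a * lam W X D (e b)) = if a = b then 1 else 0 := by
    intro a b
    have h1 : W.tr X (lam W X D (e b) * proj (W.isInternal X) 1 (f a)) =
        W.tr X (lam W X D (e b) * f a) := by
      refine gr_induction (W.isInternal X) (p := fun y =>
        W.tr X (lam W X D (e b) * proj (W.isInternal X) 1 y) =
          W.tr X (lam W X D (e b) * y)) ?_ ?_ (f a)
      · intro i y hy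
        by_cases h : i = 1
        · subst h; rw [proj_same _ hy]
        · rw [proj_ne _ hy h, mul_zero, map_zero,
            W.tr_eq_zero (W.mul_mem (lam_mem hD (he1 b)) hy) (by omega)]
      · intro a b ha hb
        rw [map_add, mul_add, mul_add, map_add, map_add, ha, hb]
    rw [smul_mul_assoc, W.comm (proj_mem _ _ _) (lam_mem hD (he1 b)), smul_smul, ← pow_add,
      map_smul, h1, hf, ← two_mul, pow_mul, neg_one_sq, one_pow, one_smul]
    simp only [eq_comm]
  refine ⟨x, ⟨hx1, fun a => lam_mem hD (he1 a), hdual⟩, fun z hz => ?_⟩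
  refine ⟨fun b => W.tr X (z * lam W X D (e b)), ?_⟩
  rw [← sub_eq_zero]
  refine W.nondeg _ fun u => ?_
  have h3 : ∀ w, W.tr X ((vec x (fun b => W.tr X (z * lam W X D (e b))) - z) *
      lam W X D (vec e w)) = 0 := by
    intro w
    rw [← lam_vec, sub_mul, map_sub, sub_eq_zero]
    rw [vec, vec, Finset.sum_mul_sum, Finset.mul_sum, map_sum, map_sum]
    rw [Finset.sum_congr rfl fun a _ => map_sum _ _ _, Finset.sum_comm]
    refine Finset.sum_congr rfl fun b _ => ?_
    rw [Finset.sum_eq_single b]
    · rw [smul_mul_smul_comm, map_smul, mul_smul_comm, map_smul, hdual, if_pos rfl, smul_eq_mul,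
        smul_eq_mul, mul_one, mul_comm]
    · intro a _ hab
      rw [smul_mul_smul_comm, map_smul, hdual, if_neg hab, smul_zero]
    · intro h
      exact absurd (Finset.mem_univ b) h
  have h4 : vec x (fun b => W.tr X (z * lam W X D (e b))) - z ∈ W.gr X 1 :=
    Submodule.sub_mem _ (vec_mem hx1 _) hz
  refine gr_induction (W.isInternal X) (p := fun u =>
    W.tr X ((vec x (fun b => W.tr X (z * lam W X D (e b))) - z) * u) = 0) ?_ ?_ u
  · intro i u hu
    by_cases hi : i = 2 * X.dim - 1
    · subst hi
      obtain ⟨a, ha, h5⟩ := hL1.2 u hu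
      obtain ⟨w, rfl⟩ := hspan a ha
      rw [lam_eq] at h5
      rw [← h5]
      exact h3 w
    · exact W.tr_eq_zero (W.mul_mem h4 hu) (by omega)
  · intro a b ha hb
    rw [mul_add, map_add, ha, hb, add_zero]

end

section Base

variable {W : WeilCohomology.{u, 0} ops} {L : Type} [Field L] [Algebra W.K L] {X : 𝒱.Obj}
  {ι : Type} [Fintype ι] [DecidableEq ι]

/-- the extension of the coefficients of a spanning family -/
lemma span_base {e : ι → W.H X} {d : ℕ} (hspan : ∀ z ∈ W.gr X d, ∃ v, vec e v = z) :
    ∀ z ∈ (baseW W L).gr X d, ∃ v, vec (W := baseW W L) (fun a => em W L (e a)) v = z := by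
  intro z hz
  refine base_induction (p := W.gr X d) (P := fun z => ∃ v, vec (W := baseW W L)
    (fun a => em W L (e a)) v = z) ?_ ?_ ?_ hz
  · refine ⟨0, ?_⟩
    rw [vec]
    simp only [Pi.zero_apply, zero_smul, Finset.sum_const_zero]
    rfl
  · rintro x y ⟨v, rfl⟩ ⟨w, rfl⟩
    refine ⟨v + w, ?_⟩
    have h : vec (W := baseW W L) (fun a => em W L (e a)) (v + w) =
        vec (W := baseW W L) (fun a => em W L (e a)) v + vec (W := baseW W L)
          (fun a => em W L (e a)) w := by
      rw [vec, vec, vec, ← Finset.sum_add_distrib]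
      refine Finset.sum_congr rfl fun a _ => ?_
      rw [Pi.add_apply, add_smul]
    exact h
  · intro l a ha
    obtain ⟨v, hv⟩ := hspan a ha
    refine ⟨fun a => (show (baseW W L).K from l) * ex W L (v a), ?_⟩
    have h1 : em W L a = ∑ i, ex W L (v i) • em W L (e i) := by
      rw [← hv, vec]
      have h2 : ∀ s : Finset ι, em W L (∑ i ∈ s, v i • e i) =
          ∑ i ∈ s, ex W L (v i) • em W L (e i) := by
        intro s
        induction s using Finset.induction_on with
        | empty => rw [Finset.sum_empty, Finset.sum_empty, em_zero]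
        | insert i s hi ih => rw [Finset.sum_insert hi, Finset.sum_insert hi, em_add, ih, em_smul]
      exact h2 _
    have h3 : vec (W := baseW W L) (fun a => em W L (e a))
        (fun a => (show (baseW W L).K from l) * ex W L (v a)) =
        (show (baseW W L).K from l) • em W L a := by
      rw [h1, vec, Finset.smul_sum]
      refine Finset.sum_congr rfl fun i _ => ?_
      rw [mul_smul]
    exact h3.trans (tmul_eq l a).symm

/-- the extension of the coefficients of a generated algebra -/
lemma gen_base {X : 𝒱.Obj} (h : Algebra.adjoin W.K (W.gr X 1 : Set (W.H X)) = ⊤) :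
    Algebra.adjoin (baseW W L).K ((baseW W L).gr X 1 : Set ((baseW W L).H X)) = ⊤ := by
  have h1 : ∀ a : W.H X, em W L a ∈
      Algebra.adjoin (baseW W L).K ((baseW W L).gr X 1 : Set ((baseW W L).H X)) := by
    intro a
    have ha : a ∈ Algebra.adjoin W.K (W.gr X 1 : Set (W.H X)) := by rw [h]; trivial
    induction ha using Algebra.adjoin_induction with
    | mem z hz => exact Algebra.subset_adjoin (em_gr hz)
    | algebraMap r =>
      rw [Algebra.algebraMap_eq_smul_one, em_smul]
      exact Subalgebra.smul_mem _ (Subalgebra.one_mem _) _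
    | add a b _ _ ha hb => rw [em_add]; exact Subalgebra.add_mem _ ha hb
    | mul a b _ _ ha hb => rw [em_mul]; exact Subalgebra.mul_mem _ ha hb
  refine top_le_iff.1 fun z _ => ?_
  refine tmul_induction (P := fun z => (show (baseW W L).H X from z) ∈
    Algebra.adjoin (baseW W L).K ((baseW W L).gr X 1 : Set ((baseW W L).H X))) ?_ ?_ ?_ z
  · exact Subalgebra.zero_mem _
  · intro x y hx hy; exact Subalgebra.add_mem _ hx hy
  · intro l a
    have h2 := tmul_eq (W := W) (L := L) l a
    have h3 : (show (baseW W L).K from l) • em W L a ∈ Algebra.adjoin (baseW W L).K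
      ((baseW W L).gr X 1 : Set ((baseW W L).H X)) := Subalgebra.smul_mem _ (h1 a) _
    rw [← h2] at h3
    exact h3

lemma ex_ite (p : Prop) [Decidable p] :
    ex W L (if p then 1 else 0) = if p then (1 : (baseW W L).K) else 0 := by
  split_ifs
  · exact map_one (algebraMap W.K L)
  · exact map_zero (algebraMap W.K L)

lemma co_base {e f : ι → W.H X} (h : ∀ a b, W.tr X (e a * f b) = if a = b then 1 else 0) :
    ∀ a b, (baseW W L).tr X (em W L (e a) * em W L (f b)) = if a = b then 1 else 0 := by
  intro a b
  rw [← em_mul, em_tr, h, ex_ite]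

lemma dual_base {x y : ι → W.H X} {o : ℕ} (h : IsDual W X x y o) :
    IsDual (baseW W L) X (fun a => em W L (x a)) (fun a => em W L (y a)) o :=
  ⟨fun a => em_gr (h.left a), fun a => em_gr (h.right a), co_base h.dual⟩

lemma lam_em {D : X.Cycles} (z : W.H X) :
    em W L (lam W X D z) = lam (baseW W L) X D (em W L z) := by
  have h : ∀ r : ℕ, em W L (W.cl X D ^ r * z) = (baseW W L).cl X D ^ r * em W L z := by
    intro r
    induction r with
    | zero => rw [pow_zero, pow_zero, one_mul, one_mul]
    | succ r ih =>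
      rw [pow_succ', pow_succ', mul_assoc, mul_assoc, em_mul, ih]
      rfl
  exact h _

lemma mon_em {n m : ℕ} (i : Fin m → Fin (n + 1)) (v : Fin m → W.H X) :
    mon (baseW W L) n i (fun s => em W L (v s)) = em W L (mon W n i v) := by
  rw [mon_apply, mon_apply]
  induction m with
  | zero => rw [List.ofFn_zero, List.ofFn_zero]; rfl
  | succ m ih =>
    rw [List.ofFn_succ, List.ofFn_succ, List.prod_cons, List.prod_cons, em_mul, em_map,
      ih (fun s => i s.succ) fun s => v s.succ]

lemma frm_em (e : ι → W.H X) {n m : ℕ} (i : Fin m → Fin (n + 1)) (c : W.H (pw X n)) :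
    frm (W := baseW W L) (fun a => em W L (e a)) n i (em W L c) = fun b => ex W L (frm e n i c b) := by
  funext b
  rw [frm, frm, mon_em, ← em_mul, em_tr]

lemma em_finset_sum {Z : 𝒱.Obj} {α : Type*} (s : Finset α) (f : α → W.H Z) :
    em W L (∑ i ∈ s, f i) = ∑ i ∈ s, em W L (f i) := by
  classical
  induction s using Finset.induction_on with
  | empty => rw [Finset.sum_empty, Finset.sum_empty, em_zero]
  | insert a s ha ih => rw [Finset.sum_insert ha, Finset.sum_insert ha, em_add, ih]

lemma cls_em (x : ι → W.H X) (n : ℕ) (t : (Fin (n + 1) → ι) → W.K) :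
    em W L (cls x n t) = cls (W := baseW W L) (fun a => em W L (x a)) n fun w => ex W L (t w) := by
  rw [cls, cls, em_finset_sum]
  refine Finset.sum_congr rfl fun w _ => ?_
  rw [em_smul, wd, wd, mon_em]

end Base

end Run7.h877.TX
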