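import Pool.Agent.Run7.h877.TX.GSide

/-!
# Tate forms and Tate classes
-/

set_option autoImplicit false
set_option linter.unusedSectionVars false

open CategoryTheory AlgebraicGeometry TensorProduct

universe u

namespace Run7.h877.TX

open Module Matrix
open Pool.Agent.H914 hiding ev
open Pool.Agent.H914.VarClass Pool.Agent.H914.VarClass.Obj
  Pool.Agent.H914.WeilCohomology
open Pool.Agent.Y133.Half (pw prj pfst psnd prj_zero prj_last prj_castSucc exists_dual_class)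
open Pool.Agent.Y121.AH hiding IsHodge
open Run7.h877.MT

variable {k : Type u} [Field k] {𝒱 : VarClass k} {ops : CycleOps 𝒱}

variable {T : Pool.Agent.Y121.AH.HodgeTheory ops} {X : 𝒱.Obj} {ℓ : ℕ} [Fact ℓ.Prime]
  [Algebra T.W.K ℚ_[ℓ]] {Γ : Type} [Group Γ] [TopologicalSpace Γ] (G : GAct T X ℓ Γ)
  {ι : Type} [Fintype ι] [DecidableEq ι]

lemma GAct.IsT.closed {G : GAct T X ℓ Γ} [IsTopologicalGroup Γ] [CompactSpace Γ] {n j : ℕ}
    {c : (baseW T.W ℚ_[ℓ]).H (pw X n)} (hc : c ∈ (baseW T.W ℚ_[ℓ]).gr (pw X n) (2 * j))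
    {Δ : Subgroup Γ} (hΔ : Δ.FiniteIndex) (h : ∀ g ∈ Δ, G.ρ n g c = G.ch g ^ j • c) :
    G.IsT n j c := by
  let S : Subgroup Γ :=
    { carrier := {g | G.ρ n g c = G.ch g ^ j • c}
      mul_mem' := by
        intro a b ha hb
        have ha' : G.ρ n a c = G.ch a ^ j • c := ha
        have hb' : G.ρ n b c = G.ch b ^ j • c := hb
        change G.ρ n (a * b) c = G.ch (a * b) ^ j • c
        rw [G.mul', hb', map_smul, ha', smul_smul]
        congr 1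
        change G.χ b ^ j * G.χ a ^ j = G.χ (a * b) ^ j
        rw [map_mul, mul_pow, mul_comm]
      one_mem' := by
        change G.ρ n 1 c = G.ch 1 ^ j • c
        have h1 : G.ch 1 = 1 := map_one G.χ
        rw [G.one', h1, one_pow, one_smul]
      inv_mem' := by
        intro a ha
        change G.ρ n a⁻¹ c = G.ch a⁻¹ ^ j • c
        have h1 : G.ρ n a⁻¹ (G.ρ n a c) = c := by
          rw [← G.mul', inv_mul_cancel, G.one']
        have ha' : G.ρ n a c = G.ch a ^ j • c := ha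
        rw [ha', map_smul] at h1
        have h2 : G.ch a⁻¹ * G.ch a = 1 := by
          change G.χ a⁻¹ * G.χ a = 1
          rw [← map_mul, inv_mul_cancel, map_one]
        have h3 : G.ch a⁻¹ ^ j • (G.ch a ^ j • G.ρ n a⁻¹ c) = G.ch a⁻¹ ^ j • c := by rw [h1]
        rwa [smul_smul, ← mul_pow, h2, one_pow, one_smul] at h3 }
  have hcl : IsClosed (S : Set Γ) := by
    have h1 : (S : Set Γ) = ⋂ φ : (baseW T.W ℚ_[ℓ]).H (pw X n) →ₗ[(baseW T.W ℚ_[ℓ]).K]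
        (baseW T.W ℚ_[ℓ]).K, {g | (show ℚ_[ℓ] from φ (G.ρ n g c)) =
          G.χ g ^ j * (show ℚ_[ℓ] from φ c)} := by
      ext g
      rw [Set.mem_iInter]
      constructor
      · intro hg φ
        have h2 : G.ρ n g c = G.ch g ^ j • c := hg
        change φ (G.ρ n g c) = _
        rw [h2, map_smul]
        rfl
      · intro hg
        change G.ρ n g c = G.ch g ^ j • c
        rw [← sub_eq_zero, ← Module.forall_dual_apply_eq_zero_iff (baseW T.W ℚ_[ℓ]).K]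
        intro φ
        rw [map_sub, map_smul, sub_eq_zero]
        exact hg φ
    rw [h1]
    exact isClosed_iInter fun φ => isClosed_eq (G.cρ n c φ)
      ((G.cχ.pow j).mul continuous_const)
  have hfi : S.FiniteIndex := Subgroup.finiteIndex_of_le (H := Δ) fun g hg => h g hg
  exact ⟨hc, S, S.isOpen_of_isClosed_of_finiteIndex hcl, fun g hg => hg⟩

lemma GAct.exists_op' (hG : G.HT) (n : ℕ) (hnt : Nontrivial (T.W.H (pw X n))) :
    ∃ U : Subgroup Γ, IsOpen (U : Set Γ) ∧ ∀ g ∈ U, ∃ F : Op (baseW T.W ℚ_[ℓ]) X n (G.ch g),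
      F.φ0 = G.ρ0 g ∧ F.φ = G.ρ n g := G.exists_op hG n hnt

/-- The form of the class with `ℓ`-adic coefficients. -/
noncomputable def frmL (ℓ : ℕ) [Fact ℓ.Prime] [Algebra T.W.K ℚ_[ℓ]] (e : ι → T.W.H X) (n : ℕ)
    {m : ℕ} (i : Fin m → Fin (n + 1)) (c : (baseW T.W ℚ_[ℓ]).H (pw X n)) :
    (Fin m → ι) → ℚ_[ℓ] :=
  frm (W := baseW T.W ℚ_[ℓ]) (fun a => em T.W ℚ_[ℓ] (e a)) n i c

/-- The class of the form with `ℓ`-adic coefficients. -/
noncomputable def clsL (ℓ : ℕ) [Fact ℓ.Prime] [Algebra T.W.K ℚ_[ℓ]] (x : ι → T.W.H X) (n : ℕ)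
    (t : (Fin (n + 1) → ι) → ℚ_[ℓ]) : (baseW T.W ℚ_[ℓ]).H (pw X n) :=
  cls (W := baseW T.W ℚ_[ℓ]) (fun a => em T.W ℚ_[ℓ] (x a)) n t

section Forms

variable {e f x : ι → T.W.H X} {D : X.Cycles}
  (hf : ∀ a b, T.W.tr X (e a * f b) = if a = b then 1 else 0)
  (he1 : ∀ a, e a ∈ T.W.gr X 1) (hspan : ∀ z ∈ T.W.gr X 1, ∃ v, vec e v = z)
  (hG : G.HT) {n : ℕ} (hnt : Nontrivial (T.W.H (pw X n)))

include hf he1 hspan hG hnt in
/-- **Tate classes give Tate forms.** -/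
lemma GAct.frm_tate {j : ℕ} {c : (baseW T.W ℚ_[ℓ]).H (pw X n)} (hc : G.IsT n j c) :
    ∃ U : Subgroup Γ, IsOpen (U : Set Γ) ∧ ∀ g ∈ U, ∀ (m l : ℕ), j + l = (pw X n).dim →
      ∀ (i : Fin m → Fin (n + 1)) (v : Fin m → ι → ℚ_[ℓ]),
        ev (frmL ℓ e n i c) (fun s => G.mat e f g *ᵥ v s) =
          G.χ g ^ l * ev (frmL ℓ e n i c) v := by
  obtain ⟨U, hU, hUF⟩ := G.exists_op' hG n hnt
  obtain ⟨hcg, U', hU', hUc⟩ := hc
  refine ⟨U ⊓ U', hU.inter hU', fun g hg m l hl i v => ?_⟩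
  obtain ⟨F, hF0, hF⟩ := hUF g hg.1
  have h1 := hUc g hg.2
  rw [← hF] at h1
  exact F.frm_eigen (e := fun a => em T.W ℚ_[ℓ] (e a)) (g := G.mat e f g) (r := 1)
    (fun v => by
      rw [one_smul, hF0]
      exact G.mat_eq hf he1 hspan g v) (G.ch_ne g) i h1 (l := l)
    (by rw [one_pow, one_mul, ← pow_add, hl]) v

include hG in
/-- the class of the divisor -/
lemma GAct.lam_eq (hD : X.IsCyc 1 D) : ∃ U : Subgroup Γ, IsOpen (U : Set Γ) ∧ ∀ g ∈ U,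
    ∀ z : (baseW T.W ℚ_[ℓ]).H X, G.ρ0 g (lam (baseW T.W ℚ_[ℓ]) X D z) =
      G.ch g ^ (X.dim - 1) • lam (baseW T.W ℚ_[ℓ]) X D (G.ρ0 g z) := by
  obtain ⟨-, U, hU, h⟩ := hG 0 1 (T.W.cl X D) (IsHodge.cl hD)
  refine ⟨U, hU, fun g hg z => ?_⟩
  have h1 : G.ρ0 g ((baseW T.W ℚ_[ℓ]).cl X D) = G.ch g • (baseW T.W ℚ_[ℓ]).cl X D := by
    have h2 := h g hg
    rw [pow_one] at h2
    exact h2
  have h3 : ∀ r : ℕ, G.ρ0 g ((baseW T.W ℚ_[ℓ]).cl X D ^ r * z) =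
      G.ch g ^ r • ((baseW T.W ℚ_[ℓ]).cl X D ^ r * G.ρ0 g z) := by
    intro r
    induction r with
    | zero => rw [pow_zero, pow_zero, one_mul, one_mul, one_smul]
    | succ r ih =>
      have h4 : G.ρ0 g ((baseW T.W ℚ_[ℓ]).cl X D * ((baseW T.W ℚ_[ℓ]).cl X D ^ r * z)) =
        G.ρ0 g ((baseW T.W ℚ_[ℓ]).cl X D) * G.ρ0 g ((baseW T.W ℚ_[ℓ]).cl X D ^ r * z) :=
        G.mul 0 g _ _
      rw [pow_succ', mul_assoc, h4, ih, h1, smul_mul_smul_comm, pow_succ', mul_assoc]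
  exact h3 _

lemma vec_lam (v : ι → ℚ_[ℓ]) : vec (W := baseW T.W ℚ_[ℓ])
    (fun a => em T.W ℚ_[ℓ] (lam T.W X D (e a))) v = lam (baseW T.W ℚ_[ℓ]) X D (vecL ℓ e v) := by
  rw [vecL, ← lam_vec]
  congr 1
  funext a
  exact lam_em _

include hf he1 hspan hG hnt in
/-- **Tate classes give Tate forms**, for the dual family. -/
lemma GAct.frm_lam_tate (h0 : 0 < X.dim) (hD : X.IsCyc 1 D) {m : ℕ} (hm : n + 1 = 2 * m)
    {c : (baseW T.W ℚ_[ℓ]).H (pw X n)} (hc : G.IsT n m c) :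
    ∃ U : Subgroup Γ, IsOpen (U : Set Γ) ∧ ∀ g ∈ U, ∀ v : Fin (n + 1) → ι → ℚ_[ℓ],
      ev (frmL ℓ (fun a => lam T.W X D (e a)) n (fun s : Fin (n + 1) => s) c)
        (fun s => G.mat e f g *ᵥ v s) =
      G.χ g ^ m * ev (frmL ℓ (fun a => lam T.W X D (e a)) n (fun s : Fin (n + 1) => s) c) v := by
  obtain ⟨U, hU, hUF⟩ := G.exists_op' hG n hnt
  obtain ⟨V, hV, hVD⟩ := G.lam_eq hG hD
  obtain ⟨hcg, U', hU', hUc⟩ := hc
  refine ⟨(U ⊓ U') ⊓ V, (hU.inter hU').inter hV, fun g hg v => ?_⟩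
  obtain ⟨F, hF0, hF⟩ := hUF g hg.1.1
  have h1 := hUc g hg.1.2
  rw [← hF] at h1
  exact F.frm_eigen (e := fun a => em T.W ℚ_[ℓ] (lam T.W X D (e a))) (g := G.mat e f g)
    (r := G.ch g ^ (X.dim - 1))
    (fun v => by
      rw [hF0, vec_lam, vec_lam]
      exact (hVD g hg.2 _).trans (congrArg (fun z => G.ch g ^ (X.dim - 1) •
        lam (baseW T.W ℚ_[ℓ]) X D z) (G.mat_eq hf he1 hspan g v))) (G.ch_ne g) (fun s : Fin (n + 1) => s) h1 (l := m)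
    (by
      rw [← pow_mul, ← pow_add, ← pow_add, dim_pw]
      congr 1
      obtain ⟨d, hd⟩ : ∃ d, X.dim = d + 1 := ⟨X.dim - 1, by omega⟩
      rw [hd, Nat.add_sub_cancel, ← two_mul, ← hm]
      ring) v

lemma GAct.ρ0_span {z : (baseW T.W ℚ_[ℓ]).H X} (g : Γ) (hz : z ∈ (baseW T.W ℚ_[ℓ]).gr X 1) :
    G.ρ0 g z ∈ (baseW T.W ℚ_[ℓ]).gr X 1 := G.ρ0_deg g hz

include hf he1 hspan hG hnt in
/-- **Tate forms give Tate classes.** -/
lemma GAct.cls_tate [IsTopologicalGroup Γ] [CompactSpace Γ] (h0 : 0 < X.dim) (hD : X.IsCyc 1 D)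
    (hd : IsDual T.W X x (fun a => lam T.W X D (e a)) (2 * (X.dim - 1) + 1))
    (hxs : ∀ z ∈ T.W.gr X 1, ∃ v, vec x v = z) {m : ℕ} (hm : n + 1 = 2 * m)
    {t : (Fin (n + 1) → ι) → ℚ_[ℓ]} {Δ : Subgroup Γ} (hΔ : Δ.FiniteIndex)
    (ht : ∀ g ∈ Δ, ∀ v : Fin (n + 1) → ι → ℚ_[ℓ],
      ev t (fun s => G.mat e f g *ᵥ v s) = G.χ g ^ m * ev t v) :
    G.IsT n m (clsL ℓ x n t) := by
  obtain ⟨U, hU, hUF⟩ := G.exists_op' hG n hnt
  obtain ⟨V, hV, hVD⟩ := G.lam_eq hG hD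
  have hU' : (U ⊓ V).FiniteIndex := by
    have h1 : IsOpen ((U ⊓ V : Subgroup Γ) : Set Γ) := hU.inter hV
    have h2 : Finite (Γ ⧸ (U ⊓ V)) := (U ⊓ V).quotient_finite_of_isOpen h1
    exact Subgroup.finiteIndex_of_finite_quotient
  have hfi : (Δ ⊓ (U ⊓ V)).FiniteIndex := inferInstance
  have hgr : clsL ℓ x n t ∈ (baseW T.W ℚ_[ℓ]).gr (pw X n) (2 * m) := by
    have h := cls_mem (W := baseW T.W ℚ_[ℓ]) (x := fun a => em T.W ℚ_[ℓ] (x a)) (d := 1)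
      (fun a => em_gr (hd.left a)) n t
    have h2 : (n + 1) * 1 = 2 * m := by omega
    rw [h2] at h
    exact h
  refine GAct.IsT.closed hgr hfi fun g hg => ?_
  obtain ⟨F, hF0, hF⟩ := hUF g hg.2.1
  obtain ⟨p, hp⟩ := exists_mat (W := baseW T.W ℚ_[ℓ]) (span_base hxs)
    (fun a => em_gr (hd.left a)) (φ := G.ρ0 g) fun z hz => G.ρ0_deg g hz
  have hgg : G.mat e f g * G.mat e f g⁻¹ = 1 := by
    rw [← G.rep_apply hf he1 hspan, ← G.rep_apply hf he1 hspan, ← map_mul, mul_inv_cancel,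
      map_one]
  rw [← hF]
  exact F.cls_eigen (dual_base hd) (g := G.mat e f g) (g' := G.mat e f g⁻¹) hgg
    (r := G.ch g ^ (X.dim - 1))
    (fun v => by
      rw [hF0, vec_lam, vec_lam]
      exact (hVD g hg.2.2 _).trans (congrArg (fun z => G.ch g ^ (X.dim - 1) •
        lam (baseW T.W ℚ_[ℓ]) X D z) (G.mat_eq hf he1 hspan g v)))
    (fun v => by rw [hF0]; exact hp v) (G.ch_ne g)
    (by
      rw [← pow_mul, ← pow_add, dim_pw]
      congr 1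
      obtain ⟨d, hd⟩ : ∃ d, X.dim = d + 1 := ⟨X.dim - 1, by omega⟩
      rw [hd, Nat.add_sub_cancel]
      ring) hm (ht g hg.1)

end Forms

end Run7.h877.TX
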