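import Pool.Agent.Run7.h877.TX.HForm
import Pool.Agent.Run7.h877.MT.Log

/-!
# Galois actions, Tate forms and Tate classes
-/

set_option autoImplicit false
set_option linter.unusedSectionVars false

open CategoryTheory AlgebraicGeometry TensorProduct

universe u

namespace Run7.h877.TX

open Module Matrix
open Pool.Agent.H914 hiding ev
open Pool.Agent.H914.VarClass Pool.Agent.H914.VarClass.Obj
  Pool.Agent.H914.WeilCohomology
open Pool.Agent.Y133.Half (pw prj pfst psnd prj_zero prj_last prj_castSucc exists_dual_class)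
open Pool.Agent.Y121.AH hiding IsHodge
open Run7.h877.MT

variable {k : Type u} [Field k] {𝒱 : VarClass k} {ops : CycleOps 𝒱}

/-- An action of the group on the cohomology of the powers of `X`. -/
structure GAct (T : Pool.Agent.Y121.AH.HodgeTheory ops) (X : 𝒱.Obj) (ℓ : ℕ) [Fact ℓ.Prime]
    [Algebra T.W.K ℚ_[ℓ]] (Γ : Type) [Group Γ] [TopologicalSpace Γ] where
  χ : Γ →* ℚ_[ℓ]
  cχ : Continuous χ
  ρ : ∀ n, Γ → ((baseW T.W ℚ_[ℓ]).H (pw X n) →ₗ[(baseW T.W ℚ_[ℓ]).K]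
    (baseW T.W ℚ_[ℓ]).H (pw X n))
  one' : ∀ n x, ρ n 1 x = x
  mul' : ∀ n g h x, ρ n (g * h) x = ρ n g (ρ n h x)
  cρ : ∀ n x (φ : (baseW T.W ℚ_[ℓ]).H (pw X n) →ₗ[(baseW T.W ℚ_[ℓ]).K] (baseW T.W ℚ_[ℓ]).K),
    Continuous fun g => (show ℚ_[ℓ] from φ (ρ n g x))
  mul : ∀ n g a b, ρ n g (a * b) = ρ n g a * ρ n g b
  comp : ∀ n (i : Fin (n + 1)) g (a : (baseW T.W ℚ_[ℓ]).H X),
    ρ n g ((baseW T.W ℚ_[ℓ]).map (prj X n i) a) = (baseW T.W ℚ_[ℓ]).map (prj X n i) (ρ 0 g a)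
  deg : ∀ n g i a, a ∈ (baseW T.W ℚ_[ℓ]).gr (pw X n) i → ρ n g a ∈ (baseW T.W ℚ_[ℓ]).gr (pw X n) i

variable {T : Pool.Agent.Y121.AH.HodgeTheory ops} {X : 𝒱.Obj} {ℓ : ℕ} [Fact ℓ.Prime]
  [Algebra T.W.K ℚ_[ℓ]] {Γ : Type} [Group Γ] [TopologicalSpace Γ] (G : GAct T X ℓ Γ)
  {ι : Type} [Fintype ι] [DecidableEq ι]

/-- The power of the character as a coefficient. -/
noncomputable def GAct.ch (g : Γ) : (baseW T.W ℚ_[ℓ]).K := G.χ g

lemma GAct.ch_ne (g : Γ) : G.ch g ≠ 0 := by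
  intro h
  have h1 : G.χ (g * g⁻¹) = 0 := by
    rw [map_mul]
    exact mul_eq_zero_of_left h _
  rw [mul_inv_cancel, map_one] at h1
  exact one_ne_zero h1

/-- Tate classes of codimension `j`. -/
def GAct.IsT (n j : ℕ) (c : (baseW T.W ℚ_[ℓ]).H (pw X n)) : Prop :=
  c ∈ (baseW T.W ℚ_[ℓ]).gr (pw X n) (2 * j) ∧ ∃ U : Subgroup Γ, IsOpen (U : Set Γ) ∧
    ∀ g ∈ U, G.ρ n g c = G.ch g ^ j • c

/-- Hodge classes are Tate classes. -/
def GAct.HT : Prop := ∀ n j c, Pool.Agent.Y121.AH.IsHodge T (pw X n) j c →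
  G.IsT n j (em T.W ℚ_[ℓ] c)

/-- the top degree -/
lemma tr_of_top {W : WeilCohomology.{u, 0} ops} {Z : 𝒱.Obj} {l : W.H Z}
    (hl : l ∈ W.gr Z (2 * Z.dim)) (hl1 : W.tr Z l = 1) {φ : W.H Z →ₗ[W.K] W.H Z} {r : W.K}
    (hφ : φ l = r • l) (hd : ∀ i, ∀ a ∈ W.gr Z i, φ a ∈ W.gr Z i) (c : W.H Z) :
    W.tr Z (φ c) = r * W.tr Z c := by
  refine gr_induction (W.isInternal Z) (p := fun c => W.tr Z (φ c) = r * W.tr Z c) ?_ ?_ c
  · intro i x hx
    by_cases hi : i = 2 * Z.dim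
    · subst hi
      have h1 : x = W.tr Z x • l := by
        rw [← sub_eq_zero]
        refine W.nondeg _ fun b => ?_
        refine gr_induction (W.isInternal Z) (p := fun b =>
          W.tr Z ((x - W.tr Z x • l) * b) = 0) ?_ ?_ b
        · intro j b hb
          have h2 : x - W.tr Z x • l ∈ W.gr Z (2 * Z.dim) :=
            Submodule.sub_mem _ hx (Submodule.smul_mem _ _ hl)
          by_cases hj : j = 0
          · subst hj
            rw [W.gr_zero] at hb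
            obtain ⟨s, rfl⟩ := Submodule.mem_span_singleton.1 hb
            rw [mul_smul_comm, mul_one, map_smul, map_sub, map_smul, hl1, smul_eq_mul, smul_eq_mul,
              mul_one, sub_self, mul_zero]
          · exact W.tr_eq_zero (W.mul_mem h2 hb) (by omega)
        · intro a b ha hb
          rw [mul_add, map_add, ha, hb, add_zero]
      rw [h1, map_smul, hφ, smul_comm, map_smul, smul_eq_mul]
    · rw [W.tr_eq_zero (hd i x hx) hi, W.tr_eq_zero hx hi, mul_zero]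
  · intro a b ha hb
    rw [map_add, map_add, ha, hb, map_add, mul_add]

/-- **The operators of an open subgroup.** -/
lemma GAct.exists_op (hG : G.HT) (n : ℕ) (hnt : Nontrivial (T.W.H (pw X n))) :
    ∃ U : Subgroup Γ, IsOpen (U : Set Γ) ∧ ∀ g ∈ U, ∃ F : Op (baseW T.W ℚ_[ℓ]) X n (G.ch g),
      F.φ0 = G.ρ 0 g ∧ F.φ = G.ρ n g := by
  obtain ⟨l, hl, hl1⟩ := exists_tr_hodge T (pw X n)
  obtain ⟨hlg, U, hU, hUl⟩ := hG n _ l hl
  have h1 : Pool.Agent.Y121.AH.IsHodge T (pw X n) 0 (1 : T.W.H (pw X n)) :=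
    Pool.Agent.N996.BP.Geo.isHodge_one
  obtain ⟨-, U', hU', hU1⟩ := hG n 0 _ h1
  refine ⟨U ⊓ U', hU.inter hU', fun g hg => ⟨
    { φ0 := G.ρ 0 g
      φ := G.ρ n g
      one := ?_
      mul := G.mul n g
      comp := fun i a => G.comp n i g a
      tr := ?_ }, rfl, rfl⟩⟩
  · have h2 := hU1 g hg.2
    rw [pow_zero, one_smul] at h2
    exact h2
  · intro c
    refine tr_of_top (W := baseW T.W ℚ_[ℓ]) (l := em T.W ℚ_[ℓ] l) hlg ?_ (hUl g hg.1)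
      (fun i a ha => G.deg n g i a ha) c
    rw [em_tr, hl1]
    exact map_one (algebraMap T.W.K ℚ_[ℓ])

section Mat

/-- The operator on the cohomology of `X`. -/
noncomputable def GAct.ρ0 (g : Γ) : (baseW T.W ℚ_[ℓ]).H X →ₗ[(baseW T.W ℚ_[ℓ]).K]
    (baseW T.W ℚ_[ℓ]).H X := G.ρ 0 g

lemma GAct.ρ0_deg (g : Γ) {i : ℕ} {a : (baseW T.W ℚ_[ℓ]).H X}
    (ha : a ∈ (baseW T.W ℚ_[ℓ]).gr X i) : G.ρ0 g a ∈ (baseW T.W ℚ_[ℓ]).gr X i := G.deg 0 g i a ha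

variable {e f : ι → T.W.H X}
  (hf : ∀ a b, T.W.tr X (e a * f b) = if a = b then 1 else 0)
  (he1 : ∀ a, e a ∈ T.W.gr X 1) (hspan : ∀ z ∈ T.W.gr X 1, ∃ v, vec e v = z)

/-- The vector in `H^1(X, ℚ_ℓ)`. -/
noncomputable def vecL (ℓ : ℕ) [Fact ℓ.Prime] [Algebra T.W.K ℚ_[ℓ]] (e : ι → T.W.H X)
    (v : ι → ℚ_[ℓ]) : (baseW T.W ℚ_[ℓ]).H X :=
  vec (W := baseW T.W ℚ_[ℓ]) (fun a => em T.W ℚ_[ℓ] (e a)) v

/-- The matrix of the operator on `H^1(X, ℚ_ℓ)`. -/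
noncomputable def GAct.mat (e f : ι → T.W.H X) (g : Γ) : Matrix ι ι ℚ_[ℓ] :=
  Matrix.of fun b a => (baseW T.W ℚ_[ℓ]).tr X (G.ρ0 g (em T.W ℚ_[ℓ] (e a)) * em T.W ℚ_[ℓ] (f b))

include hf he1 hspan in
lemma GAct.mat_eq (g : Γ) (v : ι → ℚ_[ℓ]) :
    G.ρ0 g (vecL ℓ e v) = vecL ℓ e (G.mat e f g *ᵥ v) := by
  have h1 : ∀ a, G.ρ0 g (em T.W ℚ_[ℓ] (e a)) = vecL ℓ e fun b => G.mat e f g b a := by
    intro a
    obtain ⟨w, hw⟩ := span_base (L := ℚ_[ℓ]) hspan _ (G.ρ0_deg g (em_gr (he1 a)))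
    have h2 : w = fun b => G.mat e f g b a := by
      funext b
      have h3 := vec_co (W := baseW T.W ℚ_[ℓ]) (co_base hf) w b
      rw [hw] at h3
      exact h3.symm
    rw [← h2]
    exact hw.symm
  rw [vecL, vec, map_sum]
  have h4 : ∀ a, G.ρ0 g ((show (baseW T.W ℚ_[ℓ]).K from v a) • em T.W ℚ_[ℓ] (e a)) =
      ∑ b, (show (baseW T.W ℚ_[ℓ]).K from (G.mat e f g b a * v a : ℚ_[ℓ])) •
        em T.W ℚ_[ℓ] (e b) := by
    intro a
    rw [map_smul, h1, vecL, vec, Finset.smul_sum]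
    refine Finset.sum_congr rfl fun b _ => ?_
    rw [smul_smul]
    congr 1
    exact mul_comm _ _
  refine (Finset.sum_congr rfl fun a _ => h4 a).trans ?_
  rw [Finset.sum_comm, vecL, vec]
  refine Finset.sum_congr rfl fun b _ => ?_
  rw [← Finset.sum_smul]
  rfl

include hf in
lemma vecL_inj {v w : ι → ℚ_[ℓ]} (h : vecL ℓ e v = vecL ℓ e w) : v = w :=
  vec_inj (W := baseW T.W ℚ_[ℓ]) (co_base hf) h

/-- The representation on `H^1(X, ℚ_ℓ)` in coordinates. -/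
noncomputable def GAct.rep : Γ →* Matrix ι ι ℚ_[ℓ] where
  toFun := G.mat e f
  map_one' := by
    refine Matrix.toLin'.injective (LinearMap.ext fun v => ?_)
    rw [Matrix.toLin'_apply, Matrix.toLin'_apply, Matrix.one_mulVec]
    refine vecL_inj hf ?_
    rw [← G.mat_eq hf he1 hspan]
    exact G.one' 0 _
  map_mul' g h := by
    refine Matrix.toLin'.injective (LinearMap.ext fun v => ?_)
    rw [Matrix.toLin'_apply, Matrix.toLin'_apply, ← Matrix.mulVec_mulVec]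
    refine vecL_inj hf ?_
    rw [← G.mat_eq hf he1 hspan, ← G.mat_eq hf he1 hspan, ← G.mat_eq hf he1 hspan]
    exact G.mul' 0 g h _

lemma GAct.rep_apply (g : Γ) : G.rep hf he1 hspan g = G.mat e f g := rfl

lemma GAct.continuous_rep : Continuous (G.rep hf he1 hspan) := by
  refine continuous_matrix fun b a => ?_
  let φ : (baseW T.W ℚ_[ℓ]).H (pw X 0) →ₗ[(baseW T.W ℚ_[ℓ]).K] (baseW T.W ℚ_[ℓ]).K :=
    (baseW T.W ℚ_[ℓ]).tr X ∘ₗ LinearMap.mulRight (baseW T.W ℚ_[ℓ]).K (em T.W ℚ_[ℓ] (f b))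
  exact G.cρ 0 (em T.W ℚ_[ℓ] (e a)) φ

end Mat

end Run7.h877.TX
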