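import Pool.Agent.Run7.h877.TX.HSide

/-!
# Hodge forms and Hodge classes
-/

set_option autoImplicit false
set_option linter.unusedSectionVars false

open CategoryTheory AlgebraicGeometry TensorProduct

universe u

namespace Run7.h877.TX

open Module Matrix
open Pool.Agent.H914 hiding ev
open Pool.Agent.H914.VarClass Pool.Agent.H914.VarClass.Obj
  Pool.Agent.H914.WeilCohomology
open Pool.Agent.Y133.Half (pw prj pfst psnd prj_zero prj_last prj_castSucc exists_dual_class)
open Pool.Agent.Y121.AH hiding IsHodge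
open Pool.Agent.N996.BP (IsPHS)
open Pool.Agent.N996.BP.Geo (tauT Fx lop cc lop_pq lop_mul lop_map lop_one tr_lop lop_inv lop_hodge
  lop_two)
open Run7.h877.MT

variable {k : Type u} [Field k] {𝒱 : VarClass k} {ops : CycleOps 𝒱}

variable {T : Pool.Agent.Y121.AH.HodgeTheory ops} {X : 𝒱.Obj} {ι : Type} [Fintype ι]
  [DecidableEq ι]

/-- The form with rational coefficients. -/
noncomputable def frmQ (T : Pool.Agent.Y121.AH.HodgeTheory ops) {X : 𝒱.Obj} (e : ι → T.W.H X)
    (n : ℕ) {m : ℕ} (i : Fin m → Fin (n + 1)) (c : T.W.H (pw X n)) : (Fin m → ι) → ℚ :=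
  fun b => toQ T.rat (frm (W := T.W) e n i c b)

/-- The extension of the coefficients of the form. -/
lemma cst_frmQ {L : Type} [Field L] [Algebra T.W.K L] [CharZero L] (e : ι → T.W.H X) {n m : ℕ}
    (i : Fin m → Fin (n + 1)) (c : T.W.H (pw X n)) :
    cst L (frmQ T e n i c) = frm (W := baseW T.W L) (fun a => em T.W L (e a)) n i (em T.W L c) := by
  rw [frm_em]
  funext b
  exact (ex_toQ _).symm

/-- The rational class with rational coefficients. -/
noncomputable def clsQ (T : Pool.Agent.Y121.AH.HodgeTheory ops) {X : 𝒱.Obj} (x : ι → T.W.H X)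
    (n : ℕ) (t : (Fin (n + 1) → ι) → ℚ) : T.W.H (pw X n) :=
  cls (W := T.W) x n fun w => ((t w : ℚ) : T.W.K)

lemma em_clsQ {L : Type} [Field L] [Algebra T.W.K L] [CharZero L] (x : ι → T.W.H X) {n : ℕ}
    (t : (Fin (n + 1) → ι) → ℚ) :
    em T.W L (clsQ T x n t) = cls (W := baseW T.W L) (fun a => em T.W L (x a)) n (cst L t) := by
  rw [clsQ, cls_em]
  congr 1
  funext w
  exact ex_rat (t w)

lemma sgn_cast (K : Type) [Field K] [CharZero K] (o n : ℕ) :
    sgn K o n = ((sgn ℚ o n : ℚ) : K) := by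
  induction n with
  | zero => rw [sgn, sgn, Rat.cast_one]
  | succ n ih => rw [sgn, sgn, ih, Rat.cast_mul, Rat.cast_pow, Rat.cast_neg, Rat.cast_one]

lemma prod_zpow {K : Type*} [Field K] {t : K} (ht : t ≠ 0) {α : Type*} (s : Finset α)
    (f : α → ℤ) : ∏ j ∈ s, t ^ f j = t ^ ∑ j ∈ s, f j := by
  classical
  induction s using Finset.induction_on with
  | empty => rw [Finset.prod_empty, Finset.sum_empty, zpow_zero]
  | insert i s hi ih => rw [Finset.prod_insert hi, Finset.sum_insert hi, ih, zpow_add₀ ht]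

/-- Forms and classes with rational coefficients. -/
lemma frmQ_clsQ {x y : ι → T.W.H X} {o : ℕ} (h : IsDual T.W X x y o) (n : ℕ)
    (t : (Fin (n + 1) → ι) → ℚ) :
    frmQ T y n (fun s : Fin (n + 1) => s) (clsQ T x n t) = sgn ℚ o n • t := by
  funext b
  rw [frmQ, clsQ, frm_cls h]
  rw [Pi.smul_apply, Pi.smul_apply, sgn_cast T.W.K o n, smul_eq_mul, smul_eq_mul, ← Rat.cast_mul, toQ_rat]

section Hodge

variable {e f : ι → T.W.H X} {ψ : LinearMap.BilinForm T.W.K (T.W.H X)} {d : ℕ}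
  (hP : IsPHS (tauT T) (Fx T X) ψ d)
  (hf : ∀ a b, T.W.tr X (e a * f b) = if a = b then 1 else 0)
  (he1 : ∀ a, e a ∈ T.W.gr X 1) (hspan : ∀ z ∈ T.W.gr X 1, ∃ v, vec e v = z)

/-- The operator `t ^ (p - q)`. -/
noncomputable def lopOp (T : Pool.Agent.Y121.AH.HodgeTheory ops) (X : 𝒱.Obj) (n : ℕ) {t : ℂ}
    (ht : t ≠ 0) : Op (CW T) X n 1 where
  φ0 := lop T t X
  φ := lop T t (pw X n)
  one := lop_one
  mul := lop_mul ht
  comp i a := lop_map _ a
  tr c := by rw [one_pow, one_mul, tr_lop]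

include hf he1 hspan in
/-- The matrix of the operator on `H^1(X)`. -/
lemma exists_lopM (t : ℂ) : ∃ M : Matrix ι ι ℂ,
    (∀ q, ∀ x ∈ (HS hP hf he1 hspan).V q, M *ᵥ x = t ^ (2 * q - 1) • x) ∧
    ∀ v, lop T t X (vecC e v) = vecC e (M *ᵥ v) := by
  obtain ⟨M, hM⟩ := exists_op (HS hP hf he1 hspan) fun q => t ^ (2 * q - 1)
  refine ⟨M, hM, fun v => ?_⟩
  have hv : v ∈ ⨆ q, VH T e q := by rw [VH_top hf he1 hspan]; trivial
  refine Submodule.iSup_induction (fun q => VH T e q)
    (motive := fun v => lop T t X (vecC e v) = vecC e (M *ᵥ v)) hv ?_ ?_ ?_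
  · intro q v hv
    rw [hM q v hv, vecC_smul, lop_pq (mem_VH.1 hv)]
    congr 1
    have h : q - (1 - q) = 2 * q - 1 := by ring
    rw [h]
    rfl
  · rw [vecC_zero, map_zero, Matrix.mulVec_zero, vecC_zero]
  · intro v w hv hw
    rw [vecC_add, map_add, hv, hw, Matrix.mulVec_add, vecC_add]

/-- invariance of Hodge forms -/
lemma isHodge_inv {t : ℂ} (ht : t ≠ 0) {M : Matrix ι ι ℂ}
    (hM : ∀ q, ∀ x ∈ (HS hP hf he1 hspan).V q, M *ᵥ x = t ^ (2 * q - 1) • x) {n m : ℕ}
    (hm : 2 * m = n * 1) {a : (Fin n → ι) → ℚ} (ha : IsHodge (HS hP hf he1 hspan) m a)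
    (v : Fin n → ι → ℂ) : ev (cst ℂ a) (fun s => M *ᵥ v s) = ev (cst ℂ a) v := by
  have h1 : ga M (cst ℂ a) = cst ℂ a := by
    refine ext_ev (HS hP hf he1 hspan) fun q v hv => ?_
    rw [← ev_ga]
    by_cases hq : ∑ j, q j = m
    · have h2 : (fun j => M *ᵥ v j) = fun j => t ^ (2 * q j - 1) • v j :=
        funext fun j => hM _ _ (hv j)
      rw [h2, ← evM_apply, MultilinearMap.map_smul_univ, evM_apply, smul_eq_mul]
      have h3 : ∏ j, t ^ (2 * q j - 1) = 1 := by
        rw [prod_zpow ht]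
        have h4 : ∑ j, (2 * q j - 1) = 0 := by
          rw [Finset.sum_sub_distrib, ← Finset.mul_sum, hq, Finset.sum_const, Finset.card_univ,
            Fintype.card_fin]
          have : (2 * (m : ℤ)) = n := by exact_mod_cast (by omega : 2 * m = n)
          rw [this]
          simp
        rw [h4, zpow_zero]
      rw [h3, one_mul]
    · rw [ha q v hv hq]
      have h2 : (fun j => M *ᵥ v j) = fun j => t ^ (2 * q j - 1) • v j :=
        funext fun j => hM _ _ (hv j)
      rw [h2, ← evM_apply, MultilinearMap.map_smul_univ, evM_apply, ha q v hv hq, smul_zero]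
  rw [ev_ga, h1]

/-- invariant forms are Hodge forms -/
lemma isHodge_of_inv {M : Matrix ι ι ℂ}
    (hM : ∀ q, ∀ x ∈ (HS hP hf he1 hspan).V q, M *ᵥ x = (2 : ℂ) ^ (2 * q - 1) • x) {n m : ℕ}
    (hm : 2 * m = n * 1) {a : (Fin n → ι) → ℚ}
    (h : ∀ v : Fin n → ι → ℂ, ev (cst ℂ a) (fun s => M *ᵥ v s) = ev (cst ℂ a) v) :
    IsHodge (HS hP hf he1 hspan) m a := by
  intro q v hv hq
  have h1 := h v
  have h2 : (fun j => M *ᵥ v j) = fun j => (2 : ℂ) ^ (2 * q j - 1) • v j :=
    funext fun j => hM _ _ (hv j)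
  rw [h2, ← evM_apply, MultilinearMap.map_smul_univ, evM_apply, smul_eq_mul,
    prod_zpow two_ne_zero] at h1
  have h4 : ∑ j, (2 * q j - 1) = 2 * (∑ j, q j) - n := by
    rw [Finset.sum_sub_distrib, ← Finset.mul_sum, Finset.sum_const, Finset.card_univ,
      Fintype.card_fin]
    simp
  rw [h4] at h1
  have h5 : 2 * (∑ j, q j) - (n : ℤ) ≠ 0 := by
    intro h0
    apply hq
    have : (2 * (m : ℤ)) = n := by exact_mod_cast (by omega : 2 * m = n)
    omega
  have h6 : (2 : ℂ) ^ (2 * (∑ j, q j) - (n : ℤ)) ≠ 1 := by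
    intro h7
    have h8 := congrArg norm h7
    rw [norm_zpow, norm_one, Complex.norm_ofNat] at h8
    have h9 : (2 : ℝ) ^ (2 * (∑ j, q j) - (n : ℤ)) = (2 : ℝ) ^ (0 : ℤ) := by
      rw [h8, zpow_zero]
    exact h5 (zpow_right_injective₀ (by norm_num : (0 : ℝ) < 2) (by norm_num) h9)
  have h9 : ((2 : ℂ) ^ (2 * (∑ j, q j) - (n : ℤ)) - 1) * ev (cst ℂ a) v = 0 := by
    rw [sub_mul, one_mul, h1, sub_self]
  exact (mul_eq_zero.1 h9).resolve_left (sub_ne_zero.2 h6)

/-- **Hodge classes give Hodge forms.** -/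
lemma isHodge_frmQ {n m j l : ℕ} (i : Fin m → Fin (n + 1)) (hm : 2 * l = m * 1)
    {c : T.W.H (pw X n)} (hc : Pool.Agent.Y121.AH.IsHodge T (pw X n) j c) :
    IsHodge (HS hP hf he1 hspan) l (frmQ T e n i c) := by
  obtain ⟨M, hM, hM'⟩ := exists_lopM hP hf he1 hspan 2
  refine isHodge_of_inv hP hf he1 hspan hM hm fun v => ?_
  rw [cst_frmQ]
  have h1 := (lopOp T X n two_ne_zero).frm_eigen (e := fun a => em T.W ℂ (e a)) (g := M) (r := 1)
    (fun v => by rw [one_smul]; exact hM' v) one_ne_zero (j := 0) (l := 0) i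
    (c := em T.W ℂ c) (by rw [one_pow, one_smul]; exact lop_hodge hc) (by simp) v
  rw [one_pow, one_mul] at h1
  exact h1

/-- **A class with Hodge forms is a Hodge class.** -/
lemma isHodge_of_frmQ (hgen : Algebra.adjoin T.W.K (T.W.gr X 1 : Set (T.W.H X)) = ⊤)
    {n j : ℕ} {c : T.W.H (pw X n)} (hc : c ∈ T.W.gr (pw X n) (2 * j))
    (h : ∀ (m l : ℕ), 2 * j + m = 2 * (pw X n).dim → 2 * l = m * 1 → ∀ (i : Fin m → Fin (n + 1)),
      IsHodge (HS hP hf he1 hspan) l (frmQ T e n i c)) :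
    Pool.Agent.Y121.AH.IsHodge T (pw X n) j c := by
  obtain ⟨M, hM, hM'⟩ := exists_lopM hP hf he1 hspan 2
  obtain ⟨M', hMi, -⟩ := exists_lopM hP hf he1 hspan 2⁻¹
  have hMM : M * M' = 1 := by
    refine ext_mulVec (HS hP hf he1 hspan) fun q x hx => ?_
    rw [← Matrix.mulVec_mulVec, hMi q x hx, Matrix.mulVec_smul, hM q x hx, smul_smul,
      ← mul_zpow, inv_mul_cancel₀ two_ne_zero, _root_.one_zpow, one_smul, Matrix.one_mulVec]
  refine isHodge_of_fix hc ?_
  rw [← lop_two]
  have h1 := (lopOp T X n two_ne_zero).eigen_of_frm (e := fun a => em T.W ℂ (e a)) (g := M)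
    (g' := M') hMM hM' (fun a => em_gr (he1 a)) (span_base hspan) (gen_base hgen) (j := j)
    (c := em T.W ℂ c) (em_gr hc) (fun m hm i v => by
      rw [one_pow, one_pow, one_mul, one_mul]
      have h2 := isHodge_inv hP hf he1 hspan two_ne_zero hM (n := m) (m := (pw X n).dim - j)
        (by omega) (h m ((pw X n).dim - j) hm (by omega) i) v
      rw [cst_frmQ] at h2
      exact h2)
  rw [one_pow, one_smul] at h1
  exact h1

/-- the operator on the dual family -/
lemma exists_mat {W : WeilCohomology.{u, 0} ops} {X : 𝒱.Obj} {x : ι → W.H X}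
    (hx : ∀ z ∈ W.gr X 1, ∃ v, vec x v = z) (hx1 : ∀ a, x a ∈ W.gr X 1)
    {φ : W.H X →ₗ[W.K] W.H X} (hφ : ∀ z ∈ W.gr X 1, φ z ∈ W.gr X 1) :
    ∃ p : Matrix ι ι W.K, ∀ v, φ (vec x v) = vec x (p *ᵥ v) := by
  choose p hp using fun a => hx (φ (x a)) (hφ _ (hx1 a))
  refine ⟨Matrix.of fun b a => p a b, fun v => ?_⟩
  have h1 : φ (vec x v) = ∑ a, v a • vec x (p a) := by
    rw [vec, map_sum]
    refine Finset.sum_congr rfl fun a _ => ?_
    rw [map_smul, hp]
  rw [h1, vec]
  have h2 : ∀ a, v a • vec x (p a) = ∑ b, (p a b * v a) • x b := by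
    intro a
    rw [vec, Finset.smul_sum]
    refine Finset.sum_congr rfl fun b _ => ?_
    rw [smul_smul, mul_comm]
  rw [Finset.sum_congr rfl fun a _ => h2 a, Finset.sum_comm]
  refine Finset.sum_congr rfl fun b _ => ?_
  rw [← Finset.sum_smul]
  rfl

lemma lop_gr1 {t : ℂ} {z : (CW T).H X} (hz : z ∈ (CW T).gr X 1) :
    lop T t X z ∈ (CW T).gr X 1 := by
  refine base_induction (p := T.W.gr X 1) (P := fun z => lop T t X z ∈ (CW T).gr X 1) ?_ ?_ ?_ hz
  · have h : lop T t X (0 : (CW T).H X) ∈ (CW T).gr X 1 := by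
      rw [map_zero]; exact Submodule.zero_mem _
    exact h
  · intro x y hx hy
    have h := map_add (lop T t X) x y
    exact h ▸ Submodule.add_mem _ hx hy
  · intro l a ha
    have h := tmul_eq (W := T.W) (L := ℂ) l a
    have h2 : lop T t X ((show (CW T).K from l) • em T.W ℂ a) ∈ (CW T).gr X 1 := by
      rw [map_smul]
      exact Submodule.smul_mem _ _ (Pool.Agent.N996.BP.Geo.lop_gr ha)
    rw [← h] at h2
    exact h2

/-- the operator commutes with the multiplication by the class of the divisor -/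
lemma lop_lam {t : ℂ} (ht : t ≠ 0) {D : X.Cycles} (hD : X.IsCyc 1 D) (z : (CW T).H X) :
    lop T t X (lam (CW T) X D z) = lam (CW T) X D (lop T t X z) := by
  have h1 : lop T t X ((CW T).cl X D) = (CW T).cl X D := lop_hodge (IsHodge.cl hD)
  have h : ∀ r : ℕ, lop T t X ((CW T).cl X D ^ r * z) = (CW T).cl X D ^ r * lop T t X z := by
    intro r
    induction r with
    | zero => rw [pow_zero, one_mul, one_mul]
    | succ r ih => rw [pow_succ', mul_assoc, mul_assoc, lop_mul ht, h1, ih]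
  exact h _

/-- **Hodge forms give Hodge classes.** -/
lemma isHodge_clsQ {D : X.Cycles} (hD : X.IsCyc 1 D) {x : ι → T.W.H X}
    (hd : IsDual T.W X x (fun a => lam T.W X D (e a)) (2 * (X.dim - 1) + 1))
    (hxs : ∀ z ∈ T.W.gr X 1, ∃ v, vec x v = z) {n m : ℕ} (hm : n + 1 = 2 * m)
    {a : (Fin (n + 1) → ι) → ℚ} (ha : IsHodge (HS hP hf he1 hspan) m a) :
    Pool.Agent.Y121.AH.IsHodge T (pw X n) m (clsQ T x n a) := by
  obtain ⟨M, hM, hM'⟩ := exists_lopM hP hf he1 hspan 2
  obtain ⟨M', hMi, -⟩ := exists_lopM hP hf he1 hspan 2⁻¹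
  have hMM : M * M' = 1 := by
    refine ext_mulVec (HS hP hf he1 hspan) fun q x hx => ?_
    rw [← Matrix.mulVec_mulVec, hMi q x hx, Matrix.mulVec_smul, hM q x hx, smul_smul,
      ← mul_zpow, inv_mul_cancel₀ two_ne_zero, _root_.one_zpow, one_smul, Matrix.one_mulVec]
  have hgr : clsQ T x n a ∈ T.W.gr (pw X n) (2 * m) := by
    have h := cls_mem (W := T.W) hd.left n fun w => ((a w : ℚ) : T.W.K)
    have h2 : (n + 1) * 1 = 2 * m := by omega
    rw [h2] at h
    exact h
  refine isHodge_of_fix hgr ?_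
  rw [← lop_two]
  obtain ⟨p, hp⟩ := exists_mat (W := CW T) (span_base hxs) (fun a => em_gr (hd.left a))
    (φ := lop T 2 X) fun z hz => lop_gr1 hz
  have h1 := (lopOp T X n two_ne_zero).cls_eigen (dual_base hd) (g := M) (g' := M') hMM (r := 1)
    (fun v => by
      rw [one_smul]
      have h2 : ∀ w, vec (W := CW T) (fun a => em T.W ℂ (lam T.W X D (e a))) w =
          lam (CW T) X D (vecC e w) := by
        intro w
        rw [vecC, ← lam_vec]
        congr 1
        funext a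
        exact lam_em _
      rw [h2, h2]
      exact (lop_lam two_ne_zero hD _).trans (congrArg _ (hM' v)))
    hp one_ne_zero (by simp) hm (t := cst ℂ a) (fun v => by
      rw [one_pow, one_mul]
      exact isHodge_inv hP hf he1 hspan two_ne_zero hM (by omega) ha v)
  rw [one_pow, one_smul, ← em_clsQ] at h1
  exact h1

/-- **Hodge classes give Hodge forms**, for the dual family. -/
lemma isHodge_frmQ_lam {D : X.Cycles} (hD : X.IsCyc 1 D) {n m j l : ℕ} (i : Fin m → Fin (n + 1))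
    (hm : 2 * l = m * 1) {c : T.W.H (pw X n)} (hc : Pool.Agent.Y121.AH.IsHodge T (pw X n) j c) :
    IsHodge (HS hP hf he1 hspan) l (frmQ T (fun a => lam T.W X D (e a)) n i c) := by
  obtain ⟨M, hM, hM'⟩ := exists_lopM hP hf he1 hspan 2
  refine isHodge_of_inv hP hf he1 hspan hM hm fun v => ?_
  rw [cst_frmQ]
  have h1 := (lopOp T X n two_ne_zero).frm_eigen
    (e := fun a => em T.W ℂ (lam T.W X D (e a))) (g := M) (r := 1)
    (fun v => by
      rw [one_smul]
      have h2 : ∀ w, vec (W := CW T) (fun a => em T.W ℂ (lam T.W X D (e a))) w =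
          lam (CW T) X D (vecC e w) := by
        intro w
        rw [vecC, ← lam_vec]
        congr 1
        funext a
        exact lam_em _
      rw [h2, h2]
      exact (lop_lam two_ne_zero hD _).trans (congrArg _ (hM' v)))
    one_ne_zero (j := 0) (l := 0) i
    (c := em T.W ℂ c) (by rw [one_pow, one_smul]; exact lop_hodge hc) (by simp) v
  rw [one_pow, one_mul] at h1
  exact h1

end Hodge

end Run7.h877.TX
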