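import Pool.Agent.Run7.h877.TX.Dual
import Pool.Agent.Run7.h877.MT.Hdg
import Pool.Agent.N996.BP.Geo1

/-!
# The Hodge structure on `H^1(X)` in coordinates, Hodge forms and Hodge classes
-/

set_option autoImplicit false
set_option linter.unusedSectionVars false

open CategoryTheory AlgebraicGeometry TensorProduct

universe u

namespace Run7.h877.TX

open Module Matrix
open Pool.Agent.H914 hiding ev
open Pool.Agent.H914.VarClass Pool.Agent.H914.VarClass.Obj
  Pool.Agent.H914.WeilCohomology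
open Pool.Agent.Y133.Half (pw prj pfst psnd prj_zero prj_last prj_castSucc exists_dual_class)
open Pool.Agent.Y121.AH
open Pool.Agent.N996.BP (IsPHS)
open Pool.Agent.N996.BP.Geo (tauT Fx lop cc lop_pq lop_mul lop_map lop_one tr_lop)
open Run7.h877.MT

variable {k : Type u} [Field k] {𝒱 : VarClass k} {ops : CycleOps 𝒱}

/-! ### Rational numbers -/

/-- The rational number equal to the element of the field. -/
noncomputable def toQ {K : Type} [Field K] (h : ∀ r : K, ∃ q : ℚ, (q : K) = r) (r : K) : ℚ :=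
  (h r).choose

lemma toQ_spec {K : Type} [Field K] (h : ∀ r : K, ∃ q : ℚ, (q : K) = r) (r : K) :
    ((toQ h r : ℚ) : K) = r := (h r).choose_spec

lemma toQ_rat {K : Type} [Field K] [CharZero K] (h : ∀ r : K, ∃ q : ℚ, (q : K) = r) (q : ℚ) :
    toQ h (q : K) = q := Rat.cast_injective (toQ_spec h (q : K))

variable {T : Pool.Agent.Y121.AH.HodgeTheory ops} {X : 𝒱.Obj} {ι : Type} [Fintype ι]
  [DecidableEq ι]

lemma ex_toQ {L : Type} [Field L] [Algebra T.W.K L] [CharZero L] (r : T.W.K) :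
    ex T.W L r = (((toQ T.rat r : ℚ) : L) : (baseW T.W L).K) := by
  conv_lhs => rw [← toQ_spec T.rat r]
  exact map_ratCast (algebraMap T.W.K L) _

/-- The vector in `H^1(X, ℂ)`. -/
noncomputable def vecC (e : ι → T.W.H X) (v : ι → ℂ) : (CW T).H X :=
  vec (W := CW T) (fun a => em T.W ℂ (e a)) v

variable {e f : ι → T.W.H X}

lemma vecC_add (v w : ι → ℂ) : vecC e (v + w) = vecC e v + vecC e w :=
  vec_add (W := CW T) _ v w

lemma vecC_smul (c : ℂ) (v : ι → ℂ) : vecC e (c • v) = cc T c • vecC e v :=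
  vec_smul (W := CW T) _ (cc T c) v

lemma vecC_zero : vecC e (0 : ι → ℂ) = 0 := vec_zero (W := CW T) _

lemma vecC_inj (hf : ∀ a b, T.W.tr X (e a * f b) = if a = b then 1 else 0) {v w : ι → ℂ}
    (h : vecC e v = vecC e w) : v = w :=
  vec_inj (W := CW T) (co_base hf) h

/-- The subspaces `H^(q, 1 - q)` in coordinates. -/
noncomputable def VH (T : Pool.Agent.Y121.AH.HodgeTheory ops) {X : 𝒱.Obj} (e : ι → T.W.H X)
    (q : ℤ) : Submodule ℂ (ι → ℂ) where
  carrier := {v | vecC e v ∈ T.pq X q (1 - q)}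
  add_mem' {v w} hv hw := by
    change vecC e (v + w) ∈ T.pq X q (1 - q)
    rw [vecC_add]
    exact Submodule.add_mem _ hv hw
  zero_mem' := by
    change vecC e 0 ∈ T.pq X q (1 - q)
    rw [vecC_zero]
    exact Submodule.zero_mem _
  smul_mem' c v hv := by
    change vecC e (c • v) ∈ T.pq X q (1 - q)
    rw [vecC_smul]
    exact Submodule.smul_mem _ _ hv

lemma mem_VH {q : ℤ} {v : ι → ℂ} : v ∈ VH T e q ↔ vecC e v ∈ T.pq X q (1 - q) := Iff.rfl

/-- the span of the subspaces -/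
lemma VH_top (hf : ∀ a b, T.W.tr X (e a * f b) = if a = b then 1 else 0)
    (he1 : ∀ a, e a ∈ T.W.gr X 1) (hspan : ∀ z ∈ T.W.gr X 1, ∃ v, vec e v = z) :
    (⨆ q, VH T e q) = ⊤ := by
  refine top_le_iff.1 fun v _ => ?_
  have h1 : vecC e v ∈ ⨆ r : {r : ℤ × ℤ // r.1 + r.2 = (1 : ℕ)}, T.pq X r.1.1 r.1.2 := by
    rw [vecC, vec]
    exact Submodule.sum_mem _ fun a _ => Submodule.smul_mem _ _ (T.dec.span (he1 a))
  have h2 : ∃ u ∈ ⨆ q, VH T e q, vecC e u = vecC e v := by
    refine Submodule.iSup_induction (fun r : {r : ℤ × ℤ // r.1 + r.2 = (1 : ℕ)} =>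
      T.pq X r.1.1 r.1.2) (motive := fun x => ∃ u ∈ ⨆ q, VH T e q, vecC e u = x) h1 ?_ ?_ ?_
    · rintro ⟨⟨a, b⟩, hr⟩ x hx
      have hr' : a + b = 1 := by exact_mod_cast hr
      obtain ⟨u, hu⟩ := span_base (L := ℂ) hspan x (T.dec.le X (i := 1) hr hx)
      refine ⟨u, ?_, hu⟩
      refine Submodule.mem_iSup_of_mem a ?_
      rw [mem_VH]
      have h3 : 1 - a = b := by omega
      rw [h3]
      have h4 : vecC e u = x := hu
      rw [h4]
      exact hx
    · exact ⟨0, Submodule.zero_mem _, vecC_zero⟩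
    · rintro x y ⟨u, hu, rfl⟩ ⟨w, hw, rfl⟩
      exact ⟨u + w, Submodule.add_mem _ hu hw, vecC_add u w⟩
  obtain ⟨u, hu, h3⟩ := h2
  rw [← vecC_inj hf h3]
  exact hu

/-- the sum is direct -/
lemma VH_indep (hf : ∀ a b, T.W.tr X (e a * f b) = if a = b then 1 else 0) :
    iSupIndep (VH T e) := by
  intro q
  rw [Submodule.disjoint_def]
  intro v hv hv'
  have h1 : vecC e v ∈ ⨆ r : {r : ℤ × ℤ // r ≠ (q, 1 - q)}, T.pq X r.1.1 r.1.2 := by
    refine Submodule.iSup_induction (fun j => ⨆ (_ : j ≠ q), VH T e j)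
      (motive := fun x => vecC e x ∈ ⨆ r : {r : ℤ × ℤ // r ≠ (q, 1 - q)}, T.pq X r.1.1 r.1.2)
      hv' ?_ ?_ ?_
    · intro j x hx
      by_cases hj : j = q
      · rw [iSup_neg (not_not.2 hj)] at hx
        rw [(Submodule.mem_bot _).1 hx, vecC_zero]
        exact Submodule.zero_mem _
      · rw [iSup_pos hj] at hx
        refine Submodule.mem_iSup_of_mem (⟨(j, 1 - j), ?_⟩ : {r : ℤ × ℤ // r ≠ (q, 1 - q)}) hx
        intro h
        exact hj (congrArg Prod.fst h)
    · rw [vecC_zero]; exact Submodule.zero_mem _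
    · intro x y hx hy; rw [vecC_add]; exact Submodule.add_mem _ hx hy
  have h2 := (T.dec.indep X) (q, 1 - q)
  rw [Submodule.disjoint_def] at h2
  have h3 : vecC e v = 0 := by
    refine h2 _ hv ?_
    have h4 : (⨆ r : {r : ℤ × ℤ // r ≠ (q, 1 - q)}, T.pq X r.1.1 r.1.2) ≤
        ⨆ (j : ℤ × ℤ) (_ : j ≠ (q, 1 - q)), T.pq X j.1 j.2 :=
      iSup_le fun r => le_iSup_of_le r.1 (le_iSup_of_le r.2 le_rfl)
    exact h4 h1
  rw [← vecC_zero (T := T) (e := e)] at h3
  exact vecC_inj hf h3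

lemma VH_internal (hf : ∀ a b, T.W.tr X (e a * f b) = if a = b then 1 else 0)
    (he1 : ∀ a, e a ∈ T.W.gr X 1) (hspan : ∀ z ∈ T.W.gr X 1, ∃ v, vec e v = z) :
    DirectSum.IsInternal (VH T e) :=
  DirectSum.isInternal_submodule_of_iSupIndep_of_iSup_eq_top (VH_indep hf) (VH_top hf he1 hspan)

lemma sig_vecC (v : ι → ℂ) : sig (tauT T) (vecC e v) = vecC e (star v) := by
  rw [vecC, vecC, vec, vec]
  have h : ∀ s : Finset ι, sig (tauT T) (∑ a ∈ s, (show (CW T).K from v a) • em T.W ℂ (e a)) =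
      ∑ a ∈ s, (show (CW T).K from star v a) • em T.W ℂ (e a) := by
    intro s
    induction s using Finset.induction_on with
    | empty => rw [Finset.sum_empty, Finset.sum_empty]; exact map_zero _
    | insert i s hi ih =>
      rw [Finset.sum_insert hi, Finset.sum_insert hi]
      refine (map_add _ _ _).trans ?_
      rw [ih]
      congr 1
      refine (sig_smul (tauT T) (v i) _).trans ?_
      have h1 : sig (tauT T) (em T.W ℂ (e i)) = em T.W ℂ (e i) := by
        refine (sig_tmul (tauT T) (1 : ℂ) (e i)).trans ?_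
        rw [map_one]
        rfl
      rw [h1]
      rfl
  exact h _

/-- the matrix of the form -/
noncomputable def psiM (T : Pool.Agent.Y121.AH.HodgeTheory ops) {X : 𝒱.Obj}
    (ψ : LinearMap.BilinForm T.W.K (T.W.H X)) (e : ι → T.W.H X) : Matrix ι ι ℚ :=
  Matrix.of fun a b => toQ T.rat (ψ (e a) (e b))

lemma psi_vecC (ψ : LinearMap.BilinForm T.W.K (T.W.H X)) (v w : ι → ℂ) :
    ψ.baseChange ℂ (vecC e v) (vecC e w) = v ⬝ᵥ (cM ℂ (psiM T ψ e) *ᵥ w) := by
  have h0 : ∀ u : ι → ℂ, vecC e u = ∑ a, ((u a) ⊗ₜ[T.W.K] (e a) : ℂ ⊗[T.W.K] T.W.H X) := by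
    intro u
    rw [vecC, vec]
    have h : ∀ s : Finset ι, (∑ a ∈ s, (show (CW T).K from u a) • em T.W ℂ (e a) : (CW T).H X) =
        ∑ a ∈ s, ((u a) ⊗ₜ[T.W.K] (e a) : ℂ ⊗[T.W.K] T.W.H X) := by
      intro s
      induction s using Finset.induction_on with
      | empty => rw [Finset.sum_empty, Finset.sum_empty]; rfl
      | insert i s hi ih =>
        rw [Finset.sum_insert hi, Finset.sum_insert hi, ih, ← tmul_eq]
        rfl
    exact h _
  rw [h0, h0, map_sum]
  simp only [map_sum, LinearMap.sum_apply]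
  rw [Finset.sum_comm, dotProduct]
  refine Finset.sum_congr rfl fun a _ => ?_
  rw [Matrix.mulVec, dotProduct, Finset.mul_sum]
  refine Finset.sum_congr rfl fun b _ => ?_
  rw [LinearMap.BilinForm.baseChange_tmul, cM_apply, psiM, Matrix.of_apply]
  have h1 : algebraMap T.W.K ℂ (ψ (e a) (e b)) = ((toQ T.rat (ψ (e a) (e b)) : ℚ) : ℂ) := by
    conv_lhs => rw [← toQ_spec T.rat (ψ (e a) (e b))]
    exact map_ratCast _ _
  rw [← h1, Algebra.smul_def]
  ring

/-- **The polarized Hodge structure on `H^1(X)` in coordinates.** -/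
noncomputable def HS {ψ : LinearMap.BilinForm T.W.K (T.W.H X)} {d : ℕ}
    (hP : IsPHS (tauT T) (Fx T X) ψ d)
    (hf : ∀ a b, T.W.tr X (e a * f b) = if a = b then 1 else 0)
    (he1 : ∀ a, e a ∈ T.W.gr X 1) (hspan : ∀ z ∈ T.W.gr X 1, ∃ v, vec e v = z) : PolHS ι where
  w := 1
  V := VH T e
  internal := VH_internal hf he1 hspan
  conj q x hx := by
    rw [mem_VH] at hx ⊢
    have h1 := hP.cnj q (1 - q) _ hx
    rw [sig_vecC] at h1
    have h2 : ((1 : ℕ) : ℤ) - q = 1 - q := by norm_num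
    have h3 : 1 - (((1 : ℕ) : ℤ) - q) = q := by norm_num
    rw [h3, h2]
    exact h1
  β := psiM T ψ e
  orth q r hqr x hx y hy := by
    rw [← psi_vecC]
    refine hP.orth q (1 - q) r (1 - r) _ hx _ hy (Or.inl ?_)
    intro h
    apply hqr
    rw [h]
    norm_num
  pos q x hx hx0 := by
    have h0 : vecC e x ≠ 0 := by
      intro h
      rw [← vecC_zero (T := T) (e := e)] at h
      exact hx0 (vecC_inj hf h)
    obtain ⟨r, hr, h1⟩ := hP.pos q (1 - q) _ hx h0
    refine ⟨r, hr, ?_⟩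
    rw [← h1, sig_vecC, psi_vecC]
    congr 2
    push_cast
    ring

end Run7.h877.TX
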