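import Pool.Agent.N996.FP.Defs
import Pool.Agent.Y133.Half.Growth

/-!
# Products of pull-backs of classes along the projections of a power
-/

set_option autoImplicit false
set_option linter.unusedSectionVars false

open CategoryTheory AlgebraicGeometry

universe u v

namespace Run7.h877.TX

open Module
open Pool.Agent.H914 Pool.Agent.H914.VarClass Pool.Agent.H914.VarClass.Obj
  Pool.Agent.H914.WeilCohomology
open Pool.Agent.Y133.Half (pw prj pfst psnd prj_zero prj_last prj_castSucc)

variable {k : Type u} [Field k] {𝒱 : VarClass k} {ops : CycleOps 𝒱}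

section

variable (W : WeilCohomology.{u, v} ops) {X : 𝒱.Obj}

/-- The product of the pull-backs of the classes `v s` along the projections number `i s`. -/
noncomputable def mon (n : ℕ) {m : ℕ} (i : Fin m → Fin (n + 1)) :
    MultilinearMap W.K (fun _ : Fin m => W.H X) (W.H (pw X n)) :=
  (MultilinearMap.mkPiAlgebraFin W.K m (W.H (pw X n))).compLinearMap
    fun s => (W.map (prj X n (i s))).toLinearMap

lemma mon_apply (n : ℕ) {m : ℕ} (i : Fin m → Fin (n + 1)) (v : Fin m → W.H X) :
    mon W n i v = (List.ofFn fun s => W.map (prj X n (i s)) (v s)).prod := by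
  rw [mon, MultilinearMap.compLinearMap_apply, MultilinearMap.mkPiAlgebraFin_apply]
  rfl

/-- The product of the pull-backs of the classes `v s` along the projections number `s`. -/
noncomputable def wd (n : ℕ) (v : Fin (n + 1) → W.H X) : W.H (pw X n) :=
  mon W n (fun s : Fin (n + 1) => s) v

lemma wd_zero (v : Fin 1 → W.H X) : wd W 0 v = v 0 := by
  rw [wd, mon_apply, List.ofFn_succ, List.ofFn_zero, List.prod_cons, List.prod_nil, mul_one]
  exact W.map_id X (v 0)

lemma wd_succ (n : ℕ) (v : Fin (n + 2) → W.H X) :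
    wd W (n + 1) v = W.map (pfst X n) (wd W n fun s => v s.castSucc) *
      W.map (psnd X n) (v (Fin.last _)) := by
  have h1 : W.map (pfst X n) (wd W n fun s => v s.castSucc) =
      (List.ofFn fun s : Fin (n + 1) => W.map (prj X (n + 1) s.castSucc) (v s.castSucc)).prod := by
    rw [wd, mon_apply, map_list_prod, List.map_ofFn]
    refine congrArg List.prod (congrArg List.ofFn (funext fun s => ?_))
    rw [Function.comp_apply, prj_castSucc, W.map_comp]
  rw [h1, wd, mon_apply, List.ofFn_succ', List.concat_eq_append, List.prod_append,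
    List.prod_singleton, prj_last]

lemma map_pr_mem {n : ℕ} {i : Fin (n + 1)} {d : ℕ} {x : W.H X} (hx : x ∈ W.gr X d) :
    W.map (prj X n i) x ∈ W.gr (pw X n) d := W.map_mem _ hx

lemma mon_mem (n : ℕ) {m : ℕ} (i : Fin m → Fin (n + 1)) {v : Fin m → W.H X} {d : ℕ}
    (hv : ∀ s, v s ∈ W.gr X d) : mon W n i v ∈ W.gr (pw X n) (m * d) := by
  rw [mon_apply]
  induction m with
  | zero => rw [List.ofFn_zero, List.prod_nil, zero_mul]; exact W.one_mem _
  | succ m ih =>
    rw [List.ofFn_succ, List.prod_cons, add_mul, one_mul, add_comm]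
    exact W.mul_mem (map_pr_mem W (hv 0)) (ih (fun s => i s.succ) fun s => hv s.succ)

lemma wd_mem (n : ℕ) {v : Fin (n + 1) → W.H X} {d : ℕ} (hv : ∀ s, v s ∈ W.gr X d) :
    wd W n v ∈ W.gr (pw X n) ((n + 1) * d) := mon_mem W n _ hv

/-- The sign. -/
def sgn (K : Type*) [Field K] (o : ℕ) : ℕ → K
  | 0 => 1
  | n + 1 => sgn K o n * (-1) ^ (1 * ((n + 1) * o))

lemma sgn_ne (K : Type*) [Field K] (o n : ℕ) : sgn K o n ≠ 0 := by
  induction n with
  | zero => exact one_ne_zero
  | succ n ih => exact mul_ne_zero ih (pow_ne_zero _ (neg_ne_zero.2 one_ne_zero))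

lemma tr_pw {n : ℕ} (a : W.H (pw X n)) (b : W.H X) :
    W.tr (pw X (n + 1)) (W.map (pfst X n) a * W.map (psnd X n) b) =
      W.tr (pw X n) a * W.tr X b := W.tr_prod a b

/-- **The trace of a product of two words.** -/
lemma tr_wd (o : ℕ) (n : ℕ) {x y : Fin (n + 1) → W.H X} (hx : ∀ s, x s ∈ W.gr X 1)
    (hy : ∀ s, y s ∈ W.gr X o) :
    W.tr (pw X n) (wd W n x * wd W n y) = sgn W.K o n * ∏ s, W.tr X (x s * y s) := by
  induction n with
  | zero =>
    rw [wd_zero, wd_zero, sgn, one_mul, Fin.prod_univ_succ, Fin.prod_univ_zero, mul_one]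
    rfl
  | succ n ih =>
    rw [wd_succ, wd_succ, sgn, Fin.prod_univ_castSucc]
    have h1 : W.map (psnd X n) (x (Fin.last _)) ∈ W.gr (pw X (n + 1)) 1 :=
      W.map_mem _ (hx _)
    have h2 : W.map (pfst X n) (wd W n fun s => y s.castSucc) ∈
        W.gr (pw X (n + 1)) ((n + 1) * o) := W.map_mem _ (wd_mem W n fun s => hy _)
    have h3 := W.comm h1 h2
    have h4 : W.map (pfst X n) (wd W n fun s => x s.castSucc) *
        W.map (psnd X n) (x (Fin.last _)) *
        (W.map (pfst X n) (wd W n fun s => y s.castSucc) *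
        W.map (psnd X n) (y (Fin.last _))) = (-1 : W.K) ^ (1 * ((n + 1) * o)) •
        (W.map (pfst X n) ((wd W n fun s => x s.castSucc) * wd W n fun s => y s.castSucc) *
        W.map (psnd X n) (x (Fin.last _) * y (Fin.last _))) := by
      rw [map_mul, map_mul]
      calc _ = W.map (pfst X n) (wd W n fun s => x s.castSucc) *
          (W.map (psnd X n) (x (Fin.last _)) *
          W.map (pfst X n) (wd W n fun s => y s.castSucc)) *
          W.map (psnd X n) (y (Fin.last _)) := by simp only [mul_assoc]
        _ = _ := by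
          rw [h3, mul_smul_comm, smul_mul_assoc]
          simp only [mul_assoc]
    rw [h4, map_smul, smul_eq_mul, tr_pw, ih (fun s => hx s.castSucc) fun s => hy s.castSucc]
    ring

/-! ### Spanning -/

/-- Products of pull-backs of classes in a set of generators. -/
lemma adjoin_pw {V : Set (W.H X)} (hV : Algebra.adjoin W.K V = ⊤) (n : ℕ) :
    Algebra.adjoin W.K {z : W.H (pw X n) | ∃ (i : Fin (n + 1)) (x : W.H X), x ∈ V ∧
      W.map (prj X n i) x = z} = ⊤ := by
  induction n with
  | zero =>
    have h0 : (⊤ : Subalgebra W.K (W.H X)) ≤ Algebra.adjoin W.K {z : W.H (pw X 0) |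
        ∃ (i : Fin 1) (x : W.H X), x ∈ V ∧ W.map (prj X 0 i) x = z} := by
      rw [← hV]
      refine Algebra.adjoin_mono ?_
      intro x hx
      exact ⟨0, x, hx, W.map_id X x⟩
    exact top_le_iff.1 h0
  | succ n ih =>
    set S := Algebra.adjoin W.K {z : W.H (pw X (n + 1)) | ∃ (i : Fin (n + 2)) (x : W.H X), x ∈ V ∧
      W.map (prj X (n + 1) i) x = z} with hS
    have h1 : ∀ a : W.H (pw X n), W.map (pfst X n) a ∈ S := by
      intro a
      have ha : a ∈ Algebra.adjoin W.K {z : W.H (pw X n) | ∃ (i : Fin (n + 1)) (x : W.H X),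
          x ∈ V ∧ W.map (prj X n i) x = z} := by rw [ih]; trivial
      induction ha using Algebra.adjoin_induction with
      | mem z hz =>
        obtain ⟨i, x, hx, rfl⟩ := hz
        refine Algebra.subset_adjoin ⟨i.castSucc, x, hx, ?_⟩
        rw [prj_castSucc, W.map_comp]
      | algebraMap r => rw [AlgHom.commutes]; exact Subalgebra.algebraMap_mem _ r
      | add a b _ _ ha hb => rw [map_add]; exact Subalgebra.add_mem _ ha hb
      | mul a b _ _ ha hb => rw [map_mul]; exact Subalgebra.mul_mem _ ha hb
    have h2 : ∀ b : W.H X, W.map (psnd X n) b ∈ S := by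
      intro b
      have hb : b ∈ Algebra.adjoin W.K V := by rw [hV]; trivial
      induction hb using Algebra.adjoin_induction with
      | mem z hz =>
        refine Algebra.subset_adjoin ⟨Fin.last _, z, hz, ?_⟩
        rw [prj_last]
      | algebraMap r => rw [AlgHom.commutes]; exact Subalgebra.algebraMap_mem _ r
      | add a b _ _ ha hb => rw [map_add]; exact Subalgebra.add_mem _ ha hb
      | mul a b _ _ ha hb => rw [map_mul]; exact Subalgebra.mul_mem _ ha hb
    refine top_le_iff.1 fun z _ => ?_
    obtain ⟨t, rfl⟩ := (W.kunneth (pw X n) X).2 z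
    induction t using TensorProduct.induction_on with
    | zero => rw [map_zero]; exact Subalgebra.zero_mem _
    | add x y hx hy => rw [map_add]; exact Subalgebra.add_mem _ (hx trivial) (hy trivial)
    | tmul a b => exact Subalgebra.mul_mem _ (h1 a) (h2 b)

/-- **Induction over the monomials.** -/
lemma mon_induction {V : Set (W.H X)} (hV : Algebra.adjoin W.K V = ⊤) (n : ℕ)
    {P : W.H (pw X n) → Prop} (h0 : P 0) (hadd : ∀ a b, P a → P b → P (a + b))
    (hsmul : ∀ (c : W.K) a, P a → P (c • a))
    (hmon : ∀ (m : ℕ) (i : Fin m → Fin (n + 1)) (v : Fin m → W.H X), (∀ s, v s ∈ V) →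
      P (mon W n i v)) (z : W.H (pw X n)) : P z := by
  have hz : z ∈ Algebra.adjoin W.K {z : W.H (pw X n) | ∃ (i : Fin (n + 1)) (x : W.H X), x ∈ V ∧
      W.map (prj X n i) x = z} := by rw [adjoin_pw W hV]; trivial
  rw [← Subalgebra.mem_toSubmodule, Algebra.adjoin_eq_span] at hz
  induction hz using Submodule.span_induction with
  | mem z hz =>
    obtain ⟨l, hl, rfl⟩ := Submonoid.exists_list_of_mem_closure hz
    choose i x hx hi using fun s : Fin l.length => hl (l.get s) (List.get_mem l s)
    have h1 : mon W n i x = l.prod := by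
      rw [mon_apply]
      simp only [hi]
      rw [List.ofFn_get]
    rw [← h1]
    exact hmon _ i x hx
  | zero => exact h0
  | add a b _ _ ha hb => exact hadd a b ha hb
  | smul c a _ ha => exact hsmul c a ha

end

end Run7.h877.TX
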