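import Pool.Agent.Run7.h226.Tdefs

/-!
# The centre of the Hodge group and Tate classes: definitions
-/

universe u

namespace Run7.h877.SD

open Pool.Agent.H914 Pool.Agent.H914.VarClass Pool.Agent.Y121.AHS Pool.Agent.N996.FP Run7.h226
open Pool.Agent.Y133.Half (pw)

/-- The element `b` is the image of an element of the set `S` under the homomorphism `f`. -/
def IsImage {A B : Type*} [AddCommGroup A] [Ring B] (f : A →+ B) (S : A → Prop) (b : B) : Prop :=
  ∃ a, S a ∧ f a = b

/-- The linear maps of the algebra `A` to itself. -/
abbrev Op (K A : Type) [Field K] [Ring A] [Algebra K A] : Type := A →ₗ[K] A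

/-- The linear map `d` of the algebra `A` to itself is a derivation, and it is compatible with the
map `d'` of the algebra `B` to itself for the homomorphisms `p i : B → A`, `i ≤ n`. -/
def IsDer {K A B : Type} [Field K] [Ring A] [Algebra K A] [Ring B] [Algebra K B] (n : ℕ)
    (p : ℕ → B →ₐ[K] A) (d : Op K A) (d' : Op K B) : Prop :=
  (∀ a b, d (a * b) = d a * b + a * d b) ∧ ∀ i ≤ n, ∀ b, d (p i b) = p i (d' b)

/-- The extension of the linear map `d` to coefficients in `L` maps all elements of the set `S` to
zero. -/
def Kills {K A : Type} [Field K] [Ring A] [Algebra K A] (L : Type) [Field L] [Algebra K L]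
    (d : Op K A) (S : Ext K L A → Prop) : Prop := ∀ x, S x → extMap K L d x = 0

variable {k : Type u} [Field k] {𝒱 : VarClass k} {ops : CycleOps 𝒱} {T : HodgeTheory ops}
  {E : PrimeNumber T} {X : 𝒱.Obj}

/-- The class in the `ℓ`-adic cohomology comes from the class of an algebraic cycle of
codimension `j`. -/
def IsAlgebraic (j : ℕ) (a : E.H X) : Prop :=
  ∃ c, IsImage (T.W.cl X) (X.IsCyc j) c ∧ a = E.em c

/-- The centre of the Lie algebra of the Hodge group is contained in the Lie algebra of the
`ℓ`-adic monodromy group. Explicitly: let `δ n` be derivations of the algebras `H(X ^ (n + 1))`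
which commute with the pull-backs along the projections `X ^ (n + 1) → X`. (They are determined by
the map of `H^1(X)`; so this is a linear map of `H^1(X)` to itself which acts on the algebras
`H(X ^ (n + 1))`, as an element of a Lie algebra.) If they give on `H^1(X)` an element of the centre
of the algebra of the endomorphisms of the Hodge structure, and map all Hodge classes on all powers
of `X` to zero, then they map all Tate classes on all powers of `X` to zero. (This is a theorem of
Vasiu, and Ullmo and Yafaev, for abelian varieties.) -/
def CentreKillsTateClasses {Γ : Type} [Group Γ] [TopologicalSpace Γ] (R : GaloisAction E X Γ) :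
    Prop :=
  ∀ δ : (∀ n : ℕ, Op T.W.K (T.W.H (pw X n))),
    (∀ n, IsDer n (fun i => T.W.map (pr X n i)) (δ n) (δ 0)) →
    IsCentral (T.W.gr X 1) (T.pq X) (δ 0) → (∀ n j, Kills ℚ_[E.ℓ] (δ n) (IsHdg j)) →
      ∀ n j, Kills ℚ_[E.ℓ] (δ n) (IsTate R n j)

end Run7.h877.SD
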